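import Mathlib
import Pool.Agent.Lib.MP_af06f6_co.G.Swap

/-!
# MP_af06f6_co, piece A1: the face lemma
-/

namespace Pool.Agent.Lib.MP_af06f6_co

theorem pf_A1 : Stm_A1 := by
  intro V a c x hx hle hxa
  classical
  rw [Finset.mem_convexHull'] at hx
  obtain ⟨w, hw0, hw1, hwx⟩ := hx
  have hin : inner ℝ x a = ∑ v ∈ V, w v * inner ℝ v a := by
    rw [← hwx, sum_inner]
    exact Finset.sum_congr rfl fun v _ => by rw [real_inner_smul_left]
  have hsum : ∑ v ∈ V, w v * (c - inner ℝ v a) = 0 := by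
    simp only [mul_sub, Finset.sum_sub_distrib]
    rw [← hin, hxa, ← Finset.sum_mul, hw1]
    ring
  have hz : ∀ v ∈ V, w v * (c - inner ℝ v a) = 0 :=
    (Finset.sum_eq_zero_iff_of_nonneg fun v hv =>
      mul_nonneg (hw0 v hv) (sub_nonneg.2 (hle v hv))).1 hsum
  have hz' : ∀ v ∈ V, w v ≠ 0 → inner ℝ v a = c := by
    intro v hv h0
    rcases mul_eq_zero.1 (hz v hv) with h | h
    · exact absurd h h0
    · linarith
  have key : x ∈ convexHull ℝ ((V.filter fun v => inner ℝ v a = c : Finset E3) : Set E3) := by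
    rw [Finset.mem_convexHull']
    refine ⟨w, fun v hv => hw0 v (Finset.mem_filter.1 hv).1, ?_, ?_⟩
    · rw [← hw1]
      exact Finset.sum_filter_of_ne fun v hv h0 => hz' v hv h0
    · rw [← hwx]
      exact Finset.sum_filter_of_ne fun v hv h0 => hz' v hv fun h => h0 (by rw [h, zero_smul])
  have hset : ((V.filter fun v => inner ℝ v a = c : Finset E3) : Set E3)
      = {v : E3 | v ∈ V ∧ inner ℝ v a = c} := by
    ext v
    simp
  rwa [hset] at key

end Pool.Agent.Lib.MP_af06f6_co
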