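import Mathlib
import Pool.Agent.Lib.MP_af06f6_co.G.Stm2

open Set Metric

namespace Pool.Agent.Lib.MP_af06f6_co

theorem pf_A10 (hA4 : Stm_A4) (hA10a : Stm_A10a) (hA10b : Stm_A10b) (hA10c : Stm_A10c) :
    Stm_A10 := by
  classical
  intro V F h l hinj hgen v hv
  refine ⟨fun htop => ?_, fun hbot => ?_, fun hdown hup => ?_⟩
  · rw [Finset.card_eq_zero, Finset.filter_eq_empty_iff]
    rintro f hf ⟨w₁, w₂, g₁, g₂, hF, h1, h2⟩
    have := htop w₂ hF.e₂.hw hF.e₂.hvw.symm
    linarith
  · rw [Finset.card_eq_zero, Finset.filter_eq_empty_iff]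
    rintro f hf ⟨w₁, w₂, g₁, g₂, hF, h1, h2⟩
    have := hbot w₁ hF.e₁.hw hF.e₁.hvw.symm
    linarith
  · obtain ⟨d₀, hd0, hdF⟩ := hA10c V F h l v hv hdown hup
    obtain ⟨f₀, hf₀⟩ := h.neF
    have hl : l ≠ 0 := by
      rintro rfl
      exact hgen f₀ hf₀ f₀ hf₀ (Submodule.zero_mem _)
    have hcard := hA4 V F h v hv
    have h2 := hA10a (star F v) l d₀ (by omega) hl hd0
      (fun g hg => hdF g (mem_star'.1 hg).1 (mem_star'.1 hg).2)
      (fun g hg g' hg' _ => hgen g (mem_star'.1 hg).1 g' (mem_star'.1 hg').1)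
      (fun g hg g' hg' hne => by
        rw [LinearIndependent.pair_iff]
        intro s t hst
        have h7 : inner ℝ v (s • g + t • g') = (0 : ℝ) := by rw [hst, inner_zero_right]
        rw [inner_add_right, real_inner_smul_right, real_inner_smul_right,
          (mem_star'.1 hg).2, (mem_star'.1 hg').2] at h7
        have ht : t = -s := by linarith
        subst ht
        have h8 : s • (g - g') = 0 := by rw [← hst]; module
        rcases smul_eq_zero.1 h8 with h9 | h9
        · exact ⟨h9, by rw [h9, neg_zero]⟩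
        · exact absurd (sub_eq_zero.1 h9) hne)
    rw [← h2]
    congr 1
    apply Finset.filter_congr
    intro g hg
    exact hA10b V F h l hinj v hv g hg

end Pool.Agent.Lib.MP_af06f6_co
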