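import Mathlib
import Pool.Agent.Lib.MP_af06f6_co.G.Stm2

/-!
# MP_af06f6_co, geometry part: piece A10a
-/

open Set Metric MeasureTheory

namespace Pool.Agent.Lib.MP_af06f6_co

private lemma a10a_orth (l d p : E3) (hl : l ≠ 0) (hd : d ≠ 0) (hp : p ≠ 0) (h1 : inner ℝ d l = (0 : ℝ))
    (h2 : inner ℝ p l = (0 : ℝ)) (h3 : inner ℝ p d = (0 : ℝ)) (x : E3) (hxl : inner ℝ x l = (0 : ℝ))
    (hxd : inner ℝ x d = (0 : ℝ)) (hxp : inner ℝ x p = (0 : ℝ)) : x = 0 := by
  have h1' : inner ℝ l d = (0 : ℝ) := by rw [real_inner_comm]; exact h1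
  have h2' : inner ℝ l p = (0 : ℝ) := by rw [real_inner_comm]; exact h2
  have h3' : inner ℝ d p = (0 : ℝ) := by rw [real_inner_comm]; exact h3
  have hli : LinearIndependent ℝ ![l, d, p] := by
    apply linearIndependent_of_ne_zero_of_inner_eq_zero
    · intro i
      fin_cases i
      · exact hl
      · exact hd
      · exact hp
    · intro i j hij
      fin_cases i <;> fin_cases j <;> first | exact absurd rfl hij | exact h1 | exact h2 | exact h3 | exact h1' | exact h2' | exact h3'
  have hspan : Submodule.span ℝ (Set.range ![l, d, p]) = ⊤ := by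
    apply hli.span_eq_top_of_card_eq_finrank
    simp
  have hx : x ∈ Submodule.span ℝ (Set.range ![l, d, p]) := by rw [hspan]; exact Submodule.mem_top
  have hall : ∀ y ∈ Submodule.span ℝ (Set.range ![l, d, p]), inner ℝ x y = (0 : ℝ) := by
    intro y hy
    induction hy using Submodule.span_induction with
    | mem y hy =>
      obtain ⟨i, rfl⟩ := hy
      fin_cases i
      · exact hxl
      · exact hxd
      · exact hxp
    | zero => simp
    | add y z _ _ hy hz => rw [inner_add_right, hy, hz, add_zero]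
    | smul a y _ hy => rw [inner_smul_right, hy, mul_zero]
  exact inner_self_eq_zero.mp (hall x hx)

private lemma a10a_exists (l d : E3) : ∃ p : E3, p ≠ 0 ∧ inner ℝ p l = (0 : ℝ) ∧ inner ℝ p d = (0 : ℝ) := by
  have h1 := Submodule.finrank_add_finrank_orthogonal (Submodule.span ℝ ({l, d} : Set E3))
  have h2 : Module.finrank ℝ (Submodule.span ℝ ({l, d} : Set E3)) ≤ 2 := by
    classical
    have h := finrank_span_finset_le_card (R := ℝ) ({l, d} : Finset E3)
    rw [Finset.coe_pair] at h
    exact h.trans Finset.card_le_two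
  have h3 : Module.finrank ℝ E3 = 3 := by simp
  have h4 : (Submodule.span ℝ ({l, d} : Set E3))ᗮ ≠ ⊥ := by
    intro h
    rw [h, finrank_bot] at h1
    omega
  obtain ⟨p, hp, hp0⟩ := Submodule.exists_mem_ne_zero_of_ne_bot h4
  refine ⟨p, hp0, ?_, ?_⟩
  · rw [real_inner_comm]
    exact (Submodule.mem_orthogonal _ _).mp hp l (Submodule.subset_span (by simp))
  · rw [real_inner_comm]
    exact (Submodule.mem_orthogonal _ _).mp hp d (Submodule.subset_span (by simp))

theorem pf_A10a : Stm_A10a := by
  classical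
  intro G l d₀ hcard hl hdl hneg hspan hli
  obtain ⟨g₀, hg₀⟩ : G.Nonempty := Finset.card_pos.mp (by omega)
  have hd₀ : d₀ ≠ 0 := by
    rintro rfl
    have := hneg g₀ hg₀
    simp at this
  obtain ⟨p, hp, hpl, hpd⟩ := a10a_exists l d₀
  have hdp : inner ℝ d₀ p = (0 : ℝ) := by rw [real_inner_comm]; exact hpd
  have hld : inner ℝ l d₀ = (0 : ℝ) := by rw [real_inner_comm]; exact hdl
  have hlp : inner ℝ l p = (0 : ℝ) := by rw [real_inner_comm]; exact hpl
  have hD : ∀ g ∈ G, 0 < -(inner ℝ d₀ g : ℝ) := fun g hg => neg_pos.mpr (hneg g hg)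
  set s : E3 → ℝ := fun g => inner ℝ p g / (-(inner ℝ d₀ g : ℝ)) with hs
  have hPs : ∀ g ∈ G, (inner ℝ p g : ℝ) = (-(inner ℝ d₀ g : ℝ)) * s g := by
    intro g hg
    simp only [hs]
    rw [mul_div_cancel₀ _ (hD g hg).ne']
  -- injectivity
  have hinj : ∀ g ∈ G, ∀ g' ∈ G, g ≠ g' → s g ≠ s g' := by
    intro g hg g' hg' hne heq
    set x : E3 := (-(inner ℝ d₀ g' : ℝ)) • g - (-(inner ℝ d₀ g : ℝ)) • g' with hx
    have hxp : inner ℝ x p = (0 : ℝ) := by
      rw [real_inner_comm, hx, inner_sub_right, inner_smul_right, inner_smul_right, hPs g hg, hPs g' hg', heq]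
      ring
    have hxd : inner ℝ x d₀ = (0 : ℝ) := by
      rw [real_inner_comm, hx, inner_sub_right, inner_smul_right, inner_smul_right]
      ring
    have hll : (inner ℝ l l : ℝ) ≠ 0 := inner_self_ne_zero.mpr hl
    have hxl : x - ((inner ℝ x l : ℝ) / inner ℝ l l) • l = 0 := by
      apply a10a_orth l d₀ p hl hd₀ hp hdl hpl hpd
      · rw [inner_sub_left, inner_smul_left]
        simp only [conj_trivial]
        rw [div_mul_cancel₀ _ hll, sub_self]
      · rw [inner_sub_left, inner_smul_left, hxd, hld, mul_zero, sub_zero]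
      · rw [inner_sub_left, inner_smul_left, hxp, hlp, mul_zero, sub_zero]
    have hxe : x = ((inner ℝ x l : ℝ) / inner ℝ l l) • l := sub_eq_zero.mp hxl
    have hx0 : x ≠ 0 := by
      intro h0
      have h5 := (LinearIndependent.pair_iff.mp (hli g hg g' hg' hne)) (-(inner ℝ d₀ g' : ℝ)) (-(-(inner ℝ d₀ g : ℝ)))
        (by rw [neg_smul (-(inner ℝ d₀ g : ℝ)) g', ← sub_eq_add_neg]; exact h0)
      exact (hD g' hg').ne' h5.1
    have hc : ((inner ℝ x l : ℝ) / inner ℝ l l) ≠ 0 := by
      intro h0
      rw [h0, zero_smul] at hxe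
      exact hx0 hxe
    apply hspan g hg g' hg' hne
    have hlx : ∀ c : ℝ, c ≠ 0 → x = c • l → l = c⁻¹ • x := by
      intro c hc hxc
      rw [hxc, smul_smul, inv_mul_cancel₀ hc, one_smul]
    rw [hlx _ hc hxe]
    apply Submodule.smul_mem
    rw [hx]
    exact Submodule.sub_mem _ (Submodule.smul_mem _ _ (Submodule.subset_span (by simp)))
      (Submodule.smul_mem _ _ (Submodule.subset_span (by simp)))
  obtain ⟨g₁, hg₁, hmin⟩ := Finset.exists_min_image G s ⟨g₀, hg₀⟩
  obtain ⟨g₂, hg₂, hmax⟩ := Finset.exists_max_image G s ⟨g₀, hg₀⟩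
  have hmin' : ∀ g ∈ G, g ≠ g₁ → s g₁ < s g := fun g hg hne =>
    lt_of_le_of_ne (hmin g hg) (hinj g₁ hg₁ g hg (Ne.symm hne))
  have hmax' : ∀ g ∈ G, g ≠ g₂ → s g < s g₂ := fun g hg hne =>
    lt_of_le_of_ne (hmax g hg) (hinj g hg g₂ hg₂ hne)
  have hne : g₁ ≠ g₂ := by
    intro h
    obtain ⟨g', hg', hne'⟩ := Finset.exists_mem_ne (show 1 < G.card by omega) g₁
    have h1 := hmin' g' hg' hne'
    have h2 := hmax g' hg'
    rw [← h] at h2
    linarith
  have hset : (G.filter (fun g => ∃ d : E3, inner ℝ d l = (0 : ℝ) ∧ inner ℝ d g = (0 : ℝ) ∧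
    ∀ g' ∈ G, g' ≠ g → inner ℝ d g' < (0 : ℝ))) = {g₁, g₂} := by
    ext g
    rw [Finset.mem_filter, Finset.mem_insert, Finset.mem_singleton]
    constructor
    · rintro ⟨hg, d, hdl', hdg, hdn⟩
      have hpp : (inner ℝ p p : ℝ) ≠ 0 := inner_self_ne_zero.mpr hp
      have hdd : (inner ℝ d₀ d₀ : ℝ) ≠ 0 := inner_self_ne_zero.mpr hd₀
      set a : ℝ := (inner ℝ d p : ℝ) / inner ℝ p p with ha
      set b : ℝ := (inner ℝ d d₀ : ℝ) / inner ℝ d₀ d₀ with hb
      have hde : d - (a • p + b • d₀) = 0 := by
        apply a10a_orth l d₀ p hl hd₀ hp hdl hpl hpd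
        · rw [inner_sub_left, inner_add_left, inner_smul_left, inner_smul_left, hdl', hpl, hdl]
          simp
        · rw [inner_sub_left, inner_add_left, inner_smul_left, inner_smul_left, hpd]
          simp only [conj_trivial]
          rw [hb, div_mul_cancel₀ _ hdd]
          ring
        · rw [inner_sub_left, inner_add_left, inner_smul_left, inner_smul_left, hdp]
          simp only [conj_trivial]
          rw [ha, div_mul_cancel₀ _ hpp]
          ring
      have hval : ∀ g' ∈ G, (inner ℝ d g' : ℝ) = (-(inner ℝ d₀ g' : ℝ)) * (a * s g' - b) := by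
        intro g' hg'
        rw [sub_eq_zero.mp hde, inner_add_left, inner_smul_left, inner_smul_left, hPs g' hg']
        simp only [conj_trivial]
        ring
      have hab : a * s g - b = 0 := by
        have h1 := hval g hg
        rw [hdg] at h1
        rcases mul_eq_zero.mp h1.symm with h2 | h2
        · exact absurd h2 (hD g hg).ne'
        · exact h2
      have hab' : ∀ g' ∈ G, g' ≠ g → a * s g' - b < 0 := by
        intro g' hg' hne'
        have h1 := hdn g' hg' hne'
        rw [hval g' hg'] at h1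
        by_contra h2
        push Not at h2
        have := mul_nonneg (hD g' hg').le h2
        linarith
      obtain ⟨g', hg', hne'⟩ := Finset.exists_mem_ne (show 1 < G.card by omega) g
      rcases lt_trichotomy a 0 with h | h | h
      · left
        by_contra hg1
        have h1 := hmin' g hg hg1
        have h2 := hab' g₁ hg₁ (Ne.symm hg1)
        nlinarith
      · exfalso
        have h1 := hab' g' hg' hne'
        rw [h] at h1 hab
        linarith
      · right
        by_contra hg2
        have h1 := hmax' g hg hg2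
        have h2 := hab' g₂ hg₂ (Ne.symm hg2)
        nlinarith
    · rintro (rfl | rfl)
      · refine ⟨hg₁, -p - s g • d₀, ?_, ?_, ?_⟩
        · rw [inner_sub_left, inner_neg_left, inner_smul_left, hpl, hdl]
          simp
        · rw [inner_sub_left, inner_neg_left, inner_smul_left, hPs g hg₁]
          simp only [conj_trivial]
          ring
        · intro g' hg' hne'
          rw [inner_sub_left, inner_neg_left, inner_smul_left, hPs g' hg']
          simp only [conj_trivial]
          have h1 := hmin' g' hg' hne'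
          have h2 := mul_pos (hD g' hg') (sub_pos.mpr h1)
          nlinarith
      · refine ⟨hg₂, p + s g • d₀, ?_, ?_, ?_⟩
        · rw [inner_add_left, inner_smul_left, hpl, hdl]
          simp
        · rw [inner_add_left, inner_smul_left, hPs g hg₂]
          simp only [conj_trivial]
          ring
        · intro g' hg' hne'
          rw [inner_add_left, inner_smul_left, hPs g' hg']
          simp only [conj_trivial]
          have h1 := hmax' g' hg' hne'
          have h2 := mul_pos (hD g' hg') (sub_pos.mpr h1)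
          nlinarith
  rw [hset]
  exact Finset.card_pair hne

end Pool.Agent.Lib.MP_af06f6_co
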