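import Mathlib
import Pool.Agent.Lib.MP_af06f6_co.G.Stm2
import Pool.Agent.Lib.MP_af06f6_co.G.Swap

open Set Metric

namespace Pool.Agent.Lib.MP_af06f6_co

theorem a10b_le {V F : Finset E3} (h : DP V F) {w g : E3} (hw : w ∈ V) (hg : g ∈ F) :
    inner ℝ w g ≤ (1 : ℝ) :=
  (h.polV w).1 (subset_convexHull ℝ _ hw) g hg

theorem pf_A10b (hA3 : Stm_A3) (_hA4 : Stm_A4) (hA5 : Stm_A5) : Stm_A10b := by
  intro V F h l hinj v hv g hg
  obtain ⟨hgF, hvg⟩ := mem_star'.1 hg
  constructor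
  · rintro ⟨w₁, w₂, g₁, g₂, hF, h1, h2⟩
    refine ⟨(inner ℝ w₂ l - inner ℝ v l : ℝ) • (w₁ - v) +
      (inner ℝ v l - inner ℝ w₁ l : ℝ) • (w₂ - v), ?_, ?_, ?_⟩
    · rw [inner_add_left, real_inner_smul_left, real_inner_smul_left, inner_sub_left,
        inner_sub_left]
      ring
    · rw [inner_add_left, real_inner_smul_left, real_inner_smul_left, inner_sub_left,
        inner_sub_left, hF.e₁.wf, hF.e₂.wf, hvg]
      ring
    · intro g' hg' hne
      obtain ⟨hgF', hvg'⟩ := mem_star'.1 hg'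
      have k1 := a10b_le h hF.e₁.hw hgF'
      have k2 := a10b_le h hF.e₂.hw hgF'
      rw [inner_add_left, real_inner_smul_left, real_inner_smul_left, inner_sub_left,
        inner_sub_left, hvg']
      have p1 : 0 < (inner ℝ w₂ l - inner ℝ v l : ℝ) := by linarith
      have p2 : 0 < (inner ℝ v l - inner ℝ w₁ l : ℝ) := by linarith
      by_contra hcon
      have q1 : (inner ℝ w₂ l - inner ℝ v l : ℝ) * (inner ℝ w₁ g' - 1) ≤ 0 :=
        mul_nonpos_of_nonneg_of_nonpos p1.le (by linarith)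
      have q2 : (inner ℝ v l - inner ℝ w₁ l : ℝ) * (inner ℝ w₂ g' - 1) ≤ 0 :=
        mul_nonpos_of_nonneg_of_nonpos p2.le (by linarith)
      have r1 : (inner ℝ w₂ l - inner ℝ v l : ℝ) * (inner ℝ w₁ g' - 1) = 0 := by linarith
      have r2 : (inner ℝ v l - inner ℝ w₁ l : ℝ) * (inner ℝ w₂ g' - 1) = 0 := by linarith
      have s1 : inner ℝ w₁ g' = (1 : ℝ) := by
        rcases mul_eq_zero.1 r1 with h' | h'
        · linarith
        · linarith
      have s2 : inner ℝ w₂ g' = (1 : ℝ) := by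
        rcases mul_eq_zero.1 r2 with h' | h'
        · linarith
        · linarith
      exact hA3 V F h g hgF g' hgF' hne.symm v hv w₁ hF.e₁.hw w₂ hF.e₂.hw hF.e₁.hvw hF.hw
        hF.e₂.hvw hvg hvg' hF.e₁.wf s1 hF.e₂.wf s2
  · rintro ⟨d, hdl, hdg, hd⟩
    obtain ⟨w₁, w₂, g₁, g₂, hF⟩ := hA5 V F h v hv g hgF hvg
    have m1 : g₁ ∈ star F v := mem_star'.2 ⟨hF.e₁.hg, hF.e₁.vg⟩
    have m2 : g₂ ∈ star F v := mem_star'.2 ⟨hF.e₂.hg, hF.e₂.vg⟩
    have d1 := hd g₁ m1 hF.e₁.hfg.symm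
    have d2 := hd g₂ m2 hF.e₂.hfg.symm
    obtain ⟨a, b, ha, hb, hab⟩ := hF.cone (v + d) (by rw [inner_add_left, hvg, hdg, add_zero])
      (by rw [inner_add_left, hF.e₁.vg]; linarith) (by rw [inner_add_left, hF.e₂.vg]; linarith)
    rw [add_sub_cancel_left] at hab
    have ha0 : a ≠ 0 := by
      rintro rfl
      rw [zero_smul, zero_add] at hab
      rw [hab, real_inner_smul_left, inner_sub_left, hF.e₂.wg, hF.e₂.vg] at d2
      linarith
    have hb0 : b ≠ 0 := by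
      rintro rfl
      rw [zero_smul, add_zero] at hab
      rw [hab, real_inner_smul_left, inner_sub_left, hF.e₁.wg, hF.e₁.vg] at d1
      linarith
    have hap : 0 < a := lt_of_le_of_ne ha (Ne.symm ha0)
    have hbp : 0 < b := lt_of_le_of_ne hb (Ne.symm hb0)
    rw [hab, inner_add_left, real_inner_smul_left, real_inner_smul_left, inner_sub_left,
      inner_sub_left] at hdl
    have n1 := hinj v hv w₁ hF.e₁.hw hF.e₁.hvw
    rcases lt_or_gt_of_ne n1 with hlt | hgt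
    · -- `w₁` is above
      refine ⟨w₂, w₁, g₂, g₁, hF.symm, ?_, hlt⟩
      by_contra hcon
      have : 0 < a * (inner ℝ w₁ l - inner ℝ v l : ℝ) := mul_pos hap (by linarith)
      have : 0 ≤ b * (inner ℝ w₂ l - inner ℝ v l : ℝ) := mul_nonneg hb (by linarith)
      linarith
    · refine ⟨w₁, w₂, g₁, g₂, hF, hgt, ?_⟩
      by_contra hcon
      have : 0 < a * (inner ℝ v l - inner ℝ w₁ l : ℝ) := mul_pos hap (by linarith)
      have : 0 ≤ b * (inner ℝ v l - inner ℝ w₂ l : ℝ) := mul_nonneg hb (by linarith)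
      nlinarith

end Pool.Agent.Lib.MP_af06f6_co
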