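import Mathlib
import Pool.Agent.Lib.MP_af06f6_co.G.Stm2

open Set Metric

namespace Pool.Agent.Lib.MP_af06f6_co

theorem a10c_eps (p q : ℝ) (h : p < q) : ∃ ε : ℝ, 0 < ε ∧ ε < 1 ∧ p < (1 - ε) * q := by
  refine ⟨min (1/2) ((q - p) / (2 * (|q| + 1))), ?_, ?_, ?_⟩
  · apply lt_min (by norm_num)
    apply div_pos (by linarith)
    positivity
  · exact lt_of_le_of_lt (min_le_left _ _) (by norm_num)
  · have h1 : min (1/2) ((q - p) / (2 * (|q| + 1))) ≤ (q - p) / (2 * (|q| + 1)) := min_le_right _ _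
    have h2 : 0 < min (1/2) ((q - p) / (2 * (|q| + 1))) := by
      apply lt_min (by norm_num)
      apply div_pos (by linarith)
      positivity
    set ε := min (1/2) ((q - p) / (2 * (|q| + 1))) with hε
    have h3 : ε * (2 * (|q| + 1)) ≤ q - p := by
      rwa [le_div_iff₀ (by positivity)] at h1
    have h4 : q ≤ |q| := le_abs_self q
    nlinarith

/-- a point of the open polytope strictly above the level `c`, if a vertex is strictly above -/
theorem a10c_pt (V F : Finset E3) (h : DP V F) (l : E3) (c : ℝ) (w : E3) (hw : w ∈ V)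
    (hc : c < inner ℝ w l) : ∃ x : E3, c < inner ℝ x l ∧ ∀ g ∈ F, inner ℝ x g < (1 : ℝ) := by
  obtain ⟨ε, h0, h1, h2⟩ := a10c_eps c (inner ℝ w l) hc
  refine ⟨(1 - ε) • w, ?_, fun g hg => ?_⟩
  · rw [real_inner_smul_left]
    exact h2
  · rw [real_inner_smul_left]
    have h3 := (h.polV w).1 (subset_convexHull ℝ _ hw) g hg
    nlinarith

theorem pf_A10c : Stm_A10c := by
  intro V F h l v hv ⟨w', hw', hlt'⟩ ⟨w, hw, hlt⟩
  obtain ⟨x, hx, hxF⟩ := a10c_pt V F h l (inner ℝ v l) w hw hlt
  obtain ⟨y, hy, hyF⟩ := a10c_pt V F h (-l) (inner ℝ v (-l)) w' hw' (by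
    rw [inner_neg_right, inner_neg_right]; linarith)
  rw [inner_neg_right, inner_neg_right] at hy
  have hy' : inner ℝ y l < (inner ℝ v l : ℝ) := by linarith
  set p : ℝ := inner ℝ x l - inner ℝ v l with hp
  set q : ℝ := inner ℝ v l - inner ℝ y l with hq
  have hp0 : 0 < p := by rw [hp]; linarith
  have hq0 : 0 < q := by rw [hq]; linarith
  have hpq : p + q ≠ 0 := by positivity
  refine ⟨(q / (p + q)) • x + (p / (p + q)) • y - v, ?_, fun g hg hvg => ?_⟩
  · rw [inner_sub_left, inner_add_left, real_inner_smul_left, real_inner_smul_left]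
    have h1 : inner ℝ x l = p + (inner ℝ v l : ℝ) := by rw [hp]; ring
    have h2 : inner ℝ y l = (inner ℝ v l : ℝ) - q := by rw [hq]; ring
    rw [h1, h2]
    field_simp
    ring
  · rw [inner_sub_left, inner_add_left, real_inner_smul_left, real_inner_smul_left, hvg]
    have h1 := hxF g hg
    have h2 := hyF g hg
    have h3 : 0 < q / (p + q) := by positivity
    have h4 : 0 < p / (p + q) := by positivity
    have h5 : q / (p + q) + p / (p + q) = 1 := by field_simp; ring
    nlinarith

end Pool.Agent.Lib.MP_af06f6_co
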