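import Mathlib
import Pool.Agent.Lib.MP_af06f6_co.G.Swap

open Set Metric

namespace Pool.Agent.Lib.MP_af06f6_co

open Classical in
/-- double counting of the up-down flags -/
theorem a11_double (V F : Finset E3) (l : E3) :
    ∑ f ∈ F, ((star V f).filter (fun v => UD V F l v f)).card =
      ∑ v ∈ V, ((star F v).filter (fun f => UD V F l v f)).card := by
  have e1 : ∀ f ∈ F, ((star V f).filter (fun v => UD V F l v f)).card =
      ∑ v ∈ V, if (inner ℝ v f = (1 : ℝ) ∧ UD V F l v f) then 1 else 0 := by
    intro f _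
    rw [Finset.card_eq_sum_ones]
    unfold star
    rw [Finset.filter_filter, Finset.sum_filter]
  have e2 : ∀ v ∈ V, ((star F v).filter (fun f => UD V F l v f)).card =
      ∑ f ∈ F, if (inner ℝ v f = (1 : ℝ) ∧ UD V F l v f) then 1 else 0 := by
    intro v _
    rw [Finset.card_eq_sum_ones]
    unfold star
    rw [Finset.filter_filter, Finset.sum_filter]
    apply Finset.sum_congr rfl
    intro f _
    rw [real_inner_comm]
  rw [Finset.sum_congr rfl e1, Finset.sum_congr rfl e2, Finset.sum_comm]

theorem pf_A11 (hA4 : Stm_A4) (hA8 : Stm_A8) (hA9 : Stm_A9) (hA10 : Stm_A10) : Stm_A11 := by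
  classical
  intro V F h
  obtain ⟨l, hinj, hgen⟩ := hA8 V F
  -- at least three vertices
  obtain ⟨f0, hf0⟩ := h.neF
  have h3 : 3 ≤ (star V f0).card := hA4 F V h.swap f0 hf0
  have h3V : 3 ≤ V.card := le_trans h3 (Finset.card_le_card (by unfold star; exact Finset.filter_subset _ _))
  obtain ⟨t, ht, htmax⟩ := Finset.exists_max_image V (fun v => (inner ℝ v l : ℝ)) h.neV
  obtain ⟨b, hb, hbmin⟩ := Finset.exists_min_image V (fun v => (inner ℝ v l : ℝ)) h.neV
  have htlt : ∀ w ∈ V, w ≠ t → inner ℝ w l < (inner ℝ t l : ℝ) := by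
    intro w hw hwt
    exact lt_of_le_of_ne (htmax w hw) (hinj w hw t ht hwt)
  have hblt : ∀ w ∈ V, w ≠ b → (inner ℝ b l : ℝ) < inner ℝ w l := by
    intro w hw hwb
    exact lt_of_le_of_ne (hbmin w hw) (hinj b hb w hw hwb.symm)
  have htb : t ≠ b := by
    intro heq
    have : ∀ w ∈ V, w = t := by
      intro w hw
      by_contra hne
      have h1 := htlt w hw hne
      have h2 := hblt w hw (heq ▸ hne)
      rw [heq] at h1
      linarith
    have : V.card ≤ 1 := Finset.card_le_one.2 (fun x hx y hy => by rw [this x hx, this y hy])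
    omega
  have hcount : ∑ v ∈ V, ((star F v).filter (fun f => UD V F l v f)).card + 4 = 2 * V.card := by
    have hbV : b ∈ V.erase t := Finset.mem_erase.2 ⟨htb.symm, hb⟩
    rw [← Finset.add_sum_erase V _ ht, ← Finset.add_sum_erase (V.erase t) _ hbV]
    have c1 := (hA10 V F h l hinj hgen t ht).1 htlt
    have c2 := (hA10 V F h l hinj hgen b hb).2.1 hblt
    have c3 : ∑ v ∈ (V.erase t).erase b, ((star F v).filter (fun f => UD V F l v f)).card =
        ∑ v ∈ (V.erase t).erase b, 2 := by
      apply Finset.sum_congr rfl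
      intro v hv
      have hvb : v ≠ b := (Finset.mem_erase.1 hv).1
      have hv' := (Finset.mem_erase.1 hv).2
      have hvt : v ≠ t := (Finset.mem_erase.1 hv').1
      have hvV : v ∈ V := (Finset.mem_erase.1 hv').2
      exact (hA10 V F h l hinj hgen v hvV).2.2 ⟨b, hb, hblt v hvV hvb⟩ ⟨t, ht, htlt v hvV hvt⟩
    rw [c1, c2, c3, Finset.sum_const, smul_eq_mul, Finset.card_erase_of_mem hbV,
      Finset.card_erase_of_mem ht]
    omega
  have hfaces : ∑ f ∈ F, ((star V f).filter (fun v => UD V F l v f)).card + 2 * F.card =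
      nflags V F := by
    rw [nflags_eq_sum_star, mul_comm, ← smul_eq_mul, ← Finset.sum_const, ← Finset.sum_add_distrib]
    exact Finset.sum_congr rfl (fun f hf => hA9 V F h l hinj f hf)
  rw [a11_double] at hfaces
  omega

end Pool.Agent.Lib.MP_af06f6_co
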