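import Mathlib
import Pool.Agent.Lib.MP_af06f6_co.G.Swap

open Set Metric

namespace Pool.Agent.Lib.MP_af06f6_co

theorem a2_eps (F : Finset E3) (s t : E3 → ℝ) (h0 : ∀ f ∈ F, 0 ≤ s f)
    (h : ∀ f ∈ F, t f ≠ 0 → 0 < s f) : ∃ ε : ℝ, 0 < ε ∧ ∀ f ∈ F, ε * |t f| ≤ s f := by
  classical
  induction F using Finset.induction_on with
  | empty => exact ⟨1, one_pos, fun f hf => by simp at hf⟩
  | insert a F ha ih =>
    obtain ⟨ε, hε, h1⟩ := ih (fun f hf => h0 f (Finset.mem_insert_of_mem hf))
      (fun f hf => h f (Finset.mem_insert_of_mem hf))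
    by_cases hta : t a = 0
    · refine ⟨ε, hε, fun f hf => ?_⟩
      rcases Finset.mem_insert.1 hf with rfl | hf
      · rw [hta]
        simpa using h0 f (Finset.mem_insert_self _ _)
      · exact h1 f hf
    · have hs := h a (Finset.mem_insert_self _ _) hta
      have hta' : 0 < |t a| := abs_pos.2 hta
      refine ⟨min ε (s a / |t a|), lt_min hε (div_pos hs hta'), fun f hf => ?_⟩
      rcases Finset.mem_insert.1 hf with rfl | hf
      · calc min ε (s f / |t f|) * |t f| ≤ (s f / |t f|) * |t f| :=
            mul_le_mul_of_nonneg_right (min_le_right _ _) (abs_nonneg _)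
          _ = s f := by field_simp
      · calc min ε (s a / |t a|) * |t f| ≤ ε * |t f| :=
            mul_le_mul_of_nonneg_right (min_le_left _ _) (abs_nonneg _)
          _ ≤ s f := h1 f hf

theorem pf_A2 : Stm_A2 := by
  intro V F h v hv d hd
  by_contra hcon
  push Not at hcon
  have hvV : v ∈ convexHull ℝ (V : Set E3) := subset_convexHull ℝ _ hv
  have hle := (h.polV v).1 hvV
  obtain ⟨ε, hε, h1⟩ := a2_eps F (fun f => 1 - inner ℝ v f) (fun f => inner ℝ d f)
    (fun f hf => by have := hle f hf; linarith)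
    (fun f hf ht => by
      have h2 := hle f hf
      rcases lt_or_eq_of_le h2 with h3 | h3
      · linarith
      · exact absurd (hcon f hf h3) ht)
  have hp : v + ε • d ∈ convexHull ℝ (V : Set E3) := by
    rw [h.polV]
    intro f hf
    have h2 := h1 f hf
    rw [inner_add_left, real_inner_smul_left]
    have h3 := le_abs_self (inner ℝ d f)
    nlinarith
  have hm : v - ε • d ∈ convexHull ℝ (V : Set E3) := by
    rw [h.polV]
    intro f hf
    have h2 := h1 f hf
    rw [inner_sub_left, real_inner_smul_left]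
    have h3 := neg_abs_le (inner ℝ d f)
    nlinarith
  have hop : v ∈ openSegment ℝ (v + ε • d) (v - ε • d) := by
    refine ⟨1/2, 1/2, by norm_num, by norm_num, by norm_num, ?_⟩
    module
  have h5 := ((mem_extremePoints).1 (h.extV v hv)).2 _ hp _ hm hop
  have h6 : ε • d = 0 := by
    have := h5.1
    simpa using this
  rcases smul_eq_zero.1 h6 with h7 | h7
  · exact hε.ne' h7
  · exact hd h7

end Pool.Agent.Lib.MP_af06f6_co
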