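import Mathlib
import Pool.Agent.Lib.MP_af06f6_co.G.Swap

open Set Metric

namespace Pool.Agent.Lib.MP_af06f6_co

theorem a3_par (f g u v w : E3) (hfg : f ≠ g) (huv : u ≠ v)
    (h1 : inner ℝ u f = (1 : ℝ)) (h2 : inner ℝ u g = (1 : ℝ)) (h3 : inner ℝ v f = (1 : ℝ))
    (h4 : inner ℝ v g = (1 : ℝ)) (h5 : inner ℝ w f = (1 : ℝ)) (h6 : inner ℝ w g = (1 : ℝ)) :
    ∃ c : ℝ, w - u = c • (v - u) := by
  have hli : LinearIndependent ℝ ![f, g] := by
    rw [LinearIndependent.pair_iff]
    intro s t hst
    have h7 : inner ℝ u (s • f + t • g) = (0 : ℝ) := by rw [hst, inner_zero_right]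
    rw [inner_add_right, real_inner_smul_right, real_inner_smul_right, h1, h2] at h7
    have ht : t = -s := by linarith
    subst ht
    have h8 : s • (f - g) = 0 := by rw [← hst]; module
    rcases smul_eq_zero.1 h8 with h9 | h9
    · exact ⟨h9, by rw [h9, neg_zero]⟩
    · exact absurd (sub_eq_zero.1 h9) hfg
  set K : Submodule ℝ E3 := Submodule.span ℝ (Set.range ![f, g]) with hK
  have hKr : Module.finrank ℝ K = 2 := by
    have := finrank_span_eq_card hli
    simpa using this
  have hKo : Module.finrank ℝ Kᗮ = 1 := by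
    have := Submodule.finrank_add_finrank_orthogonal K
    rw [hKr] at this
    have h3 : Module.finrank ℝ E3 = 3 := by simp [E3]
    rw [h3] at this
    omega
  have hmem : ∀ x : E3, inner ℝ x f = (1 : ℝ) → inner ℝ x g = (1 : ℝ) → x - u ∈ Kᗮ := by
    intro x hxf hxg
    rw [Submodule.mem_orthogonal]
    intro y hy
    induction hy using Submodule.span_induction with
    | mem y hy =>
      rcases hy with ⟨i, rfl⟩
      fin_cases i
      · simp only [Fin.zero_eta, Matrix.cons_val_zero]
        rw [real_inner_comm, inner_sub_left, hxf, h1, sub_self]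
      · simp only [Fin.mk_one, Matrix.cons_val_one]
        change inner ℝ g (x - u) = 0
        rw [real_inner_comm, inner_sub_left, hxg, h2, sub_self]
    | zero => exact inner_zero_left _
    | add a b _ _ ha hb => rw [inner_add_left, ha, hb, add_zero]
    | smul c a _ ha => rw [real_inner_smul_left, ha, mul_zero]
  have hvK := hmem v h3 h4
  have hwK := hmem w h5 h6
  have hne : (⟨v - u, hvK⟩ : Kᗮ) ≠ 0 := by
    intro h0
    have : v - u = 0 := congrArg Subtype.val h0
    exact huv (sub_eq_zero.1 this).symm
  obtain ⟨c, hc⟩ := (finrank_eq_one_iff_of_nonzero' _ hne).1 hKo ⟨w - u, hwK⟩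
  exact ⟨c, (congrArg Subtype.val hc).symm⟩

theorem pf_A3 : Stm_A3 := by
  intro V F h f hf g hg hfg u hu v hv w hw huv hvw huw h1 h2 h3 h4 h5 h6
  obtain ⟨c, hc⟩ := a3_par f g u v w hfg huv h1 h2 h3 h4 h5 h6
  have hmem : ∀ x ∈ V, x ∈ convexHull ℝ (V : Set E3) := fun x hx => subset_convexHull ℝ _ hx
  have hc0 : c ≠ 0 := by
    rintro rfl
    rw [zero_smul] at hc
    exact huw (sub_eq_zero.1 hc).symm
  have hc1 : c ≠ 1 := by
    rintro rfl
    rw [one_smul] at hc
    exact hvw (sub_left_injective hc).symm
  have hw' : w = u + c • (v - u) := by rw [← hc]; abel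
  rcases lt_trichotomy c 0 with hneg | h0 | hpos
  · -- u between v and w
    have hop : u ∈ openSegment ℝ v w := by
      refine ⟨(-c) / (1 - c), 1 / (1 - c), div_pos (by linarith) (by linarith),
        div_pos one_pos (by linarith), ?_, ?_⟩
      · have : (1 : ℝ) - c ≠ 0 := by linarith
        field_simp
        ring
      · have h7 : (1 : ℝ) - c ≠ 0 := by linarith
        rw [hw']
        match_scalars
        · field_simp
          ring
        · field_simp
          ring
    have h5 := ((mem_extremePoints).1 (h.extV u hu)).2 _ (hmem v hv) _ (hmem w hw) hop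
    exact huv h5.1.symm
  · exact hc0 h0
  · rcases lt_or_gt_of_ne hc1 with hlt | hgt
    · have hop : w ∈ openSegment ℝ u v := by
        refine ⟨1 - c, c, by linarith, hpos, by ring, ?_⟩
        rw [hw']
        module
      have h5 := ((mem_extremePoints).1 (h.extV w hw)).2 _ (hmem u hu) _ (hmem v hv) hop
      exact huw h5.1
    · have hop : v ∈ openSegment ℝ u w := by
        refine ⟨1 - 1 / c, 1 / c, ?_, by positivity, by ring, ?_⟩
        · rw [sub_pos, div_lt_one hpos]
          exact hgt
        · rw [hw']
          match_scalars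
          · field_simp
            ring
          · field_simp
      have h5 := ((mem_extremePoints).1 (h.extV v hv)).2 _ (hmem u hu) _ (hmem w hw) hop
      exact huv h5.1

end Pool.Agent.Lib.MP_af06f6_co
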