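import Mathlib
import Pool.Agent.Lib.MP_af06f6_co.G.Swap

open Set Metric

namespace Pool.Agent.Lib.MP_af06f6_co

theorem pf_A4 (hA2 : Stm_A2) : Stm_A4 := by
  intro V F h v hv
  by_contra hcon
  have hcard : (star F v).card ≤ 2 := by omega
  set K : Submodule ℝ E3 := Submodule.span ℝ ((star F v : Finset E3) : Set E3) with hK
  have hKr : Module.finrank ℝ K ≤ 2 := (finrank_span_finset_le_card (star F v)).trans hcard
  have hKo : 0 < Module.finrank ℝ Kᗮ := by
    have := Submodule.finrank_add_finrank_orthogonal K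
    have h3 : Module.finrank ℝ E3 = 3 := by simp [E3]
    rw [h3] at this
    omega
  have hne : Kᗮ ≠ ⊥ := by
    intro h0
    rw [h0] at hKo
    simp at hKo
  obtain ⟨d, hd, hd0⟩ := Submodule.exists_mem_ne_zero_of_ne_bot hne
  obtain ⟨f, hf, h1, h2⟩ := hA2 V F h v hv d hd0
  apply h2
  have hfs : f ∈ star F v := mem_star'.2 ⟨hf, h1⟩
  have h3 := (Submodule.mem_orthogonal K d).1 hd f (Submodule.subset_span hfs)
  rw [real_inner_comm]
  exact h3

end Pool.Agent.Lib.MP_af06f6_co
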