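import Mathlib
import Pool.Agent.Lib.MP_af06f6_co.G.Stm2

open Set Metric

namespace Pool.Agent.Lib.MP_af06f6_co

/-- no three collinear elements of `V` -/
private theorem a5_col {V F : Finset E3} (h : DP V F) {v w w' : E3} (hv : v ∈ V) (hw : w ∈ V)
    (hw' : w' ∈ V) (hww' : w ≠ w') (c : ℝ) (hc : 0 < c)
    (he : w' - v = c • (w - v)) : False := by
  have hmem : ∀ x ∈ V, x ∈ convexHull ℝ (V : Set E3) := fun x hx => subset_convexHull ℝ _ hx
  have hw'e : w' = v + c • (w - v) := by rw [← he]; abel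
  have hc1 : c ≠ 1 := by
    rintro rfl
    rw [one_smul] at hw'e
    exact hww' (by rw [hw'e]; abel)
  rcases lt_or_gt_of_ne hc1 with hlt | hgt
  · have hop : w' ∈ openSegment ℝ v w := by
      refine ⟨1 - c, c, by linarith, hc, by ring, ?_⟩
      rw [hw'e]
      module
    have h5 := ((mem_extremePoints).1 (h.extV w' hw')).2 _ (hmem v hv) _ (hmem w hw) hop
    exact hww' h5.2
  · have hop : w ∈ openSegment ℝ v w' := by
      refine ⟨1 - 1 / c, 1 / c, ?_, by positivity, by ring, ?_⟩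
      · rw [sub_pos, div_lt_one hc]
        exact hgt
      · rw [hw'e]
        match_scalars
        · field_simp
          ring
        · field_simp
    have h5 := ((mem_extremePoints).1 (h.extV w hw)).2 _ (hmem v hv) _ (hmem w' hw') hop
    exact hww' h5.2.symm

private theorem a5_plane (f d₁ d₂ x : E3) (hf : f ≠ 0) (h1 : inner ℝ d₁ f = (0 : ℝ))
    (h2 : inner ℝ d₂ f = (0 : ℝ)) (hx : inner ℝ x f = (0 : ℝ))
    (hli : LinearIndependent ℝ ![d₁, d₂]) : ∃ a b : ℝ, x = a • d₁ + b • d₂ := by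
  set K : Submodule ℝ E3 := (Submodule.span ℝ {f})ᗮ with hK
  have hKr : Module.finrank ℝ K = 2 := by
    have h3 : Module.finrank ℝ (Submodule.span ℝ {f}) + Module.finrank ℝ K = Module.finrank ℝ E3 :=
      Submodule.finrank_add_finrank_orthogonal _
    have h5 : Module.finrank ℝ (Submodule.span ℝ {f}) = 1 := finrank_span_singleton hf
    have h4 : Module.finrank ℝ E3 = 3 := by simp [E3]
    rw [h4, h5] at h3
    omega
  have hmem : ∀ y : E3, inner ℝ y f = (0 : ℝ) → y ∈ K := by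
    intro y hy
    rw [hK, Submodule.mem_orthogonal_singleton_iff_inner_left]
    exact hy
  set S : Submodule ℝ E3 := Submodule.span ℝ (Set.range ![d₁, d₂]) with hS
  have hSr : Module.finrank ℝ S = 2 := by
    have := finrank_span_eq_card hli
    simpa using this
  have hle : S ≤ K := by
    rw [hS, Submodule.span_le]
    rintro y ⟨i, rfl⟩
    fin_cases i
    · exact hmem _ h1
    · exact hmem _ h2
  have heq : S = K := Submodule.eq_of_le_of_finrank_eq hle (by rw [hSr, hKr])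
  have hxS : x ∈ S := by rw [heq]; exact hmem x hx
  rw [hS, Matrix.range_cons, Matrix.range_cons, Matrix.range_empty, Set.union_empty,
    Set.singleton_union, Submodule.mem_span_pair] at hxS
  obtain ⟨a, b, hab⟩ := hxS
  exact ⟨a, b, hab.symm⟩

theorem pf_A5 (hA2 : Stm_A2) (hA3 : Stm_A3) (hA4 : Stm_A4) (hA5a : Stm_A5a) (hA5b : Stm_A5b) :
    Stm_A5 := by
  classical
  intro V F h v hv f hf hvf
  have hle : ∀ w ∈ V, ∀ g ∈ F, inner ℝ w g ≤ (1 : ℝ) := fun w hw g hg =>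
    (h.polV w).1 (subset_convexHull ℝ _ hw) g hg
  have hf0 : f ≠ 0 := by
    rintro rfl
    rw [inner_zero_right] at hvf
    norm_num at hvf
  -- the set of directions
  set D : Finset E3 := ((star V f).erase v).image (fun w => w - v) with hD
  have hDmem : ∀ d ∈ D, ∃ w ∈ V, inner ℝ w f = (1 : ℝ) ∧ w ≠ v ∧ w - v = d := by
    intro d hd
    rw [hD, Finset.mem_image] at hd
    obtain ⟨w, hw, rfl⟩ := hd
    rw [Finset.mem_erase, mem_star] at hw
    exact ⟨w, hw.2.1, hw.2.2, hw.1, rfl⟩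
  have hDmem' : ∀ w ∈ V, inner ℝ w f = (1 : ℝ) → w ≠ v → w - v ∈ D := by
    intro w hw hwf hwv
    rw [hD, Finset.mem_image]
    exact ⟨w, by rw [Finset.mem_erase, mem_star]; exact ⟨hwv, hw, hwf⟩, rfl⟩
  have hDcard : 2 ≤ D.card := by
    have h3 : 3 ≤ (star V f).card := hA4 F V h.swap f hf
    rw [hD, Finset.card_image_of_injective _ (fun a b hab => by simpa using hab),
      Finset.card_erase_of_mem (mem_star.2 ⟨hv, hvf⟩)]
    omega
  set l : E3 := -∑ g ∈ star F v, g with hl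
  have hdl : ∀ d ∈ D, (0 : ℝ) < inner ℝ d l := by
    intro d hd
    obtain ⟨w, hw, hwf, hwv, rfl⟩ := hDmem d hd
    rw [hl, inner_neg_right, inner_sum, neg_pos]
    obtain ⟨g₀, hg₀, hvg₀, hne⟩ := hA2 V F h v hv (w - v) (sub_ne_zero.2 hwv)
    apply Finset.sum_neg' (s := star F v)
    · intro g hg
      rw [mem_star'] at hg
      rw [inner_sub_left, hg.2]
      linarith [hle w hw g hg.1]
    · refine ⟨g₀, mem_star'.2 ⟨hg₀, hvg₀⟩, ?_⟩
      apply lt_of_le_of_ne _ hne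
      rw [inner_sub_left, hvg₀]
      linarith [hle w hw g₀ hg₀]
  have hli : ∀ d ∈ D, ∀ d' ∈ D, d ≠ d' → LinearIndependent ℝ ![d, d'] := by
    intro d hd d' hd' hdd'
    obtain ⟨w, hw, hwf, hwv, rfl⟩ := hDmem d hd
    obtain ⟨w', hw', hwf', hwv', rfl⟩ := hDmem d' hd'
    have hd0 := hdl _ hd
    have hd0' := hdl _ hd'
    rw [LinearIndependent.pair_iff' (sub_ne_zero.2 hwv)]
    intro c hc
    have hc0 : 0 < c := by
      rw [← hc, real_inner_smul_left] at hd0'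
      by_contra hcn
      have := mul_nonpos_of_nonpos_of_nonneg (not_lt.1 hcn) hd0.le
      linarith
    exact a5_col h hv hw hw' (fun he => hdd' (by rw [he])) c hc0 hc.symm
  obtain ⟨d₁, hd₁, d₂, hd₂, hd₁₂, hcomb, ⟨n₁, hn₁f, hn₁d, hn₁⟩, ⟨n₂, hn₂f, hn₂d, hn₂⟩⟩ :=
    hA5a D f l hf0 (by
      intro d hd
      obtain ⟨w, hw, hwf, hwv, rfl⟩ := hDmem d hd
      rw [inner_sub_left, hwf, hvf, sub_self]) hdl hli hDcard
  obtain ⟨w₁, hw₁, hw₁f, hw₁v, rfl⟩ := hDmem d₁ hd₁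
  obtain ⟨w₂, hw₂, hw₂f, hw₂v, rfl⟩ := hDmem d₂ hd₂
  have hw₁₂ : w₁ ≠ w₂ := fun he => hd₁₂ (by rw [he])
  have hn₁0 : n₁ ≠ 0 := by
    rintro rfl
    have := hn₁ _ hd₂ hd₁₂.symm
    rw [inner_zero_right] at this
    exact lt_irrefl _ this
  have hn₂0 : n₂ ≠ 0 := by
    rintro rfl
    have := hn₂ _ hd₁ hd₁₂
    rw [inner_zero_right] at this
    exact lt_irrefl _ this
  obtain ⟨g₁, hg₁, hg₁f, hvg₁, hw₁g₁⟩ := hA5b V F h v hv f hf hvf w₁ hw₁ hw₁f n₁ hn₁0 hn₁f hn₁d (by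
    intro w hw hwf
    by_cases hwv : w = v
    · rw [hwv, sub_self, inner_zero_left]
    by_cases hww₁ : w = w₁
    · rw [hww₁, hn₁d]
    · exact (hn₁ _ (hDmem' w hw hwf hwv) (fun he => hww₁ (sub_left_injective he))).le)
  obtain ⟨g₂, hg₂, hg₂f, hvg₂, hw₂g₂⟩ := hA5b V F h v hv f hf hvf w₂ hw₂ hw₂f n₂ hn₂0 hn₂f hn₂d (by
    intro w hw hwf
    by_cases hwv : w = v
    · rw [hwv, sub_self, inner_zero_left]
    by_cases hww₂ : w = w₂
    · rw [hww₂, hn₂d]
    · exact (hn₂ _ (hDmem' w hw hwf hwv) (fun he => hww₂ (sub_left_injective he))).le)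
  -- three vertices are not on two faces
  have hno : ∀ g ∈ F, g ≠ f → inner ℝ v g = (1 : ℝ) → inner ℝ w₁ g = (1 : ℝ) →
      inner ℝ w₂ g = (1 : ℝ) → False := by
    intro g hg hgf hvg h1 h2
    exact hA3 V F h f hf g hg hgf.symm v hv w₁ hw₁ w₂ hw₂ hw₁v.symm hw₁₂ hw₂v.symm
      hvf hvg hw₁f h1 hw₂f h2
  have hlt₁ : inner ℝ w₁ g₂ < (1 : ℝ) :=
    lt_of_le_of_ne (hle _ hw₁ _ hg₂) (fun he => hno g₂ hg₂ hg₂f hvg₂ he hw₂g₂)
  have hlt₂ : inner ℝ w₂ g₁ < (1 : ℝ) :=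
    lt_of_le_of_ne (hle _ hw₂ _ hg₁) (fun he => hno g₁ hg₁ hg₁f hvg₁ hw₁g₁ he)
  have hg₁₂ : g₁ ≠ g₂ := by
    rintro rfl
    rw [hw₁g₁] at hlt₁
    exact lt_irrefl _ hlt₁
  -- two vertices are on at most two faces
  have hno' : ∀ w ∈ V, w ≠ v → inner ℝ w f = (1 : ℝ) → ∀ g ∈ F, ∀ g' ∈ F, g ≠ f → g' ≠ f →
      inner ℝ v g = (1 : ℝ) → inner ℝ w g = (1 : ℝ) → inner ℝ v g' = (1 : ℝ) →
      inner ℝ w g' = (1 : ℝ) → g = g' := by
    intro w hw hwv hwf g hg g' hg' hgf hgf' h1 h2 h3 h4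
    by_contra hne
    refine hA3 F V h.swap v hv w hw hwv.symm f hf g hg g' hg' hgf.symm hne hgf'.symm ?_ ?_ ?_ ?_ ?_ ?_
    all_goals rw [real_inner_comm]; assumption
  refine ⟨w₁, w₂, g₁, g₂, ?_, ?_, hw₁₂, hg₁₂, hlt₁, hlt₂, ?_, ?_⟩
  · exact ⟨hv, hw₁, hf, hg₁, hw₁v.symm, hg₁f.symm, hvf, hvg₁, hw₁f, hw₁g₁⟩
  · exact ⟨hv, hw₂, hf, hg₂, hw₂v.symm, hg₂f.symm, hvf, hvg₂, hw₂f, hw₂g₂⟩
  · intro w g hE
    by_cases h1 : w = w₁
    · left
      refine ⟨h1, ?_⟩
      subst h1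
      exact hno' w hw₁ hw₁v hw₁f g hE.hg g₁ hg₁ hE.hfg.symm hg₁f hE.vg hE.wg hvg₁ hw₁g₁
    by_cases h2 : w = w₂
    · right
      refine ⟨h2, ?_⟩
      subst h2
      exact hno' w hw₂ hw₂v hw₂f g hE.hg g₂ hg₂ hE.hfg.symm hg₂f hE.vg hE.wg hvg₂ hw₂g₂
    exfalso
    obtain ⟨a, b, ha, hb, hab⟩ := hcomb (w - v) (hDmem' w hE.hw hE.wf hE.hvw.symm)
      (fun he => h1 (sub_left_injective he)) (fun he => h2 (sub_left_injective he))
    have h3 : inner ℝ (w - v) g = (0 : ℝ) := by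
      rw [inner_sub_left, hE.wg, hE.vg, sub_self]
    rw [hab, inner_add_left, real_inner_smul_left, real_inner_smul_left, inner_sub_left,
      inner_sub_left, hE.vg] at h3
    have h4 := hle w₁ hw₁ g hE.hg
    have h5 := hle w₂ hw₂ g hE.hg
    have h6 : a * (inner ℝ w₁ g - 1) ≤ 0 := mul_nonpos_of_nonneg_of_nonpos ha.le (by linarith)
    have h7 : b * (inner ℝ w₂ g - 1) ≤ 0 := mul_nonpos_of_nonneg_of_nonpos hb.le (by linarith)
    have h8 : a * (inner ℝ w₁ g - 1) = 0 := by linarith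
    have h9 : b * (inner ℝ w₂ g - 1) = 0 := by linarith
    have h10 : inner ℝ w₁ g = (1 : ℝ) := by
      rcases mul_eq_zero.1 h8 with h | h
      · exact absurd h ha.ne'
      · linarith
    have h11 : inner ℝ w₂ g = (1 : ℝ) := by
      rcases mul_eq_zero.1 h9 with h | h
      · exact absurd h hb.ne'
      · linarith
    exact hno g hE.hg hE.hfg.symm hE.vg h10 h11
  · intro x hxf hx1 hx2
    obtain ⟨a, b, hab⟩ := a5_plane f (w₁ - v) (w₂ - v) (x - v) hf0
      (by rw [inner_sub_left, hw₁f, hvf, sub_self]) (by rw [inner_sub_left, hw₂f, hvf, sub_self])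
      (by rw [inner_sub_left, hxf, hvf, sub_self]) (hli _ hd₁ _ hd₂ hd₁₂)
    refine ⟨a, b, ?_, ?_, hab⟩
    · have h3 : inner ℝ (x - v) g₂ = a * (inner ℝ w₁ g₂ - 1) := by
        rw [hab, inner_add_left, real_inner_smul_left, real_inner_smul_left, inner_sub_left,
          inner_sub_left, hvg₂, hw₂g₂]
        ring
      rw [inner_sub_left, hvg₂] at h3
      by_contra hneg
      have := mul_pos_of_neg_of_neg (not_le.1 hneg) (sub_neg.2 hlt₁)
      linarith
    · have h3 : inner ℝ (x - v) g₁ = b * (inner ℝ w₂ g₁ - 1) := by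
        rw [hab, inner_add_left, real_inner_smul_left, real_inner_smul_left, inner_sub_left,
          inner_sub_left, hvg₁, hw₁g₁]
        ring
      rw [inner_sub_left, hvg₁] at h3
      by_contra hneg
      have := mul_pos_of_neg_of_neg (not_le.1 hneg) (sub_neg.2 hlt₂)
      linarith

end Pool.Agent.Lib.MP_af06f6_co
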