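import Mathlib
import Pool.Agent.Lib.MP_af06f6_co.G.Stm2

/-!
# MP_af06f6_co, geometry part, A5a: planar cone lemma
-/

open Set Metric

namespace Pool.Agent.Lib.MP_af06f6_co

/-- an orthogonal basis starting with two given vectors -/
private lemma a5a_basis (f l : E3) (hf : f ≠ 0) (hl : l ≠ 0) (hfl : inner ℝ l f = (0 : ℝ)) :
    ∃ p : E3, inner ℝ p f = (0 : ℝ) ∧ inner ℝ p l = (0 : ℝ) ∧
      ∀ x : E3, inner ℝ x f = (0 : ℝ) → inner ℝ x l = (0 : ℝ) → inner ℝ x p = (0 : ℝ) → x = 0 := by
  have hfl' : inner ℝ f l = (0 : ℝ) := by rw [real_inner_comm]; exact hfl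
  have hlt : Module.finrank ℝ (Submodule.span ℝ ({f, l} : Set E3)) < Module.finrank ℝ E3 := by
    have h1 := finrank_span_finset_le_card (R := ℝ) ({f, l} : Finset E3)
    have h2 : ({f, l} : Finset E3).card ≤ 2 := Finset.card_le_two
    have h3 : Module.finrank ℝ E3 = 3 := by simp [E3]
    rw [Finset.coe_pair] at h1
    have h1' : Module.finrank ℝ (Submodule.span ℝ ({f, l} : Set E3)) ≤ ({f, l} : Finset E3).card := h1
    omega
  have hne : (Submodule.span ℝ ({f, l} : Set E3)) ≠ ⊤ := by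
    intro h
    rw [h, finrank_top] at hlt
    exact lt_irrefl _ hlt
  have hne' : (Submodule.span ℝ ({f, l} : Set E3))ᗮ ≠ ⊥ := by
    intro h
    exact hne ((Submodule.orthogonal_eq_bot_iff).1 h)
  obtain ⟨p, hp, hp0⟩ := Submodule.exists_mem_ne_zero_of_ne_bot hne'
  rw [Submodule.mem_orthogonal'] at hp
  have hpf : inner ℝ p f = (0 : ℝ) := hp f (Submodule.subset_span (by simp))
  have hpl : inner ℝ p l = (0 : ℝ) := hp l (Submodule.subset_span (by simp))
  refine ⟨p, hpf, hpl, ?_⟩
  intro x hxf hxl hxp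
  have hfp : inner ℝ f p = (0 : ℝ) := by rw [real_inner_comm]; exact hpf
  have hlp : inner ℝ l p = (0 : ℝ) := by rw [real_inner_comm]; exact hpl
  have hli : LinearIndependent ℝ ![f, l, p] := by
    refine linearIndependent_of_ne_zero_of_inner_eq_zero (𝕜 := ℝ) ?_ ?_
    · intro i; fin_cases i
      · exact hf
      · exact hl
      · exact hp0
    · intro i j hij
      fin_cases i <;> fin_cases j <;> simp_all
  have hspan : Submodule.span ℝ (range ![f, l, p]) = ⊤ := by
    refine hli.span_eq_top_of_card_eq_finrank ?_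
    simp [E3]
  have hx : x ∈ (Submodule.span ℝ (range ![f, l, p]))ᗮ := by
    rw [Submodule.mem_orthogonal']
    intro u hu
    induction hu using Submodule.span_induction with
    | mem u hu =>
      obtain ⟨i, rfl⟩ := hu
      fin_cases i
      · exact hxf
      · exact hxl
      · exact hxp
    | zero => exact inner_zero_right _
    | add u v _ _ h1 h2 => rw [inner_add_right, h1, h2, add_zero]
    | smul c u _ h1 => rw [inner_smul_right, h1, mul_zero]
  rw [hspan, Submodule.top_orthogonal_eq_bot] at hx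
  exact (Submodule.mem_bot ℝ).1 hx

theorem pf_A5a : Stm_A5a := by
  intro D f l hf hDf hDl hD hcard
  have hff : inner ℝ f f ≠ (0 : ℝ) := inner_self_ne_zero.2 hf
  obtain ⟨e, he, e', he', hee'⟩ := Finset.one_lt_card.1 (by omega : 1 < D.card)
  -- the component of `l` orthogonal to `f`
  obtain ⟨l', hl'f, hl'⟩ : ∃ l' : E3, inner ℝ l' f = (0 : ℝ) ∧ ∀ d ∈ D, inner ℝ d l' = (inner ℝ d l : ℝ) := by
    refine ⟨l - ((inner ℝ l f : ℝ) / (inner ℝ f f : ℝ)) • f, ?_, ?_⟩
    · rw [inner_sub_left, real_inner_smul_left]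
      field_simp
      ring
    · intro d hd
      rw [inner_sub_right, real_inner_smul_right, hDf d hd]
      ring
  have hl'0 : l' ≠ 0 := by
    intro h
    have h1 := hl' e he
    rw [h, inner_zero_right] at h1
    have h2 := hDl e he
    rw [← h1] at h2
    exact lt_irrefl _ h2
  obtain ⟨p, hpf, hpl, hbas⟩ := a5a_basis f l' hf hl'0 hl'f
  -- slopes
  set s : E3 → ℝ := fun d => (inner ℝ d p : ℝ) / (inner ℝ d l : ℝ) with hs
  have hsp : ∀ d ∈ D, (inner ℝ d p : ℝ) = s d * inner ℝ d l := by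
    intro d hd
    have := (hDl d hd).ne'
    simp only [hs]
    field_simp
  have hinj : ∀ d ∈ D, ∀ d' ∈ D, d ≠ d' → s d ≠ s d' := by
    intro d hd d' hd' hne hss
    have hy : (inner ℝ d' l : ℝ) • d - (inner ℝ d l : ℝ) • d' = 0 := by
      refine hbas _ ?_ ?_ ?_
      · rw [inner_sub_left, real_inner_smul_left, real_inner_smul_left, hDf d hd, hDf d' hd']
        ring
      · rw [inner_sub_left, real_inner_smul_left, real_inner_smul_left, hl' d hd, hl' d' hd']
        ring
      · rw [inner_sub_left, real_inner_smul_left, real_inner_smul_left, hsp d hd, hsp d' hd', hss]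
        ring
    have h := LinearIndependent.pair_iff.1 (hD d hd d' hd' hne) (inner ℝ d' l : ℝ) (-(inner ℝ d l : ℝ))
      (by rw [neg_smul, ← sub_eq_add_neg]; exact hy)
    exact (hDl d' hd').ne' h.1
  obtain ⟨d₁, hd₁, hmin⟩ := Finset.exists_min_image D s ⟨e, he⟩
  obtain ⟨d₂, hd₂, hmax⟩ := Finset.exists_max_image D s ⟨e, he⟩
  have hne12 : d₁ ≠ d₂ := by
    intro h
    have h1 : ∀ d ∈ D, s d = s d₁ := fun d hd => le_antisymm (by rw [h]; exact hmax d hd) (hmin d hd)
    exact hinj e he e' he' hee' (by rw [h1 e he, h1 e' he'])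
  have hlt1 : ∀ d ∈ D, d ≠ d₁ → s d₁ < s d := fun d hd hne =>
    lt_of_le_of_ne (hmin d hd) (hinj d₁ hd₁ d hd (Ne.symm hne))
  have hlt2 : ∀ d ∈ D, d ≠ d₂ → s d < s d₂ := fun d hd hne =>
    lt_of_le_of_ne (hmax d hd) (hinj d hd d₂ hd₂ hne)
  refine ⟨d₁, hd₁, d₂, hd₂, hne12, ?_, ?_, ?_⟩
  · intro d hd hne1 hne2
    have a1 := hlt1 d hd hne1
    have a2 := hlt2 d hd hne2
    have p0 := hDl d hd
    have p1 := hDl d₁ hd₁
    have p2 := hDl d₂ hd₂
    have hsub : s d₂ - s d₁ ≠ 0 := by linarith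
    refine ⟨(s d₂ - s d) / (s d₂ - s d₁) * inner ℝ d l / inner ℝ d₁ l,
      (s d - s d₁) / (s d₂ - s d₁) * inner ℝ d l / inner ℝ d₂ l, ?_, ?_, ?_⟩
    · have : 0 < s d₂ - s d := by linarith
      have : 0 < s d₂ - s d₁ := by linarith
      positivity
    · have : 0 < s d - s d₁ := by linarith
      have : 0 < s d₂ - s d₁ := by linarith
      positivity
    · refine sub_eq_zero.1 (hbas _ ?_ ?_ ?_)
      · rw [inner_sub_left, inner_add_left, real_inner_smul_left, real_inner_smul_left, hDf d hd, hDf d₁ hd₁, hDf d₂ hd₂]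
        ring
      · rw [inner_sub_left, inner_add_left, real_inner_smul_left, real_inner_smul_left, hl' d hd, hl' d₁ hd₁, hl' d₂ hd₂]
        field_simp
        ring
      · rw [inner_sub_left, inner_add_left, real_inner_smul_left, real_inner_smul_left, hsp d hd, hsp d₁ hd₁, hsp d₂ hd₂]
        field_simp
        ring
  · refine ⟨p - s d₁ • l', ?_, ?_, ?_⟩
    · rw [inner_sub_left, real_inner_smul_left, hpf, hl'f]
      ring
    · rw [inner_sub_right, real_inner_smul_right, hsp d₁ hd₁, hl' d₁ hd₁]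
      ring
    · intro d hd hne
      rw [inner_sub_right, real_inner_smul_right, hsp d hd, hl' d hd, ← sub_mul]
      exact mul_pos (sub_pos.2 (hlt1 d hd hne)) (hDl d hd)
  · refine ⟨s d₂ • l' - p, ?_, ?_, ?_⟩
    · rw [inner_sub_left, real_inner_smul_left, hpf, hl'f]
      ring
    · rw [inner_sub_right, real_inner_smul_right, hsp d₂ hd₂, hl' d₂ hd₂]
      ring
    · intro d hd hne
      rw [inner_sub_right, real_inner_smul_right, hsp d hd, hl' d hd, ← sub_mul]
      exact mul_pos (sub_pos.2 (hlt2 d hd hne)) (hDl d hd)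

end Pool.Agent.Lib.MP_af06f6_co
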