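import Mathlib
import Pool.Agent.Lib.MP_af06f6_co.G.Stm2

open Set Metric

namespace Pool.Agent.Lib.MP_af06f6_co

theorem a5b_eps (F : Finset E3) (s t : E3 → ℝ) (h0 : ∀ f ∈ F, 0 < s f) :
    ∃ ε : ℝ, 0 < ε ∧ ∀ f ∈ F, ε * |t f| ≤ s f := by
  classical
  induction F using Finset.induction_on with
  | empty => exact ⟨1, one_pos, fun f hf => by simp at hf⟩
  | insert a F ha ih =>
    obtain ⟨ε, hε, h1⟩ := ih (fun f hf => h0 f (Finset.mem_insert_of_mem hf))
    have hs := h0 a (Finset.mem_insert_self _ _)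
    have hta' : 0 < |t a| + 1 := by positivity
    refine ⟨min ε (s a / (|t a| + 1)), lt_min hε (div_pos hs hta'), fun f hf => ?_⟩
    rcases Finset.mem_insert.1 hf with rfl | hf
    · calc min ε (s f / (|t f| + 1)) * |t f| ≤ (s f / (|t f| + 1)) * (|t f| + 1) := by
            apply mul_le_mul (min_le_right _ _) (by linarith) (abs_nonneg _) (by positivity)
        _ = s f := by field_simp
    · calc min ε (s a / (|t a| + 1)) * |t f| ≤ ε * |t f| :=
          mul_le_mul_of_nonneg_right (min_le_left _ _) (abs_nonneg _)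
        _ ≤ s f := h1 f hf

theorem pf_A5b (hA1 : Stm_A1) : Stm_A5b := by
  classical
  intro V F h v hv f hf hvf w hw hwf n hn hnf hwn hall
  by_contra hcon
  push Not at hcon
  have hvle := (h.polV v).1 (subset_convexHull ℝ _ hv)
  have hwle := (h.polV w).1 (subset_convexHull ℝ _ hw)
  set m : E3 := (1/2 : ℝ) • v + (1/2 : ℝ) • w with hm
  have hmg : ∀ g ∈ F.erase f, 0 < 1 - inner ℝ m g := by
    intro g hg
    obtain ⟨hgf, hg⟩ := Finset.mem_erase.1 hg
    rw [hm, inner_add_left, real_inner_smul_left, real_inner_smul_left]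
    have h1 := hvle g hg
    have h2 := hwle g hg
    rcases lt_or_eq_of_le h1 with h3 | h3
    · linarith
    · have h4 := hcon g hg hgf h3
      have h5 := lt_of_le_of_ne h2 h4
      linarith
  obtain ⟨ε, hε, h1⟩ := a5b_eps (F.erase f) (fun g => 1 - inner ℝ m g) (fun g => inner ℝ n g) hmg
  have hmf : inner ℝ m f = (1 : ℝ) := by
    rw [hm, inner_add_left, real_inner_smul_left, real_inner_smul_left, hvf, hwf]
    norm_num
  have hxf : inner ℝ (m - ε • n) f = (1 : ℝ) := by
    rw [inner_sub_left, real_inner_smul_left, hnf, hmf]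
    ring
  have hx : m - ε • n ∈ convexHull ℝ (V : Set E3) := by
    rw [h.polV]
    intro g hg
    by_cases hgf : g = f
    · rw [hgf, hxf]
    · have h2 := h1 g (Finset.mem_erase.2 ⟨hgf, hg⟩)
      rw [inner_sub_left, real_inner_smul_left]
      have h3 := neg_abs_le (inner ℝ n g)
      nlinarith
  have hx2 := hA1 V f 1 _ hx (fun v' hv' => (h.polV v').1 (subset_convexHull ℝ _ hv') f hf) hxf
  have hge : ∀ y ∈ convexHull ℝ {v' : E3 | v' ∈ V ∧ inner ℝ v' f = (1 : ℝ)},
      (inner ℝ v n : ℝ) ≤ inner ℝ y n := by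
    intro y hy
    have hconv : Convex ℝ {y : E3 | (inner ℝ v n : ℝ) ≤ inner ℝ y n} := by
      intro a ha b hb s t hs ht hst
      simp only [Set.mem_setOf_eq] at ha hb ⊢
      rw [inner_add_left, real_inner_smul_left, real_inner_smul_left]
      calc (inner ℝ v n : ℝ) = s * inner ℝ v n + t * inner ℝ v n := by
            rw [← add_mul, hst, one_mul]
        _ ≤ _ := add_le_add (mul_le_mul_of_nonneg_left ha hs) (mul_le_mul_of_nonneg_left hb ht)
    refine convexHull_min ?_ hconv hy
    rintro v' ⟨hv', hv'f⟩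
    have := hall v' hv' hv'f
    rw [inner_sub_left] at this
    simp only [Set.mem_setOf_eq]
    linarith
  have h4 := hge _ hx2
  rw [inner_sub_left, real_inner_smul_left, hm, inner_add_left, real_inner_smul_left,
    real_inner_smul_left, real_inner_self_eq_norm_sq] at h4
  rw [inner_sub_left] at hwn
  have h5 : 0 < ‖n‖ := norm_pos_iff.2 hn
  have h6 : 0 < ε * ‖n‖ ^ 2 := by positivity
  linarith

end Pool.Agent.Lib.MP_af06f6_co
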