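import Mathlib
import Pool.Agent.Lib.MP_af06f6_co.G.Swap

open Set Metric

namespace Pool.Agent.Lib.MP_af06f6_co

theorem pf_A6 : Stm_A6 := by
  intro V F h v f w₁ w₂ g₁ g₂ hF l h1 h2 w hw hwf
  have hle := (h.polV w).1 (subset_convexHull ℝ _ hw)
  obtain ⟨a, b, ha, hb, hx⟩ := hF.cone w hwf (hle g₁ hF.e₁.hg) (hle g₂ hF.e₂.hg)
  have h3 : inner ℝ (w - v) l = a * (inner ℝ w₁ l - inner ℝ v l) + b * (inner ℝ w₂ l - inner ℝ v l) := by
    rw [hx, inner_add_left, real_inner_smul_left, real_inner_smul_left, inner_sub_left, inner_sub_left]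
  rw [inner_sub_left] at h3
  have h4 : a * (inner ℝ w₁ l - inner ℝ v l) ≤ 0 := mul_nonpos_of_nonneg_of_nonpos ha (by linarith)
  have h5 : b * (inner ℝ w₂ l - inner ℝ v l) ≤ 0 := mul_nonpos_of_nonneg_of_nonpos hb (by linarith)
  linarith

end Pool.Agent.Lib.MP_af06f6_co
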