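import Mathlib
import Pool.Agent.Lib.MP_af06f6_co.G.Swap

/-!
# MP_af06f6_co, piece A7: the face cycle is connected
-/

namespace Pool.Agent.Lib.MP_af06f6_co

theorem pf_A7 (hA2 : Stm_A2) (hA5 : Stm_A5) (hA6 : Stm_A6) : Stm_A7 := by
  intro V F h f hf S hS hnS
  classical
  by_contra hcon
  push Not at hcon
  -- all faces at `v` adjacent to `f` have the same type
  have H : ∀ v ∈ V, inner ℝ v f = (1 : ℝ) → ∀ g g', Adj F V f g → Adj F V f g' →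
      inner ℝ v g = (1 : ℝ) → inner ℝ v g' = (1 : ℝ) → g ∈ S → g' ∈ S := by
    intro v hv hvf g g' h1 h2 h3 h4 h5
    by_contra h6
    exact h6 (hcon v hv hvf g g' h1 h2 h3 h4 h5)
  set T : E3 → Prop := fun v => v ∈ V ∧ inner ℝ v f = (1 : ℝ) ∧
    ∃ g, Adj F V f g ∧ inner ℝ v g = (1 : ℝ) ∧ g ∈ S with hT
  have hTn : ∀ v w g, T v → E4 V F v w f g → T w := by
    intro v w g hv hE
    obtain ⟨h1, h2, g0, h3, h4, h5⟩ := hv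
    exact ⟨hE.hw, hE.wf, g, hE.adjF, hE.wg, H v h1 h2 g0 g h3 hE.adjF h4 hE.vg h5⟩
  obtain ⟨g1, hg1, hg1S⟩ := hS
  obtain ⟨v1, w1, hE1⟩ := hg1.exE4F
  have hT1 : T v1 := ⟨hE1.hv, hE1.vf, g1, hg1, hE1.vg, hg1S⟩
  obtain ⟨g0, hg0, hg0S⟩ := hnS
  obtain ⟨v0, w0, hE0⟩ := hg0.exE4F
  have hT0 : ¬ T v0 := by
    rintro ⟨h1, h2, g, h3, h4, h5⟩
    exact hg0S (H v0 h1 h2 g g0 h3 hg0 h4 hE0.vg h5)
  -- the functional
  set l : E3 := -∑ g ∈ star F v0, g with hl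
  have hinl : ∀ x : E3, inner ℝ x l = -∑ g ∈ star F v0, inner ℝ x g := by
    intro x
    rw [hl, inner_neg_right, inner_sum]
  have hmem : ∀ w ∈ V, ∀ g ∈ F, inner ℝ w g ≤ (1 : ℝ) := fun w hw =>
    (h.polV w).1 (subset_convexHull ℝ _ hw)
  have hlt : ∀ w ∈ V, w ≠ v0 → inner ℝ v0 l < (inner ℝ w l : ℝ) := by
    intro w hw hne
    rw [hinl, hinl, neg_lt_neg_iff]
    obtain ⟨g, hgF, hg1, hg2⟩ := hA2 V F h v0 hE0.hv (w - v0) (sub_ne_zero.2 hne)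
    refine Finset.sum_lt_sum (fun g hg => ?_) ⟨g, mem_star'.2 ⟨hgF, hg1⟩, ?_⟩
    · obtain ⟨h1, h2⟩ := mem_star'.1 hg
      rw [h2]
      exact hmem w hw g h1
    · rw [hg1]
      refine lt_of_le_of_ne (hmem w hw g hgF) fun h1 => hg2 ?_
      rw [inner_sub_left, h1, hg1, sub_self]
  obtain ⟨v, hvm, hvmin⟩ := (V.filter T).exists_min_image (fun v => (inner ℝ v l : ℝ))
    ⟨v1, Finset.mem_filter.2 ⟨hE1.hv, hT1⟩⟩
  obtain ⟨hvV, hTv⟩ := Finset.mem_filter.1 hvm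
  obtain ⟨w₁, w₂, g₁, g₂, hfl⟩ := hA5 V F h v hvV f hf hTv.2.1
  have hw₁ : T w₁ := hTn v w₁ g₁ hTv hfl.e₁
  have hw₂ : T w₂ := hTn v w₂ g₂ hTv hfl.e₂
  have hm₁ := hvmin w₁ (Finset.mem_filter.2 ⟨hw₁.1, hw₁⟩)
  have hm₂ := hvmin w₂ (Finset.mem_filter.2 ⟨hw₂.1, hw₂⟩)
  have hneg : ∀ x : E3, inner ℝ x (-l) = -(inner ℝ x l : ℝ) := fun x => inner_neg_right x l
  have hkey := hA6 V F h v f w₁ w₂ g₁ g₂ hfl (-l)
    (by rw [hneg, hneg]; exact neg_le_neg hm₁)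
    (by rw [hneg, hneg]; exact neg_le_neg hm₂) v0 hE0.hv hE0.vf
  rw [hneg, hneg, neg_le_neg_iff] at hkey
  have hne : v ≠ v0 := fun h1 => hT0 (h1 ▸ hTv)
  exact absurd (hlt v hvV hne) (not_lt.2 hkey)

end Pool.Agent.Lib.MP_af06f6_co
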