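import Mathlib
import Pool.Agent.Lib.MP_af06f6_co.G.Swap

open Set Metric

namespace Pool.Agent.Lib.MP_af06f6_co

theorem pf_A9 (_hA2 : Stm_A2) (hA4 : Stm_A4) (hA5 : Stm_A5) (hA6 : Stm_A6) : Stm_A9 := by
  classical
  intro V F h l hinj f hf
  have h3 : 3 ≤ (star V f).card := hA4 F V h.swap f hf
  have hne : (star V f).Nonempty := Finset.card_pos.1 (by omega)
  obtain ⟨t, ht, htmax⟩ := Finset.exists_max_image (star V f) (fun v => (inner ℝ v l : ℝ)) hne
  obtain ⟨b, hb, hbmin⟩ := Finset.exists_min_image (star V f) (fun v => (inner ℝ v l : ℝ)) hne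
  have ht' := mem_star.1 ht
  have hb' := mem_star.1 hb
  have htlt : ∀ w ∈ star V f, w ≠ t → inner ℝ w l < (inner ℝ t l : ℝ) := by
    intro w hw hwt
    exact lt_of_le_of_ne (htmax w hw) (hinj w (mem_star.1 hw).1 t ht'.1 hwt)
  have hblt : ∀ w ∈ star V f, w ≠ b → (inner ℝ b l : ℝ) < inner ℝ w l := by
    intro w hw hwb
    exact lt_of_le_of_ne (hbmin w hw) (hinj b hb'.1 w (mem_star.1 hw).1 hwb.symm)
  have htb : t ≠ b := by
    intro heq
    have hall : ∀ w ∈ star V f, w = t := by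
      intro w hw
      by_contra hne
      have h1 := htlt w hw hne
      have h2 := hblt w hw (heq ▸ hne)
      rw [heq] at h1
      linarith
    have : (star V f).card ≤ 1 :=
      Finset.card_le_one.2 (fun x hx y hy => by rw [hall x hx, hall y hy])
    omega
  have hiff : ∀ v ∈ star V f, (UD V F l v f ↔ (v ≠ b ∧ v ≠ t)) := by
    intro v hv
    have hv' := mem_star.1 hv
    constructor
    · rintro ⟨w₁, w₂, g₁, g₂, hfl, h1, h2⟩
      constructor
      · intro hvb
        have := hbmin w₁ (mem_star.2 ⟨hfl.e₁.hw, hfl.e₁.wf⟩)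
        rw [hvb] at h1
        linarith
      · intro hvt
        have := htmax w₂ (mem_star.2 ⟨hfl.e₂.hw, hfl.e₂.wf⟩)
        rw [hvt] at h2
        linarith
    · rintro ⟨hvb, hvt⟩
      obtain ⟨w₁, w₂, g₁, g₂, hfl⟩ := hA5 V F h v hv'.1 f hf hv'.2
      have hup := htlt v hv hvt
      have hlo := hblt v hv hvb
      -- not both down
      have hnd : ¬ (inner ℝ w₁ l ≤ (inner ℝ v l : ℝ) ∧ inner ℝ w₂ l ≤ (inner ℝ v l : ℝ)) := by
        rintro ⟨h1, h2⟩
        have := hA6 V F h v f w₁ w₂ g₁ g₂ hfl l h1 h2 t ht'.1 ht'.2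
        linarith
      have hnu : ¬ ((inner ℝ v l : ℝ) ≤ inner ℝ w₁ l ∧ (inner ℝ v l : ℝ) ≤ inner ℝ w₂ l) := by
        rintro ⟨h1, h2⟩
        have := hA6 V F h v f w₁ w₂ g₁ g₂ hfl (-l) (by simp only [inner_neg_right]; linarith)
          (by simp only [inner_neg_right]; linarith) b hb'.1 hb'.2
        simp only [inner_neg_right] at this
        linarith
      rcases lt_or_ge (inner ℝ w₁ l : ℝ) (inner ℝ v l) with h1 | h1
      · have h2 : (inner ℝ v l : ℝ) < inner ℝ w₂ l := by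
          by_contra hc
          exact hnd ⟨h1.le, not_lt.1 hc⟩
        exact ⟨w₁, w₂, g₁, g₂, hfl, h1, h2⟩
      · have h2 : (inner ℝ w₂ l : ℝ) < inner ℝ v l := by
          by_contra hc
          exact hnu ⟨h1, not_lt.1 hc⟩
        have h1' : (inner ℝ v l : ℝ) < inner ℝ w₁ l := by
          by_contra hc
          exact hnd ⟨not_lt.1 hc, h2.le⟩
        exact ⟨w₂, w₁, g₂, g₁, hfl.symm, h2, h1'⟩
  have hset : (star V f).filter (fun v => UD V F l v f) = ((star V f).erase t).erase b := by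
    ext v
    rw [Finset.mem_filter, Finset.mem_erase, Finset.mem_erase]
    constructor
    · rintro ⟨hv, hU⟩
      have := (hiff v hv).1 hU
      exact ⟨this.1, this.2, hv⟩
    · rintro ⟨h1, h2, hv⟩
      exact ⟨hv, (hiff v hv).2 ⟨h1, h2⟩⟩
  have hbS : b ∈ (star V f).erase t := Finset.mem_erase.2 ⟨htb.symm, hb⟩
  rw [hset, Finset.card_erase_of_mem hbS, Finset.card_erase_of_mem ht]
  omega

end Pool.Agent.Lib.MP_af06f6_co
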