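import Mathlib
import Pool.Agent.Lib.MP_af06f6_co.G.Swap

/-!
# MP_af06f6_co, piece B1: a cage of the unit ball at the origin contains the origin in its interior
-/

open Set Metric

namespace Pool.Agent.Lib.MP_af06f6_co

theorem pf_B1 : Stm_B1 := by
  intro P hP
  obtain ⟨⟨_, _, n, a, b, ha, hPab⟩, hET, hC⟩ := hP
  refine ⟨n, a, b, ?_, hPab⟩
  intro i
  by_contra hbi
  push Not at hbi
  apply hC
  have hai : 0 < ‖a i‖ := norm_pos_iff.2 (ha i)
  set u : E3 := ‖a i‖⁻¹ • a i with hu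
  have hu1 : ‖u‖ = 1 := by
    rw [hu, norm_smul, norm_inv, norm_norm, inv_mul_cancel₀ hai.ne']
  have hxu : ∀ x ∈ P, inner ℝ x u ≤ (0 : ℝ) := by
    intro x hx
    rw [hPab] at hx
    have h1 : inner ℝ (a i) x ≤ b i := hx i
    rw [hu, real_inner_smul_right, real_inner_comm]
    exact mul_nonpos_of_nonneg_of_nonpos (inv_nonneg.2 hai.le) (h1.trans hbi)
  have hdist : ∀ x ∈ P, ∀ t : ℝ, 0 ≤ t → ‖x‖ ^ 2 + t ^ 2 ≤ ‖x - t • u‖ ^ 2 := by
    intro x hx t ht
    have h1 := hxu x hx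
    rw [norm_sub_sq_real, real_inner_smul_right, norm_smul, hu1, mul_one, Real.norm_eq_abs, sq_abs]
    nlinarith [mul_nonneg ht (neg_nonneg.2 h1)]
  refine ⟨fun t => t • u, ?_, ?_, ?_, ?_⟩
  · exact (continuous_id.smul continuous_const).continuousOn
  · exact zero_smul ℝ u
  · intro t ht
    rw [Set.disjoint_left]
    rintro x hx ⟨e, he, hxe⟩
    have he' := he
    obtain ⟨p, q, _, _, hexp⟩ := he'
    have hxP : x ∈ P := hexp.subset hxe
    have h1 := hdist x hxP t ht.1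
    have h2 : 1 ≤ ‖x‖ := by
      by_contra h3
      push Not at h3
      exact Set.disjoint_left.1 (hET e he).2 hxe (by rwa [mem_ball_zero_iff])
    rw [mem_ball, dist_eq_norm] at hx
    have h3 : ‖x - t • u‖ ^ 2 < 1 := by
      have := norm_nonneg (x - t • u)
      nlinarith
    nlinarith [sq_nonneg t]
  · rw [Set.disjoint_left]
    intro x hx hxP
    have h1 := hdist x hxP 1 zero_le_one
    rw [mem_ball, dist_eq_norm] at hx
    have h3 : ‖x - (1 : ℝ) • u‖ ^ 2 < 1 := by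
      have := norm_nonneg (x - (1 : ℝ) • u)
      nlinarith
    nlinarith [sq_nonneg ‖x‖]

end Pool.Agent.Lib.MP_af06f6_co
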