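import Mathlib
import Pool.Agent.Lib.MP_af06f6_co.G.Swap

open Set Metric

namespace Pool.Agent.Lib.MP_af06f6_co

theorem pf_B10 (hB7 : Stm_B7) (hB8 : Stm_B8) (hB9 : Stm_B9) : Stm_B10 := by
  intro V F h hH
  obtain ⟨hH', hadj, htouch⟩ := hB9 V F h hH
  obtain ⟨-, hadj', -⟩ := hB9 F V h.swap hH'
  exact
    { toDP := h
      one_lt_V := fun v hv => (hB7 F V h.swap hH' v hv).1
      one_lt_F := fun f hf => (hB7 V F h hH f hf).1
      inner_V := hB8 F V h.swap hH'
      inner_F := hB8 V F h hH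
      adj_V := hadj'
      adj_F := hadj
      touch := htouch }

end Pool.Agent.Lib.MP_af06f6_co
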