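import Mathlib
import Pool.Agent.Lib.MP_af06f6_co.G.Swap

open Set Metric

namespace Pool.Agent.Lib.MP_af06f6_co

theorem pf_B11 (hB1 : Stm_B1) (hB2 : Stm_B2) (hB5 : Stm_B5) (hB6 : Stm_B6) (hB10 : Stm_B10) :
    Stm_B11 := by
  intro P hP
  obtain ⟨n, a, b, hb, hPe⟩ := hB1 P hP
  obtain ⟨V, F, hD, hPV⟩ := hB2 P n a b hP.1.1 hb hPe
  have hT : EdgeTangent (convexHull ℝ (V : Set E3)) 0 := hPV ▸ hP.2.1
  have hH := hB5 V F hD hT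
  refine ⟨V, F, hB10 V F hD hH, ?_⟩
  rw [hPV]
  exact hB6 V F hD hH

end Pool.Agent.Lib.MP_af06f6_co
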