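import Mathlib
import Pool.Agent.Lib.MP_af06f6_co.G.Stm2

/-!
# MP_af06f6_co, geometry part, piece B2: dual pair of a polytope
-/

open Set Metric

namespace Pool.Agent.Lib.MP_af06f6_co

private theorem b2_half (y : E3) : Convex ℝ {x : E3 | inner ℝ x y ≤ (1 : ℝ)} := by
  intro x hx x' hx' s t hs ht hst
  have h1 : inner ℝ x y ≤ (1 : ℝ) := hx
  have h2 : inner ℝ x' y ≤ (1 : ℝ) := hx'
  show inner ℝ (s • x + t • x') y ≤ (1 : ℝ)
  rw [inner_add_left, real_inner_smul_left, real_inner_smul_left]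
  nlinarith [mul_le_mul_of_nonneg_left h1 hs, mul_le_mul_of_nonneg_left h2 ht]

private theorem b2_hull {V : Set E3} {x y : E3} (h : ∀ v ∈ V, inner ℝ v y ≤ (1 : ℝ))
    (hx : x ∈ convexHull ℝ V) : inner ℝ x y ≤ (1 : ℝ) :=
  convexHull_min (t := {x : E3 | inner ℝ x y ≤ (1 : ℝ)}) h (b2_half y) hx

private theorem b2_hull' {V : Set E3} {x y : E3} (h : ∀ v ∈ V, inner ℝ x v ≤ (1 : ℝ))
    (hy : y ∈ convexHull ℝ V) : inner ℝ x y ≤ (1 : ℝ) := by
  rw [real_inner_comm]
  exact b2_hull (fun v hv => by rw [real_inner_comm]; exact h v hv) hy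

private theorem b2_radius (n : ℕ) (a : Fin n → E3) (b : Fin n → ℝ) (hb : ∀ i, 0 < b i) :
    ∃ r : ℝ, 0 < r ∧ ∀ x : E3, ‖x‖ ≤ r → ∀ i, inner ℝ (a i) x ≤ b i := by
  have h1 : ∃ r : ℝ, 0 < r ∧ ∀ i, r * ‖a i‖ ≤ b i := by
    rcases isEmpty_or_nonempty (Fin n) with h | h
    · exact ⟨1, one_pos, fun i => (h.false i).elim⟩
    · obtain ⟨i0, hi0⟩ := Finite.exists_min (fun i => b i / (‖a i‖ + 1))
      refine ⟨b i0 / (‖a i0‖ + 1), div_pos (hb i0) (by positivity), fun i => ?_⟩
      have h2 := hi0 i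
      rw [le_div_iff₀ (by positivity)] at h2
      have h3 : 0 < b i0 / (‖a i0‖ + 1) := div_pos (hb i0) (by positivity)
      nlinarith [norm_nonneg (a i)]
  obtain ⟨r, hr, h⟩ := h1
  refine ⟨r, hr, fun x hx i => ?_⟩
  have h2 := real_inner_le_norm (a i) x
  have h3 := h i
  nlinarith [mul_le_mul_of_nonneg_left hx (norm_nonneg (a i))]

theorem pf_B2 (hB2a : Stm_B2a) : Stm_B2 := by
  intro P n a b hP hb hPe
  subst hPe
  obtain ⟨V, hV, hVe⟩ := hB2a n a b hP
  have hVP : ∀ v ∈ V, ∀ i, inner ℝ (a i) v ≤ b i := by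
    intro v hv
    have h1 : v ∈ extremePoints ℝ {x : E3 | ∀ i, inner ℝ (a i) x ≤ b i} := by
      rw [← hV]; exact hv
    exact h1.1
  obtain ⟨r, hr, hrP⟩ := b2_radius n a b hb
  have h0P : (0 : E3) ∈ convexHull ℝ (V : Set E3) := by
    rw [← hVe]
    exact hrP 0 (by rw [norm_zero]; exact hr.le)
  have hVne : V.Nonempty := by
    rw [← Finset.coe_nonempty]
    exact convexHull_nonempty_iff.1 ⟨0, h0P⟩
  -- the polar
  set Q : Set E3 := {y : E3 | ∀ v ∈ V, inner ℝ v y ≤ (1 : ℝ)} with hQ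
  obtain ⟨e⟩ : Nonempty (Fin V.card ≃ V) := ⟨V.equivFin.symm⟩
  have hQe : Q = {y : E3 | ∀ i : Fin V.card, inner ℝ ((e i : E3)) y ≤ (1 : ℝ)} := by
    ext y
    constructor
    · intro h i
      exact h _ (e i).2
    · intro h v hv
      have h2 := h (e.symm ⟨v, hv⟩)
      rw [Equiv.apply_symm_apply] at h2
      exact h2
  have hQb : Bornology.IsBounded Q := by
    rw [isBounded_iff_subset_closedBall (0 : E3)]
    refine ⟨1 / r, fun y hy => ?_⟩
    rw [mem_closedBall_zero_iff]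
    rcases eq_or_ne y 0 with rfl | hy0
    · rw [norm_zero]
      positivity
    · have hyn : 0 < ‖y‖ := norm_pos_iff.2 hy0
      have h1 : (r / ‖y‖) • y ∈ convexHull ℝ (V : Set E3) := by
        rw [← hVe]
        apply hrP
        rw [norm_smul, Real.norm_of_nonneg (by positivity), div_mul_cancel₀ _ hyn.ne']
      have h2 := b2_hull (y := y) (fun v hv => hy v hv) h1
      rw [real_inner_smul_left, real_inner_self_eq_norm_sq] at h2
      have h3 : r / ‖y‖ * ‖y‖ ^ 2 = r * ‖y‖ := by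
        field_simp
      rw [h3] at h2
      rw [le_div_iff₀ hr]
      linarith
  obtain ⟨F, hF, hFe⟩ := hB2a V.card (fun i => (e i : E3)) (fun _ => 1) (by rw [← hQe]; exact hQb)
  rw [← hQe] at hF hFe
  have h0Q : (0 : E3) ∈ convexHull ℝ (F : Set E3) := by
    rw [← hFe]
    intro v _
    rw [inner_zero_right]
    exact zero_le_one
  have hFne : F.Nonempty := by
    rw [← Finset.coe_nonempty]
    exact convexHull_nonempty_iff.1 ⟨0, h0Q⟩
  have hFQ : ∀ f ∈ F, f ∈ Q := by
    intro f hf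
    have h1 : f ∈ extremePoints ℝ Q := by
      rw [← hF]; exact hf
    exact h1.1
  refine ⟨V, F, ⟨?_, ?_, ?_, ?_, hVne, hFne⟩, hVe⟩
  · intro x
    constructor
    · intro hx f hf
      exact b2_hull (hFQ f hf) hx
    · intro hx
      rw [← hVe]
      intro i
      have hbi := hb i
      have h1 : (b i)⁻¹ • a i ∈ convexHull ℝ (F : Set E3) := by
        rw [← hFe]
        intro v hv
        have h2 := hVP v hv i
        rw [real_inner_smul_right, real_inner_comm]
        rw [inv_mul_le_iff₀ hbi, mul_one]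
        exact h2
      have h3 := b2_hull' (x := x) hx h1
      rw [real_inner_smul_right, real_inner_comm, inv_mul_le_iff₀ hbi, mul_one] at h3
      exact h3
  · intro y
    rw [← hFe]
    exact Iff.rfl
  · intro v hv
    rw [← hVe, ← hV]
    exact hv
  · intro f hf
    rw [← hFe, ← hF]
    exact hf

end Pool.Agent.Lib.MP_af06f6_co
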