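import Mathlib
import Pool.Agent.Lib.MP_af06f6_co.G.Stm2

set_option autoImplicit false

/-!
# MP_af06f6_co, geometry part: a bounded H-polytope is the hull of finitely many extreme points
-/

open Set Metric MeasureTheory Filter Topology

namespace Pool.Agent.Lib.MP_af06f6_co

private lemma b2a_inj (n : ℕ) (a : Fin n → E3) (b : Fin n → ℝ) (v v' : E3)
    (hv : v ∈ extremePoints ℝ {x : E3 | ∀ i, inner ℝ (a i) x ≤ b i})
    (hv' : v' ∈ {x : E3 | ∀ i, inner ℝ (a i) x ≤ b i})
    (h : ∀ i, inner ℝ (a i) v = b i → inner ℝ (a i) v' = b i) : v = v' := by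
  have hvP : ∀ i, inner ℝ (a i) v ≤ b i := hv.1
  have hev : ∀ᶠ ε in 𝓝[>] (0 : ℝ), ∀ i, inner ℝ (a i) (v + ε • (v - v')) ≤ b i := by
    rw [Filter.eventually_all]
    intro i
    have e : ∀ ε : ℝ, inner ℝ (a i) (v + ε • (v - v')) = inner ℝ (a i) v + ε * inner ℝ (a i) (v - v') := by
      intro ε
      rw [inner_add_right, inner_smul_right]
    rcases (hvP i).lt_or_eq with hlt | heq
    · have ht : Tendsto (fun ε : ℝ => inner ℝ (a i) v + ε * inner ℝ (a i) (v - v')) (𝓝[>] 0) (𝓝 (inner ℝ (a i) v)) := by
        have h1 : Continuous fun ε : ℝ => inner ℝ (a i) v + ε * inner ℝ (a i) (v - v') := by fun_prop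
        have h2 := (h1.tendsto 0).mono_left (nhdsWithin_le_nhds (s := Ioi (0 : ℝ)))
        simpa using h2
      filter_upwards [ht.eventually_lt_const hlt] with ε hε
      rw [e]
      exact hε.le
    · refine Eventually.of_forall fun ε => ?_
      have h0 : inner ℝ (a i) (v - v') = 0 := by
        rw [inner_sub_right, heq, h i heq, sub_self]
      rw [e, h0, mul_zero, add_zero]
      exact heq.le
  obtain ⟨ε, hε, hε0⟩ := (hev.and self_mem_nhdsWithin).exists
  have hε0' : (0 : ℝ) < ε := hε0
  have hseg : v ∈ openSegment ℝ v' (v + ε • (v - v')) := by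
    refine ⟨ε / (1 + ε), 1 / (1 + ε), by positivity, by positivity, by field_simp; ring, ?_⟩
    have h1 : (1 + ε) ≠ 0 := by positivity
    have : (ε / (1 + ε)) • v' + (1 / (1 + ε)) • (v + ε • (v - v')) = ((1 / (1 + ε)) * (1 + ε)) • v := by
      module
    rw [this, one_div, inv_mul_cancel₀ h1, one_smul]
  exact ((mem_extremePoints.mp hv).2 v' hv' _ hε hseg).1.symm

theorem pf_B2a : Stm_B2a := by
  classical
  intro n a b hbd
  set P : Set E3 := {x : E3 | ∀ i, inner ℝ (a i) x ≤ b i} with hP
  have hfin : (extremePoints ℝ P).Finite := by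
    let act : E3 → Finset (Fin n) := fun v => Finset.univ.filter fun i => inner ℝ (a i) v = b i
    refine Set.Finite.of_finite_image (f := act) (Set.toFinite _) ?_
    intro v hv v' hv' hvv
    refine b2a_inj n a b v v' hv hv'.1 fun i hi => ?_
    have h1 : i ∈ act v := Finset.mem_filter.mpr ⟨Finset.mem_univ _, hi⟩
    rw [hvv] at h1
    exact (Finset.mem_filter.mp h1).2
  have hclosed : IsClosed P := by
    have e : P = ⋂ i, {x : E3 | inner ℝ (a i) x ≤ b i} := by
      ext x
      rw [mem_iInter]
      rfl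
    rw [e]
    refine isClosed_iInter fun i => isClosed_le ?_ continuous_const
    fun_prop
  have hcomp : IsCompact P := Metric.isCompact_of_isClosed_isBounded hclosed hbd
  have hconv : Convex ℝ P := by
    intro x hx y hy s t hs ht hst i
    have h1 := hx i
    have h2 := hy i
    rw [inner_add_right, inner_smul_right, inner_smul_right]
    calc s * inner ℝ (a i) x + t * inner ℝ (a i) y ≤ s * b i + t * b i := by gcongr
      _ = b i := by rw [← add_mul, hst, one_mul]
  refine ⟨hfin.toFinset, hfin.coe_toFinset, ?_⟩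
  have hk := closure_convexHull_extremePoints hcomp hconv
  rw [(hfin.isClosed_convexHull (𝕜 := ℝ)).closure_eq] at hk
  rw [hfin.coe_toFinset]
  exact hk.symm

end Pool.Agent.Lib.MP_af06f6_co
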