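import Mathlib
import Pool.Agent.Lib.MP_af06f6_co.G.Swap

/-!
# MP_af06f6_co, piece B3: the segment of an `E4` is an edge of the polytope
-/

open Set Metric

namespace Pool.Agent.Lib.MP_af06f6_co

theorem pf_B3 (hA1 : Stm_A1) (hA3 : Stm_A3) : Stm_B3 := by
  intro V F h v w f g hE
  refine ⟨v, w, hE.hvw, rfl, ?_⟩
  intro _
  have hVP : ∀ u ∈ V, u ∈ convexHull ℝ (V : Set E3) := fun u hu => subset_convexHull ℝ _ hu
  have hle : ∀ y ∈ convexHull ℝ (V : Set E3), ∀ k ∈ F, inner ℝ y k ≤ (1 : ℝ) :=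
    fun y hy => (h.polV y).1 hy
  have hseg : ∀ x ∈ segment ℝ v w, inner ℝ x f = (1 : ℝ) ∧ inner ℝ x g = (1 : ℝ) := by
    rintro x ⟨a, b, _, _, hab, rfl⟩
    rw [inner_add_left, inner_add_left, real_inner_smul_left, real_inner_smul_left,
      real_inner_smul_left, real_inner_smul_left, hE.vf, hE.vg, hE.wf, hE.wg]
    constructor <;> linarith
  refine ⟨innerSL ℝ (f + g), ?_⟩
  have hl : ∀ x : E3, innerSL ℝ (f + g) x = inner ℝ x f + (inner ℝ x g : ℝ) := by
    intro x
    rw [innerSL_apply_apply, inner_add_left, real_inner_comm x f, real_inner_comm x g]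
  ext x
  constructor
  · intro hx
    refine ⟨(convex_convexHull ℝ _).segment_subset (hVP v hE.hv) (hVP w hE.hw) hx, ?_⟩
    intro y hy
    rw [hl, hl, (hseg x hx).1, (hseg x hx).2]
    have h1 := hle y hy f hE.hf
    have h2 := hle y hy g hE.hg
    linarith
  · rintro ⟨hxP, hmax⟩
    have h1 := hmax v (hVP v hE.hv)
    rw [hl, hl, hE.vf, hE.vg] at h1
    have h2 := hle x hxP f hE.hf
    have h3 := hle x hxP g hE.hg
    have h4 : inner ℝ x (f + g) = (2 : ℝ) := by
      rw [inner_add_right]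
      linarith
    have h5 := hA1 V (f + g) 2 x hxP (fun u hu => by
      rw [inner_add_right]
      have h6 := hle u (hVP u hu) f hE.hf
      have h7 := hle u (hVP u hu) g hE.hg
      linarith) h4
    have h6 : {u : E3 | u ∈ V ∧ inner ℝ u (f + g) = (2 : ℝ)} ⊆ {v, w} := by
      rintro u ⟨hu, hu2⟩
      rw [inner_add_right] at hu2
      have h6 := hle u (hVP u hu) f hE.hf
      have h7 := hle u (hVP u hu) g hE.hg
      by_contra hne
      rw [Set.mem_insert_iff, Set.mem_singleton_iff, not_or] at hne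
      exact hA3 V F h f hE.hf g hE.hg hE.hfg u hu v hE.hv w hE.hw hne.1 hE.hvw hne.2
        (by linarith) (by linarith) hE.vf hE.vg hE.wf hE.wg
    have h7 := convexHull_mono h6 h5
    rwa [convexHull_pair] at h7

end Pool.Agent.Lib.MP_af06f6_co
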