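import Mathlib
import Pool.Agent.Lib.MP_af06f6_co.G.Swap

/-!
# MP_af06f6_co, piece B5: edge tangency gives `HT`
-/

open Set Metric

namespace Pool.Agent.Lib.MP_af06f6_co

private theorem b5_nonneg {c D m : ℝ} (hD : 0 ≤ D) (hm : 0 < m)
    (h : ∀ s : ℝ, 0 ≤ s → s ≤ m → 0 ≤ 2 * s * c + s ^ 2 * D) : 0 ≤ c := by
  by_contra hc
  push Not at hc
  have hD1 : 0 < D + 1 := by linarith
  have he : 0 < min m (-c / (D + 1)) := lt_min hm (div_pos (by linarith) hD1)
  set e := min m (-c / (D + 1)) with hedef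
  have h1 := h e he.le (min_le_left _ _)
  have h2 : e * (D + 1) ≤ -c := by
    have : e ≤ -c / (D + 1) := min_le_right _ _
    rwa [le_div_iff₀ hD1] at this
  have h3 : 0 ≤ e * (2 * c + e * D) := by nlinarith
  have h4 : 0 ≤ 2 * c + e * D := nonneg_of_mul_nonneg_right h3 he
  nlinarith

theorem pf_B5 (hB3 : Stm_B3) (hB4 : Stm_B4) : Stm_B5 := by
  intro V F h hET v w f g hE
  obtain ⟨⟨u, ⟨huseg, husph⟩, _⟩, hdisj⟩ := hET _ (hB3 V F h v w f g hE)
  have hv1 := hB4 V F h hET v hE.hv
  have hw1 := hB4 V F h hET w hE.hw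
  rw [mem_sphere_zero_iff_norm] at husph
  obtain ⟨a, b, ha, hb, hab, hu⟩ := huseg
  have ha0 : 0 < a := by
    rcases ha.lt_or_eq with h1 | h1
    · exact h1
    · exfalso
      have h2 : b = 1 := by linarith
      rw [← h1, h2, zero_smul, one_smul, zero_add] at hu
      rw [hu] at hw1
      linarith
  have hb0 : 0 < b := by
    rcases hb.lt_or_eq with h1 | h1
    · exact h1
    · exfalso
      have h2 : a = 1 := by linarith
      rw [← h1, h2, zero_smul, one_smul, add_zero] at hu
      rw [hu] at hv1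
      linarith
  have hud : u = v + b • (w - v) := by
    rw [← hu, smul_sub]
    have : a = 1 - b := by linarith
    rw [this, sub_smul, one_smul]
    abel
  have hge : ∀ t : ℝ, 0 ≤ t → t ≤ 1 → 1 ≤ ‖v + t • (w - v)‖ := by
    intro t h0 h1
    by_contra h2
    push Not at h2
    have h3 : v + t • (w - v) ∈ segment ℝ v w := by
      refine ⟨1 - t, t, by linarith, h0, by ring, ?_⟩
      rw [sub_smul, one_smul, smul_sub]
      abel
    exact Set.disjoint_left.1 hdisj h3 (by rwa [mem_ball_zero_iff])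
  have hquad : ∀ s : ℝ, 0 ≤ b + s → b + s ≤ 1 →
      0 ≤ 2 * s * inner ℝ u (w - v) + s ^ 2 * ‖w - v‖ ^ 2 := by
    intro s h0 h1
    have h2 := hge (b + s) h0 h1
    have h3 : v + (b + s) • (w - v) = u + s • (w - v) := by
      rw [hud, add_smul]
      abel
    rw [h3] at h2
    have h4 : ‖u + s • (w - v)‖ ^ 2
        = 1 + (2 * s * inner ℝ u (w - v) + s ^ 2 * ‖w - v‖ ^ 2) := by
      rw [norm_add_sq_real, real_inner_smul_right, norm_smul, husph, mul_pow, Real.norm_eq_abs,
        sq_abs]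
      ring
    have h5 : 1 ≤ ‖u + s • (w - v)‖ ^ 2 := by nlinarith
    linarith
  have hc : inner ℝ u (w - v) = (0 : ℝ) := by
    apply le_antisymm
    · have h1 : 0 ≤ -inner ℝ u (w - v) := b5_nonneg (sq_nonneg ‖w - v‖) hb0 (fun s h0 h1 => by
        have h2 := hquad (-s) (by linarith) (by linarith)
        nlinarith)
      linarith
    · exact b5_nonneg (sq_nonneg ‖w - v‖) ha0 (fun s h0 h1 =>
        hquad s (by linarith) (by linarith))
  have huu : inner ℝ u u = (1 : ℝ) := by
    rw [real_inner_self_eq_norm_sq, husph]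
    norm_num
  have huv : inner ℝ u v = (1 : ℝ) := by
    have h1 : inner ℝ u u = inner ℝ u (v + b • (w - v)) := by rw [← hud]
    rw [inner_add_right, real_inner_smul_right, hc, huu] at h1
    linarith
  refine ⟨u, ⟨a, b, ha0, hb0, hab, hu⟩, husph, huv, ?_⟩
  rw [inner_sub_right, huv] at hc
  linarith

end Pool.Agent.Lib.MP_af06f6_co
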