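import Mathlib
import Pool.Agent.Lib.MP_af06f6_co.G.Stm2

/-!
# MP_af06f6_co, geometry part, piece B6
-/

open Set Metric

namespace Pool.Agent.Lib.MP_af06f6_co

private theorem b6_end {V F : Finset E3} (hD : DP V F) {x v w : E3} (hx : x ∈ V) (hv : v ∈ V)
    (hw : w ∈ V) (h : x ∈ segment ℝ v w) : x = v ∨ x = w := by
  have hext := hD.extV x hx
  rw [mem_extremePoints] at hext
  have hvP : v ∈ convexHull ℝ (V : Set E3) := subset_convexHull ℝ _ hv
  have hwP : w ∈ convexHull ℝ (V : Set E3) := subset_convexHull ℝ _ hw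
  by_cases h1 : v = x
  · exact Or.inl h1.symm
  by_cases h2 : w = x
  · exact Or.inr h2.symm
  have h3 : x ∈ openSegment ℝ v w := mem_openSegment_of_ne_left_right h1 h2 h
  exact Or.inl (hext.2 v hvP w hwP h3).1.symm

private theorem b6_pair {V F : Finset E3} (hD : DP V F) {v w v' w' : E3} (hv : v ∈ V) (hw : w ∈ V)
    (hv' : v' ∈ V) (hw' : w' ∈ V) (hne : v' ≠ w') (h : segment ℝ v' w' = segment ℝ v w) :
    (v' = v ∧ w' = w) ∨ (v' = w ∧ w' = v) := by
  have h1 : v' = v ∨ v' = w := b6_end hD hv' hv hw (h ▸ left_mem_segment ℝ v' w')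
  have h2 : w' = v ∨ w' = w := b6_end hD hw' hv hw (h ▸ right_mem_segment ℝ v' w')
  rcases h1 with h1 | h1 <;> rcases h2 with h2 | h2
  · exact absurd (h1.trans h2.symm) hne
  · exact Or.inl ⟨h1, h2⟩
  · exact Or.inr ⟨h1, h2⟩
  · exact absurd (h1.trans h2.symm) hne

theorem pf_B6 (hB3 : Stm_B3) (hB6a : Stm_B6a) (hB6b : Stm_B6b) (hB6c : Stm_B6c) : Stm_B6 := by
  classical
  intro V F hD hHT
  have hfin := hB6a V
  set S : Finset (E3 × E3) := (V ×ˢ V).filter (fun p => Adj V F p.1 p.2) with hS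
  have hmem : ∀ p ∈ S, p.1 ∈ V ∧ p.2 ∈ V ∧ Adj V F p.1 p.2 := by
    intro p hp
    rw [hS, Finset.mem_filter, Finset.mem_product] at hp
    exact ⟨hp.1.1, hp.1.2, hp.2⟩
  -- the sum over flags is the sum over ordered pairs
  have e1 : ∑ v ∈ V, ((star F v).card : ℝ) * tl v = ∑ p ∈ S, tl p.1 := by
    rw [hS, Finset.sum_filter, Finset.sum_product]
    apply Finset.sum_congr rfl
    intro v hv
    rw [← hB6c V F hD v hv, ← Finset.sum_filter]
    simp only [Finset.sum_const, nsmul_eq_mul]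
  -- symmetric version
  have e2 : ∑ p ∈ S, tl p.2 = ∑ p ∈ S, tl p.1 := by
    have hsw : ∀ p ∈ S, (p.2, p.1) ∈ S := by
      intro p hp
      obtain ⟨h1, h2, h3⟩ := hmem p hp
      rw [hS, Finset.mem_filter, Finset.mem_product]
      exact ⟨⟨h2, h1⟩, h3.symm⟩
    exact Finset.sum_bij' (fun p _ => (p.2, p.1)) (fun p _ => (p.2, p.1)) hsw hsw
      (fun p _ => rfl) (fun p _ => rfl) (fun p _ => rfl)
  have e3 : ∑ p ∈ S, Metric.diam (segment ℝ p.1 p.2) = 2 * ∑ p ∈ S, tl p.1 := by
    have : ∑ p ∈ S, Metric.diam (segment ℝ p.1 p.2) = ∑ p ∈ S, (tl p.1 + tl p.2) := by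
      apply Finset.sum_congr rfl
      intro p hp
      obtain ⟨h1, h2, h3⟩ := hmem p hp
      obtain ⟨f, g, hE⟩ := h3.exE4V
      exact hB6b V F hHT p.1 p.2 f g hE
    rw [this, Finset.sum_add_distrib, e2]
    ring
  -- the edges
  set T : Finset (Set E3) := hfin.toFinset with hT
  have hmaps : ∀ p ∈ S, segment ℝ p.1 p.2 ∈ T := by
    intro p hp
    obtain ⟨h1, h2, h3⟩ := hmem p hp
    obtain ⟨f, g, hE⟩ := h3.exE4V
    rw [hT, Set.Finite.mem_toFinset]
    exact hB3 V F hD p.1 p.2 f g hE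
  have e4 : ∑ p ∈ S, Metric.diam (segment ℝ p.1 p.2) ≤ 2 * ∑ e ∈ T, Metric.diam e := by
    rw [← Finset.sum_fiberwise_of_maps_to hmaps, Finset.mul_sum]
    apply Finset.sum_le_sum
    intro e _
    have h1 : ∑ p ∈ S.filter (fun p => segment ℝ p.1 p.2 = e), Metric.diam (segment ℝ p.1 p.2)
        = ((S.filter (fun p => segment ℝ p.1 p.2 = e)).card : ℝ) * Metric.diam e := by
      rw [← nsmul_eq_mul, ← Finset.sum_const]
      apply Finset.sum_congr rfl
      intro p hp
      rw [(Finset.mem_filter.1 hp).2]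
    rw [h1]
    apply mul_le_mul_of_nonneg_right _ Metric.diam_nonneg
    have h2 : (S.filter (fun p => segment ℝ p.1 p.2 = e)).card ≤ 2 := by
      rcases (S.filter (fun p => segment ℝ p.1 p.2 = e)).eq_empty_or_nonempty with h0 | ⟨q, hq⟩
      · rw [h0]
        simp
      · have hsub : S.filter (fun p => segment ℝ p.1 p.2 = e) ⊆ {(q.1, q.2), (q.2, q.1)} := by
          intro p hp
          have hp' := Finset.mem_filter.1 hp
          have hq' := Finset.mem_filter.1 hq
          obtain ⟨a1, a2, a3⟩ := hmem p hp'.1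
          obtain ⟨b1, b2, b3⟩ := hmem q hq'.1
          have := b6_pair hD b1 b2 a1 a2 a3.2.2.1 (hp'.2.trans hq'.2.symm)
          rw [Finset.mem_insert, Finset.mem_singleton]
          rcases this with ⟨c1, c2⟩ | ⟨c1, c2⟩
          · left
            exact Prod.ext c1 c2
          · right
            exact Prod.ext c1 c2
        exact (Finset.card_le_card hsub).trans Finset.card_le_two
    exact_mod_cast h2
  have e5 : totalLength (convexHull ℝ (V : Set E3)) = ∑ e ∈ T, Metric.diam e := by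
    unfold totalLength
    exact finsum_mem_eq_finite_toFinset_sum _ hfin
  rw [e1, e5]
  linarith

end Pool.Agent.Lib.MP_af06f6_co
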