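import Mathlib
import Pool.Agent.Lib.MP_af06f6_co.G.Stm2

/-!
# MP_af06f6_co, piece B6a: a polytope has finitely many edges
-/

namespace Pool.Agent.Lib.MP_af06f6_co

theorem pf_B6a (hA1 : Stm_A1) : Stm_B6a := by
  intro V
  refine Set.Finite.subset
    ((V.finite_toSet.finite_subsets).image (fun W : Set E3 => convexHull ℝ W)) ?_
  rintro e ⟨p, q, -, he, hexp⟩
  have hpe : p ∈ e := by
    rw [he]
    exact left_mem_segment ℝ p q
  obtain ⟨l, hl⟩ := hexp ⟨p, hpe⟩
  have hla : ∀ x : E3, l x = inner ℝ x ((InnerProductSpace.toDual ℝ E3).symm l) := by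
    intro x
    rw [real_inner_comm, InnerProductSpace.toDual_symm_apply]
  have hpP : p ∈ convexHull ℝ (V : Set E3) ∧ ∀ y ∈ convexHull ℝ (V : Set E3), l y ≤ l p := by
    rw [hl] at hpe
    exact hpe
  refine ⟨{v : E3 | v ∈ V ∧ v ∈ e}, fun v hv => hv.1, ?_⟩
  apply Set.Subset.antisymm
  · refine convexHull_min (fun v hv => hv.2) ?_
    rw [he]
    exact convex_segment p q
  · intro x hx
    have hxP : x ∈ convexHull ℝ (V : Set E3) ∧ ∀ y ∈ convexHull ℝ (V : Set E3), l y ≤ l x := by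
      rw [hl] at hx
      exact hx
    have hxc : l x = l p := le_antisymm (hpP.2 x hxP.1) (hxP.2 p hpP.1)
    have h1 := hA1 V ((InnerProductSpace.toDual ℝ E3).symm l) (l p) x hxP.1
      (fun v hv => by
        rw [← hla]
        exact hpP.2 v (subset_convexHull ℝ _ hv))
      (by rw [← hla, hxc])
    refine convexHull_mono ?_ h1
    rintro v ⟨hv, hvc⟩
    refine ⟨hv, ?_⟩
    rw [← hla] at hvc
    rw [hl]
    exact ⟨subset_convexHull ℝ _ hv, fun y hy => by rw [hvc]; exact hpP.2 y hy⟩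

end Pool.Agent.Lib.MP_af06f6_co
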