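import Mathlib
import Pool.Agent.Lib.MP_af06f6_co.G.Stm2

/-!
# MP_af06f6_co, piece B6b: the length of an edge
-/

open Set Metric

namespace Pool.Agent.Lib.MP_af06f6_co

theorem pf_B6b : Stm_B6b := by
  intro V F hHT v w f g hE
  obtain ⟨u, hu, hu1, huv, huw⟩ := hHT v w f g hE
  have h1 : Metric.diam (segment ℝ v w) = dist v w := by
    rw [← convexHull_pair, convexHull_diam, Metric.diam_pair]
  have h2 : dist v u + dist u w = dist v w :=
    dist_add_dist_of_mem_segment (openSegment_subset_segment ℝ v w hu)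
  have key : ∀ x : E3, inner ℝ u x = (1 : ℝ) → dist x u = tl x := by
    intro x hx
    have h3 : dist x u ^ 2 = ‖x‖ ^ 2 - 1 := by
      rw [dist_eq_norm, norm_sub_sq_real, real_inner_comm, hx, hu1]
      ring
    rw [tl, ← h3, Real.sqrt_sq dist_nonneg]
  rw [h1, ← h2, key v huv, dist_comm, key w huw]

end Pool.Agent.Lib.MP_af06f6_co
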