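import Mathlib
import Pool.Agent.Lib.MP_af06f6_co.G.Stm2

/-!
# [B6c] The number of neighbours of a vertex is the number of its faces
-/

open Set Metric

namespace Pool.Agent.Lib.MP_af06f6_co

open Classical in
theorem pf_B6c (hA3 : Stm_A3) (hA5 : Stm_A5) : Stm_B6c := by
  intro V F h v hv
  have key : (V.filter (fun w => Adj V F v w)).card * 2 = (star F v).card * 2 := by
    refine Finset.card_mul_eq_card_mul (fun w f => ∃ g, E4 V F v w f g) ?_ ?_
    · -- the faces of an edge
      intro w hw
      obtain ⟨f, g, hE⟩ := (Finset.mem_filter.1 hw).2.exE4V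
      have e : Finset.bipartiteAbove (fun w f => ∃ g, E4 V F v w f g) (star F v) w = {f, g} := by
        ext x
        rw [Finset.mem_bipartiteAbove, Finset.mem_insert, Finset.mem_singleton]
        constructor
        · rintro ⟨-, y, hxy⟩
          by_contra hne
          rw [not_or] at hne
          exact hA3 F V h.swap v hE.hv w hE.hw hE.hvw f hE.hf g hE.hg x hxy.hf hE.hfg (Ne.symm hne.2) (Ne.symm hne.1)
            hE.swap.vf hE.swap.vg hE.swap.wf hE.swap.wg hxy.swap.vf hxy.swap.vg
        · rintro (rfl | rfl)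
          · exact ⟨mem_star.2 ⟨hE.hf, hE.swap.vf⟩, _, hE⟩
          · exact ⟨mem_star.2 ⟨hE.hg, hE.swap.wf⟩, _, hE.symmF⟩
      rw [e, Finset.card_pair hE.hfg]
    · -- the edges of a face at `v`
      intro f hf
      obtain ⟨hfF, hfv⟩ := mem_star'.1 hf
      obtain ⟨w₁, w₂, g₁, g₂, hfl⟩ := hA5 V F h v hv f hfF hfv
      have e : Finset.bipartiteBelow (fun w f => ∃ g, E4 V F v w f g) (V.filter (fun w => Adj V F v w)) f = {w₁, w₂} := by
        ext x
        rw [Finset.mem_bipartiteBelow, Finset.mem_insert, Finset.mem_singleton]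
        constructor
        · rintro ⟨-, y, hxy⟩
          rcases hfl.only x y hxy with h1 | h1
          · exact Or.inl h1.1
          · exact Or.inr h1.1
        · rintro (rfl | rfl)
          · exact ⟨Finset.mem_filter.2 ⟨hfl.e₁.hw, hfl.e₁.adjV⟩, _, hfl.e₁⟩
          · exact ⟨Finset.mem_filter.2 ⟨hfl.e₂.hw, hfl.e₂.adjV⟩, _, hfl.e₂⟩
      rw [e, Finset.card_pair hfl.hw]
  omega

end Pool.Agent.Lib.MP_af06f6_co
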