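import Mathlib
import Pool.Agent.Lib.MP_af06f6_co.G.Stm2

open Set Metric

namespace Pool.Agent.Lib.MP_af06f6_co

theorem pf_B7 (hB7a : Stm_B7a) (hB7b : Stm_B7b) (hB7c : Stm_B7c) : Stm_B7 := by
  intro V F h hH f hf
  have h1 := hB7a V F h hH f hf
  refine ⟨h1, fun y hy hyn => ?_⟩
  apply hB7c V F h f hf
  · rw [inner_add_left, hy, add_zero, real_inner_smul_left, real_inner_self_eq_norm_sq]
    have : ‖f‖ ^ 2 ≠ 0 := by positivity
    field_simp
  · intro g hg
    exact hB7b V F h hH f g hg y hy hyn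

end Pool.Agent.Lib.MP_af06f6_co
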