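import Mathlib
import Pool.Agent.Lib.MP_af06f6_co.G.Stm2

/-!
# MP_af06f6_co, geometry part, piece B7a
-/

open Set Metric

namespace Pool.Agent.Lib.MP_af06f6_co

theorem b7a_seg {v w u : E3} (h : u ∈ openSegment ℝ v w) :
    ∃ a b : ℝ, 0 < a ∧ 0 < b ∧ a + b = 1 ∧ ∀ g : E3, (inner ℝ u g : ℝ) = a * inner ℝ v g + b * inner ℝ w g := by
  obtain ⟨a, b, ha, hb, hab, rfl⟩ := h
  refine ⟨a, b, ha, hb, hab, fun g => ?_⟩
  rw [inner_add_left, real_inner_smul_left, real_inner_smul_left]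

/-- the touching point of an edge is on both faces -/
theorem b7a_touch {V F : Finset E3} {v w f g u : E3} (h : E4 V F v w f g) (hu : u ∈ openSegment ℝ v w) :
    inner ℝ u f = (1 : ℝ) ∧ inner ℝ u g = (1 : ℝ) := by
  obtain ⟨a, b, -, -, hab, hi⟩ := b7a_seg hu
  rw [hi f, hi g, h.vf, h.wf, h.vg, h.wg]
  constructor <;> linarith

theorem pf_B7a (hA4 : Stm_A4) (hA5 : Stm_A5) : Stm_B7a := by
  intro V F hDP hHT f hf
  have hc := hA4 F V hDP.swap f hf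
  obtain ⟨v, hv⟩ : (star V f).Nonempty := by
    rw [← Finset.card_pos]; omega
  rw [mem_star] at hv
  obtain ⟨hvV, hvf⟩ := hv
  obtain ⟨w₁, w₂, g₁, g₂, hfl⟩ := hA5 V F hDP v hvV f hf hvf
  obtain ⟨u₁, hu₁, hn₁, -, -⟩ := hHT v w₁ f g₁ hfl.e₁
  obtain ⟨u₂, hu₂, hn₂, -, -⟩ := hHT v w₂ f g₂ hfl.e₂
  have t₁ := b7a_touch hfl.e₁ hu₁
  have t₂ := b7a_touch hfl.e₂ hu₂
  have hge : 1 ≤ ‖f‖ := by
    have := real_inner_le_norm u₁ f
    rw [t₁.1, hn₁, one_mul] at this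
    exact this
  rcases hge.lt_or_eq with h | h
  · exact h
  · exfalso
    have e : ∀ u : E3, ‖u‖ = 1 → inner ℝ u f = (1 : ℝ) → u = f := by
      intro u hu huf
      have h1 : ‖u - f‖ ^ 2 = 0 := by
        rw [norm_sub_sq_real, hu, huf, ← h]
        norm_num
      have h2 : ‖u - f‖ = 0 := by
        exact pow_eq_zero_iff (two_ne_zero) |>.mp h1
      exact sub_eq_zero.mp (norm_eq_zero.mp h2)
    have e₁ := e u₁ hn₁ t₁.1
    have e₂ := e u₂ hn₂ t₂.1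
    obtain ⟨a, b, ha, hb, hab, hi⟩ := b7a_seg hu₂
    have h3 := hi g₁
    rw [e₂, ← e₁, t₁.2, hfl.e₁.vg] at h3
    have h4 := mul_lt_mul_of_pos_left hfl.lt₂ hb
    linarith

end Pool.Agent.Lib.MP_af06f6_co
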