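import Mathlib
import Pool.Agent.Lib.MP_af06f6_co.G.Stm2

/-!
# MP_af06f6_co, geometry part, piece B7b
-/

open Set Metric

namespace Pool.Agent.Lib.MP_af06f6_co

/-- a vector orthogonal to three nonzero pairwise orthogonal vectors is zero -/
theorem b7b_orth (a b c x : E3) (ha : a ≠ 0) (hb : b ≠ 0) (hc : c ≠ 0) (hab : inner ℝ a b = (0 : ℝ))
    (hac : inner ℝ a c = (0 : ℝ)) (hbc : inner ℝ b c = (0 : ℝ)) (hxa : inner ℝ a x = (0 : ℝ))
    (hxb : inner ℝ b x = (0 : ℝ)) (hxc : inner ℝ c x = (0 : ℝ)) : x = 0 := by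
  by_contra hx
  have hli : LinearIndependent ℝ ![a, b, c, x] := by
    apply linearIndependent_of_ne_zero_of_inner_eq_zero
    · intro i
      fin_cases i <;> simp [ha, hb, hc, hx]
    · intro i j hij
      fin_cases i <;> fin_cases j <;>
        first
        | exact absurd rfl hij
        | simpa using hab
        | simpa using hac
        | simpa using hbc
        | simpa using hxa
        | simpa using hxb
        | simpa using hxc
        | (rw [real_inner_comm]; simpa using hab)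
        | (rw [real_inner_comm]; simpa using hac)
        | (rw [real_inner_comm]; simpa using hbc)
        | (rw [real_inner_comm]; simpa using hxa)
        | (rw [real_inner_comm]; simpa using hxb)
        | (rw [real_inner_comm]; simpa using hxc)
  have := hli.fintype_card_le_finrank
  simp [finrank_euclideanSpace] at this

private theorem b7b_seg {v w u : E3} (h : u ∈ openSegment ℝ v w) :
    ∃ a b : ℝ, 0 < a ∧ 0 < b ∧ a + b = 1 ∧ ∀ g : E3, (inner ℝ u g : ℝ) = a * inner ℝ v g + b * inner ℝ w g := by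
  obtain ⟨a, b, ha, hb, hab, rfl⟩ := h
  refine ⟨a, b, ha, hb, hab, fun g => ?_⟩
  rw [inner_add_left, real_inner_smul_left, real_inner_smul_left]

private theorem b7b_touch {V F : Finset E3} {v w f g u : E3} (h : E4 V F v w f g) (hu : u ∈ openSegment ℝ v w) :
    inner ℝ u f = (1 : ℝ) ∧ inner ℝ u g = (1 : ℝ) := by
  obtain ⟨a, b, -, -, hab, hi⟩ := b7b_seg hu
  rw [hi f, hi g, h.vf, h.wf, h.vg, h.wg]
  constructor <;> linarith

/-- distance of a touching point from the centre of the incircle -/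
private theorem b7b_dist {f u : E3} (hf : 1 < ‖f‖) (hu : ‖u‖ = 1) (huf : inner ℝ u f = (1 : ℝ)) :
    ‖(‖f‖ ^ 2)⁻¹ • f - u‖ ^ 2 = 1 - 1 / ‖f‖ ^ 2 := by
  have hf0 : (0 : ℝ) < ‖f‖ := by linarith
  rw [norm_sub_sq_real, norm_smul, real_inner_smul_left, real_inner_comm, huf, hu, norm_inv, norm_pow, norm_norm]
  field_simp
  ring

theorem pf_B7b (hA5 : Stm_A5) (hB7a : Stm_B7a) : Stm_B7b := by
  intro V F hDP hHT f g hadj y hyf hy
  obtain ⟨v, w, hE⟩ := hadj.exE4F
  have hf1 := hB7a V F hDP hHT f hE.hf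
  have hf0 : (0 : ℝ) < ‖f‖ := by linarith
  obtain ⟨u, huo, hun, huv, huw⟩ := hHT v w f g hE
  obtain ⟨huf, hug⟩ := b7b_touch hE huo
  obtain ⟨q, hq⟩ : ∃ q : E3, q = (‖f‖ ^ 2)⁻¹ • f := ⟨_, rfl⟩
  rw [← hq]
  have hqf : inner ℝ q f = (1 : ℝ) := by
    rw [hq, real_inner_smul_left, real_inner_self_eq_norm_sq]
    field_simp
  have hqu : ‖q - u‖ ^ 2 = 1 - 1 / ‖f‖ ^ 2 := by rw [hq]; exact b7b_dist hf1 hun huf
  have hrpos : (0 : ℝ) < 1 - 1 / ‖f‖ ^ 2 := by
    rw [sub_pos, div_lt_one (by positivity)]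
    nlinarith
  -- the constant `c`
  obtain ⟨c, hc⟩ : ∃ c : ℝ, g - (inner ℝ g f : ℝ) • q = c • (q - u) := by
    refine ⟨inner ℝ (q - u) (g - (inner ℝ g f : ℝ) • q) / ‖q - u‖ ^ 2, ?_⟩
    rw [← sub_eq_zero]
    have hquf : inner ℝ f (q - u) = (0 : ℝ) := by
      rw [inner_sub_right, real_inner_comm, hqf, real_inner_comm, huf, sub_self]
    have hfw : inner ℝ f (w - v) = (0 : ℝ) := by
      rw [inner_sub_right, real_inner_comm, hE.wf, real_inner_comm, hE.vf, sub_self]
    have hgw : inner ℝ (w - v) g = (0 : ℝ) := by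
      rw [inner_sub_left, hE.wg, hE.vg, sub_self]
    have huw' : inner ℝ (w - v) u = (0 : ℝ) := by
      rw [inner_sub_left, real_inner_comm, huw, real_inner_comm, huv, sub_self]
    have hqw : inner ℝ (w - v) q = (0 : ℝ) := by
      rw [hq, real_inner_smul_right, real_inner_comm, hfw, mul_zero]
    have hne : q - u ≠ 0 := by
      intro h0
      rw [h0, norm_zero] at hqu
      norm_num at hqu
      rw [← one_div] at hqu
      linarith
    apply b7b_orth f (w - v) (q - u)
    · exact norm_pos_iff.mp hf0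
    · exact sub_ne_zero.mpr hE.hvw.symm
    · exact hne
    · exact hfw
    · exact hquf
    · rw [inner_sub_right, hqw, huw', sub_self]
    · rw [inner_sub_right, inner_sub_right, real_inner_smul_right, real_inner_smul_right, hquf,
        real_inner_comm q f, hqf, real_inner_comm g f]
      ring
    · have hquw : inner ℝ (w - v) (q - u) = (0 : ℝ) := by rw [inner_sub_right, hqw, huw', sub_self]
      rw [inner_sub_right, inner_sub_right, real_inner_smul_right, real_inner_smul_right, hgw, hqw, hquw]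
      ring
    · rw [inner_sub_right, real_inner_smul_right, real_inner_self_eq_norm_sq]
      have : ‖q - u‖ ^ 2 ≠ 0 := by rw [hqu]; exact hrpos.ne'
      field_simp
      ring
  -- pairing with `g` on the plane of `f`
  have hpair : ∀ x : E3, inner ℝ x f = (0 : ℝ) → (inner ℝ x g : ℝ) = c * inner ℝ x (q - u) := by
    intro x hx
    have h1 : g = c • (q - u) + (inner ℝ g f : ℝ) • q := by
      rw [← hc]; abel
    have h2 : (inner ℝ x q : ℝ) = 0 := by
      rw [hq, real_inner_smul_right, hx, mul_zero]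
    calc (inner ℝ x g : ℝ) = inner ℝ x (c • (q - u) + (inner ℝ g f : ℝ) • q) := by rw [← h1]
      _ = c * inner ℝ x (q - u) := by
        rw [inner_add_right, real_inner_smul_right, real_inner_smul_right, h2]; ring
  -- another touching point
  obtain ⟨w', g', hE', hlt⟩ : ∃ w' g', E4 V F v w' f g' ∧ inner ℝ w' g < (1 : ℝ) := by
    obtain ⟨w₁, w₂, g₁, g₂, hfl⟩ := hA5 V F hDP v hE.hv f hE.hf hE.vf
    rcases hfl.only w g hE with ⟨rfl, rfl⟩ | ⟨rfl, rfl⟩
    · exact ⟨w₂, g₂, hfl.e₂, hfl.lt₂⟩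
    · exact ⟨w₁, g₁, hfl.e₁, hfl.lt₁⟩
  obtain ⟨u', huo', hun', -, -⟩ := hHT v w' f g' hE'
  obtain ⟨huf', -⟩ := b7b_touch hE' huo'
  have hug' : inner ℝ u' g < (1 : ℝ) := by
    obtain ⟨a, b, ha, hb, hab, hi⟩ := b7b_seg huo'
    rw [hi g, hE.vg]
    have := mul_lt_mul_of_pos_left hlt hb
    linarith
  have hcneg : c < 0 := by
    by_contra hcn
    have hcn : 0 ≤ c := not_lt.mp hcn
    have h1 : inner ℝ (u' - u) f = (0 : ℝ) := by rw [inner_sub_left, huf', huf, sub_self]
    have h2 := hpair (u' - u) h1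
    have h3 : (inner ℝ (u' - u) g : ℝ) < 0 := by rw [inner_sub_left, hug]; linarith
    have h4 : ‖q - u'‖ ^ 2 = 1 - 1 / ‖f‖ ^ 2 := by rw [hq]; exact b7b_dist hf1 hun' huf'
    have h5 : q - u' = (q - u) - (u' - u) := by abel
    rw [h5, norm_sub_sq_real, hqu, real_inner_comm] at h4
    have h6 : 0 ≤ (inner ℝ (u' - u) (q - u) : ℝ) := by nlinarith [sq_nonneg ‖u' - u‖]
    have h7 : 0 ≤ c * (inner ℝ (u' - u) (q - u) : ℝ) := mul_nonneg hcn h6
    linarith
  have hx : inner ℝ (q + y - u) f = (0 : ℝ) := by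
    rw [inner_sub_left, inner_add_left, hqf, hyf, huf]; ring
  have h1 := hpair _ hx
  have h2 : (inner ℝ (q + y - u) (q - u) : ℝ) = inner ℝ y (q - u) + ‖q - u‖ ^ 2 := by
    rw [show q + y - u = y + (q - u) by abel, inner_add_left, real_inner_self_eq_norm_sq]
  have h3 : 0 ≤ (inner ℝ y (q - u) : ℝ) + ‖q - u‖ ^ 2 := by
    have := norm_add_sq_real y (q - u)
    have h4 := sq_nonneg ‖y + (q - u)‖
    rw [hqu] at this ⊢
    linarith
  have h4 : (inner ℝ (q + y) g : ℝ) = 1 + c * (inner ℝ y (q - u) + ‖q - u‖ ^ 2) := by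
    rw [← h2, ← h1, inner_sub_left, hug]; ring
  rw [h4]
  have h5 := mul_nonpos_of_nonpos_of_nonneg hcneg.le h3
  linarith

end Pool.Agent.Lib.MP_af06f6_co
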