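import Mathlib
import Pool.Agent.Lib.MP_af06f6_co.G.Stm2

/-!
# MP_af06f6_co, geometry part, piece B7c
-/

open Set Metric

namespace Pool.Agent.Lib.MP_af06f6_co

/-- every face has a vertex -/
theorem b7c_ne {V F : Finset E3} (h : DP V F) {f : E3} (hf : f ∈ F) : ∃ v ∈ V, inner ℝ v f = (1 : ℝ) := by
  by_contra hno
  push Not at hno
  have hfc : f ∈ convexHull ℝ (F : Set E3) := subset_convexHull ℝ _ hf
  have hle := (h.polF f).mp hfc
  have hlt : ∀ v ∈ V, (inner ℝ v f : ℝ) < 1 := fun v hv => lt_of_le_of_ne (hle v hv) (hno v hv)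
  set d : E3 := EuclideanSpace.single 0 1 with hd
  have hd0 : d ≠ 0 := by
    intro h0
    have : ‖d‖ = 1 := by rw [hd]; simp
    rw [h0] at this
    simp at this
  have hev : ∀ v ∈ V, ∀ᶠ ε : ℝ in nhdsWithin 0 (Ioi 0), (inner ℝ v f : ℝ) + ε * |inner ℝ v d| ≤ 1 := by
    intro v hv
    have hc : Filter.Tendsto (fun ε : ℝ => (inner ℝ v f : ℝ) + ε * |inner ℝ v d|) (nhdsWithin 0 (Ioi 0))
        (nhds ((inner ℝ v f : ℝ) + 0 * |inner ℝ v d|)) := by
      apply Filter.Tendsto.mono_left _ nhdsWithin_le_nhds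
      exact (continuous_const.add (continuous_id.mul continuous_const)).tendsto 0
    have := hc.eventually (gt_mem_nhds (show (inner ℝ v f : ℝ) + 0 * |inner ℝ v d| < 1 by rw [zero_mul, add_zero]; exact hlt v hv))
    exact this.mono fun ε hε => hε.le
  have hev2 : ∀ᶠ ε : ℝ in nhdsWithin 0 (Ioi 0), ∀ v ∈ V, (inner ℝ v f : ℝ) + ε * |inner ℝ v d| ≤ 1 :=
    (Filter.eventually_all_finset V).mpr hev
  obtain ⟨ε, hε, hεp⟩ := (hev2.and self_mem_nhdsWithin).exists
  have hεp : (0 : ℝ) < ε := hεp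
  have hp : f + ε • d ∈ convexHull ℝ (F : Set E3) := by
    rw [h.polF]
    intro v hv
    rw [inner_add_right, real_inner_smul_right]
    have := hε v hv
    have h2 := mul_le_mul_of_nonneg_left (le_abs_self (inner ℝ v d : ℝ)) hεp.le
    linarith
  have hm : f - ε • d ∈ convexHull ℝ (F : Set E3) := by
    rw [h.polF]
    intro v hv
    rw [inner_sub_right, real_inner_smul_right]
    have := hε v hv
    have h2 := mul_le_mul_of_nonneg_left (neg_abs_le (inner ℝ v d : ℝ)) hεp.le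
    linarith
  have hext := h.extF f hf
  have hseg : f ∈ openSegment ℝ (f + ε • d) (f - ε • d) := by
    refine ⟨1 / 2, 1 / 2, by norm_num, by norm_num, by norm_num, ?_⟩
    module
  have := (mem_extremePoints.mp hext).2 _ hp _ hm hseg
  have h0 : ε • d = 0 := by
    have := this.1
    simpa using this
  rcases smul_eq_zero.mp h0 with h1 | h1
  · exact hεp.ne' h1
  · exact hd0 h1

theorem pf_B7c (hA5 : Stm_A5) : Stm_B7c := by
  intro V F hDP f hf x hxf hx
  by_contra hnot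
  have hfin : {v : E3 | v ∈ V ∧ inner ℝ v f = (1 : ℝ)}.Finite :=
    V.finite_toSet.subset fun v hv => hv.1
  have hcomp : IsCompact (convexHull ℝ {v : E3 | v ∈ V ∧ inner ℝ v f = (1 : ℝ)}) :=
    hfin.isCompact_convexHull (𝕜 := ℝ)
  have hxn : x ∉ convexHull ℝ {v : E3 | v ∈ V ∧ inner ℝ v f = (1 : ℝ)} := fun h =>
    hnot (convexHull_mono (fun v hv => hv.1) h)
  obtain ⟨L, s, hL, hs⟩ := geometric_hahn_banach_closed_point (convex_convexHull ℝ _) hcomp.isClosed hxn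
  obtain ⟨v₀, hv₀, hv₀f⟩ := b7c_ne hDP hf
  obtain ⟨v, hv, hmax⟩ := Finset.exists_max_image (star V f) (fun v => L v) ⟨v₀, mem_star.mpr ⟨hv₀, hv₀f⟩⟩
  rw [mem_star] at hv
  obtain ⟨w₁, w₂, g₁, g₂, hfl⟩ := hA5 V F hDP v hv.1 f hf hv.2
  obtain ⟨a, b, ha, hb, hab⟩ := hfl.cone x hxf (hx g₁ hfl.e₁.adjF) (hx g₂ hfl.e₂.adjF)
  have h1 := hmax w₁ (mem_star.mpr ⟨hfl.e₁.hw, hfl.e₁.wf⟩)
  have h2 := hmax w₂ (mem_star.mpr ⟨hfl.e₂.hw, hfl.e₂.wf⟩)
  have h3 : L x - L v = a * (L w₁ - L v) + b * (L w₂ - L v) := by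
    rw [← map_sub, hab, map_add, map_smul, map_smul, map_sub, map_sub, smul_eq_mul, smul_eq_mul]
  have h4 : L v < s := hL v (subset_convexHull ℝ _ hv)
  have h5 : a * (L w₁ - L v) ≤ 0 := mul_nonpos_of_nonneg_of_nonpos ha (by linarith)
  have h6 : b * (L w₂ - L v) ≤ 0 := mul_nonpos_of_nonneg_of_nonpos hb (by linarith)
  linarith

end Pool.Agent.Lib.MP_af06f6_co
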