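import Mathlib
import Pool.Agent.Lib.MP_af06f6_co.G.Swap

/-!
# MP_af06f6_co, geometry part, piece B8: discs do not overlap
-/

open Set Metric

namespace Pool.Agent.Lib.MP_af06f6_co

private theorem b8_key (f g : E3) (hf : 1 < ‖f‖) (hg : 1 < ‖g‖)
    (h : ∀ y : E3, inner ℝ y f = (0 : ℝ) → ‖y‖ ^ 2 ≤ 1 - 1 / ‖f‖ ^ 2 →
      inner ℝ ((‖f‖ ^ 2)⁻¹ • f + y) g ≤ (1 : ℝ)) :
    inner ℝ f g ≤ ‖f‖ ^ 2 ∧ (tl f * tl g) ^ 2 ≤ (1 - inner ℝ f g) ^ 2 := by
  obtain ⟨a, ha⟩ : ∃ a : ℝ, a = inner ℝ f g := ⟨_, rfl⟩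
  obtain ⟨n, hn⟩ : ∃ n : ℝ, n = ‖f‖ := ⟨_, rfl⟩
  obtain ⟨s, hs⟩ : ∃ s : ℝ, s = tl f := ⟨_, rfl⟩
  have hn0 : 0 < n := by rw [hn]; linarith
  have hs0 : 0 < s := by rw [hs]; exact tl_pos hf
  have hs2 : s ^ 2 = n ^ 2 - 1 := by rw [hs, hn]; exact tl_sq hf
  have hff : inner ℝ f f = n ^ 2 := by rw [real_inner_self_eq_norm_sq, hn]
  obtain ⟨p, hp⟩ : ∃ p : E3, p = g - (a / n ^ 2) • f := ⟨_, rfl⟩
  have hpf : inner ℝ p f = (0 : ℝ) := by
    rw [hp, inner_sub_left, real_inner_smul_left, hff, real_inner_comm, ← ha]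
    field_simp
    ring
  have hgp : g = p + (a / n ^ 2) • f := by rw [hp]; abel
  have hpg : inner ℝ p g = ‖p‖ ^ 2 := by
    conv_lhs => rw [hgp]
    rw [inner_add_right, real_inner_smul_right, hpf, real_inner_self_eq_norm_sq]
    ring
  have hg2 : ‖g‖ ^ 2 = ‖p‖ ^ 2 + a ^ 2 / n ^ 2 := by
    rw [← real_inner_self_eq_norm_sq]
    conv_lhs => rw [hgp]
    rw [inner_add_left, inner_add_right, inner_add_right, real_inner_smul_right,
      real_inner_smul_left, real_inner_smul_left, real_inner_smul_right, hpf,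
      real_inner_comm p f, hpf, real_inner_self_eq_norm_sq, hff]
    field_simp
    ring
  -- main inequality
  have main : a + s * n * ‖p‖ ≤ n ^ 2 := by
    by_cases hp0 : ‖p‖ = 0
    · have h0 := h 0 (by simp) (by
        simp only [norm_zero]
        rw [← hn]
        have : (1 : ℝ) / n ^ 2 ≤ 1 := by
          rw [div_le_one (by positivity)]
          nlinarith
        linarith)
      rw [add_zero, real_inner_smul_left, ← ha, ← hn] at h0
      rw [hp0, mul_zero, add_zero]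
      rw [inv_mul_le_iff₀ (by positivity)] at h0
      linarith
    · have hp1 : 0 < ‖p‖ := lt_of_le_of_ne (norm_nonneg _) (Ne.symm hp0)
      have h0 := h ((s / (n * ‖p‖)) • p) (by rw [real_inner_smul_left, hpf, mul_zero]) (by
        rw [norm_smul, Real.norm_of_nonneg (by positivity), ← hn]
        have : (s / (n * ‖p‖) * ‖p‖) ^ 2 = 1 - 1 / n ^ 2 := by
          field_simp
          linarith
        exact this.le)
      rw [inner_add_left, real_inner_smul_left, real_inner_smul_left, hpg, ← ha, ← hn] at h0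
      have h1 : (n ^ 2)⁻¹ * a + s / (n * ‖p‖) * ‖p‖ ^ 2 = (a + s * n * ‖p‖) / n ^ 2 := by
        field_simp
      rw [h1, div_le_one (by positivity)] at h0
      exact h0
  have hle : a ≤ n ^ 2 := by
    have : 0 ≤ s * n * ‖p‖ := by positivity
    linarith
  have hsq : (s * n * ‖p‖) ^ 2 ≤ (n ^ 2 - a) ^ 2 := by
    apply pow_le_pow_left₀ (by positivity)
    linarith
  have hp2 : n ^ 2 * ‖p‖ ^ 2 = n ^ 2 * ‖g‖ ^ 2 - a ^ 2 := by
    rw [hg2]
    field_simp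
    ring
  have htg : tl g ^ 2 = ‖g‖ ^ 2 - 1 := tl_sq hg
  rw [← ha, ← hn, ← hs]
  refine ⟨hle, ?_⟩
  have h3 : (s * n * ‖p‖) ^ 2 = s ^ 2 * (n ^ 2 * ‖g‖ ^ 2 - a ^ 2) := by
    rw [← hp2]; ring
  rw [h3, hs2] at hsq
  rw [mul_pow, hs2, htg]
  have hn2 : 0 < n ^ 2 := by positivity
  have h4 : n ^ 2 * ((n ^ 2 - 1) * (‖g‖ ^ 2 - 1)) ≤ n ^ 2 * (1 - a) ^ 2 := by nlinarith
  exact le_of_mul_le_mul_left h4 hn2

theorem pf_B8 (hB7 : Stm_B7) : Stm_B8 := by
  intro V F hDP hHT f hf g hg hfg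
  obtain ⟨hf1, hf2⟩ := hB7 V F hDP hHT f hf
  obtain ⟨hg1, hg2⟩ := hB7 V F hDP hHT g hg
  obtain ⟨h1, h2⟩ := b8_key f g hf1 hg1 (fun y hy1 hy2 => (hDP.polV _).1 (hf2 y hy1 hy2) g hg)
  obtain ⟨h3, h4⟩ := b8_key g f hg1 hf1 (fun y hy1 hy2 => (hDP.polV _).1 (hg2 y hy1 hy2) f hf)
  rw [real_inner_comm] at h3
  by_contra hcon
  push Not at hcon
  have hs := tl_pos hf1
  have hs' := tl_pos hg1
  have hs2 := tl_sq hf1
  have hs2' := tl_sq hg1
  -- a >= 1 + s s'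
  have h5 : 1 + tl f * tl g ≤ inner ℝ f g := by
    by_contra h6
    push Not at h6
    have h7 : (1 - inner ℝ f g) ^ 2 < (tl f * tl g) ^ 2 := by
      apply sq_lt_sq'
      · linarith
      · linarith
    linarith
  have h8 : tl f * tl g ≤ tl f ^ 2 := by nlinarith
  have h9 : tl f * tl g ≤ tl g ^ 2 := by nlinarith
  have h10 : tl g ≤ tl f := by nlinarith
  have h11 : tl f ≤ tl g := by nlinarith
  have h12 : tl f = tl g := le_antisymm h11 h10
  have h13 : ‖f‖ = ‖g‖ := by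
    have : ‖f‖ ^ 2 = ‖g‖ ^ 2 := by rw [h12] at hs2; linarith
    exact (pow_left_inj₀ (norm_nonneg _) (norm_nonneg _) (by norm_num)).1 this
  have h14 : ‖f - g‖ ^ 2 ≤ 0 := by
    rw [norm_sub_sq_real, h13]
    rw [← h12] at h5
    rw [h12] at hs2
    nlinarith
  have h15 : ‖f - g‖ = 0 := by nlinarith [norm_nonneg (f - g)]
  exact hfg (sub_eq_zero.1 (norm_eq_zero.1 h15))

end Pool.Agent.Lib.MP_af06f6_co
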