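import Mathlib
import Pool.Agent.Lib.MP_af06f6_co.G.Stm2

/-!
# MP_af06f6_co, geometry part: piece C1 (planar closure)
-/

open Set Metric MeasureTheory

namespace Pool.Agent.Lib.MP_af06f6_co

/-- the unit vector of direction `θ` -/
private noncomputable def c1_e (θ : ℝ) : EuclideanSpace ℝ (Fin 2) := !₂[Real.cos θ, Real.sin θ]

private theorem c1_inner (θ : ℝ) (q : EuclideanSpace ℝ (Fin 2)) :
    inner ℝ (c1_e θ) q = Real.cos θ * q 0 + Real.sin θ * q 1 := by
  simp [c1_e, PiLp.inner_apply, Fin.sum_univ_two]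
  ring

private theorem c1_norm (θ : ℝ) : ‖c1_e θ‖ = 1 := by
  rw [EuclideanSpace.norm_eq, Fin.sum_univ_two]
  simp [c1_e]

/-- the argument of a point of the plane -/
private noncomputable def c1_arg (q : EuclideanSpace ℝ (Fin 2)) : ℝ := Complex.arg ⟨q 0, q 1⟩

private theorem c1_cos (θ : ℝ) (q : EuclideanSpace ℝ (Fin 2)) :
    inner ℝ (c1_e θ) q = ‖q‖ * Real.cos (θ - c1_arg q) := by
  rw [c1_inner, Real.cos_sub]
  have h1 : ‖q‖ = ‖(⟨q 0, q 1⟩ : ℂ)‖ := by
    rw [EuclideanSpace.norm_eq, Fin.sum_univ_two, Complex.norm_eq_sqrt_sq_add_sq]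
    simp
  have h2 := Complex.norm_mul_cos_arg (⟨q 0, q 1⟩ : ℂ)
  have h3 := Complex.norm_mul_sin_arg (⟨q 0, q 1⟩ : ℂ)
  rw [← h1] at h2 h3
  simp only at h2 h3
  unfold c1_arg
  linear_combination (-Real.cos θ) * h2 - Real.sin θ * h3

private theorem c1_countable (q : EuclideanSpace ℝ (Fin 2)) (hq : q ≠ 0) :
    {θ : ℝ | inner ℝ (c1_e θ) q = (0 : ℝ)}.Countable := by
  refine (Set.countable_range (fun k : ℤ => (2 * (k : ℝ) + 1) * Real.pi / 2 + c1_arg q)).mono ?_
  intro θ hθ
  simp only [mem_ofPred_eq] at hθ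
  rw [c1_cos, mul_eq_zero, norm_eq_zero] at hθ
  obtain ⟨k, hk⟩ := Real.cos_eq_zero_iff.1 (hθ.resolve_left hq)
  exact ⟨k, by simp only; linarith⟩

theorem pf_C1 (hC1b : Stm_C1b) : Stm_C1 := by
  classical
  intro ι s p t r hr ht hp hd hc
  have hn : ∀ i ∈ s, r < ‖p i‖ := by
    intro i hi
    have := hp i hi
    have := ht i hi
    have := norm_nonneg (p i)
    nlinarith
  have hcos : ∀ i ∈ s, ‖p i‖ * Real.cos (Real.arctan (t i / r)) = r := by
    intro i hi
    rw [Real.cos_arctan]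
    have h1 : 1 + (t i / r) ^ 2 = (‖p i‖ / r) ^ 2 := by
      rw [div_pow, div_pow, hp i hi]
      field_simp
    have h2 : 0 < ‖p i‖ := hr.trans (hn i hi)
    rw [h1, Real.sqrt_sq (by positivity)]
    field_simp
  -- membership in the arcs
  have harc : ∀ i ∈ s, ∀ θ : ℝ, Real.cos (Real.arctan (t i / r)) < Real.cos (θ - c1_arg (p i)) ↔
      r < inner ℝ (c1_e θ) (p i) := by
    intro i hi θ
    rw [c1_cos]
    nth_rewrite 2 [← hcos i hi]
    rw [mul_lt_mul_iff_right₀ (hr.trans (hn i hi))]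
  have hne : ∀ i ∈ s, ∀ j ∈ s, i ≠ j → p i - p j ≠ 0 := by
    intro i hi j hj hij h0
    have := hd i hi j hj hij
    rw [h0, norm_zero] at this
    linarith [ht i hi, ht j hj]
  refine hC1b ι s (fun i => Real.arctan (t i / r)) (fun i => c1_arg (p i))
    (⋃ i ∈ s, ⋃ j ∈ s, ⋃ (_ : i ≠ j), {θ : ℝ | inner ℝ (c1_e θ) (p i - p j) = (0 : ℝ)}) ?_ ?_ ?_ ?_
  · refine s.countable_toSet.biUnion fun i hi => s.countable_toSet.biUnion fun j hj => ?_
    exact Set.countable_iUnion fun hij => c1_countable _ (hne i hi j hj hij)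
  · intro i hi
    have h1 : 0 ≤ t i / r := (div_pos (ht i hi) hr).le
    exact ⟨Real.arctan_nonneg.2 h1, by linarith [Real.arctan_lt_pi_div_two (t i / r), Real.pi_pos]⟩
  · intro θ _ hθ
    by_contra hcon
    push Not at hcon
    have hle : ∀ i ∈ s, inner ℝ (c1_e θ) (p i) ≤ r := by
      intro i hi
      by_contra h
      push Not at h
      exact absurd ((harc i hi θ).2 h) (not_lt.2 (hcon i hi))
    have hy : ‖r • c1_e θ‖ = r := by
      rw [norm_smul, c1_norm, Real.norm_eq_abs, abs_of_pos hr, mul_one]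
    have hmem := hc _ hy
    rw [← Finset.coe_image, Finset.mem_convexHull'] at hmem
    obtain ⟨w, hw0, hw1, hw2⟩ := hmem
    have hS : ∀ q ∈ s.image p, 0 ≤ r - inner ℝ (c1_e θ) q := by
      intro q hq
      obtain ⟨i, hi, rfl⟩ := Finset.mem_image.1 hq
      linarith [hle i hi]
    have hsum : ∑ q ∈ s.image p, w q * (r - inner ℝ (c1_e θ) q) = 0 := by
      have h1 : inner ℝ (c1_e θ) (∑ q ∈ s.image p, w q • q) = (r : ℝ) := by
        rw [hw2, inner_smul_right, real_inner_self_eq_norm_sq, c1_norm]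
        ring
      rw [inner_sum] at h1
      simp_rw [inner_smul_right] at h1
      simp_rw [mul_sub]
      rw [Finset.sum_sub_distrib, ← Finset.sum_mul, hw1, h1]
      ring
    have hz : ∀ q ∈ s.image p, w q * (r - inner ℝ (c1_e θ) q) = 0 :=
      (Finset.sum_eq_zero_iff_of_nonneg fun q hq => mul_nonneg (hw0 q hq) (hS q hq)).1 hsum
    obtain ⟨q0, hq0, hwq0⟩ : ∃ q ∈ s.image p, w q ≠ 0 := by
      apply Finset.exists_ne_zero_of_sum_ne_zero
      rw [hw1]
      exact one_ne_zero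
    have hr0 : inner ℝ (c1_e θ) q0 = r := by
      have := (mul_eq_zero.1 (hz q0 hq0)).resolve_left hwq0
      linarith
    have hother : ∀ q ∈ s.image p, q ≠ q0 → w q = 0 := by
      intro q hq hqq
      obtain ⟨i, hi, rfl⟩ := Finset.mem_image.1 hq
      obtain ⟨j, hj, rfl⟩ := Finset.mem_image.1 hq0
      refine (mul_eq_zero.1 (hz _ hq)).resolve_right fun h => hθ ?_
      simp only [Set.mem_iUnion, mem_ofPred_eq]
      refine ⟨i, hi, j, hj, fun hij => hqq (by rw [hij]), ?_⟩
      rw [inner_sub_right]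
      linarith
    have hw : w q0 = 1 := by
      rw [← hw1, Finset.sum_eq_single_of_mem q0 hq0 hother]
    have hyq : q0 = r • c1_e θ := by
      rw [← hw2, Finset.sum_eq_single_of_mem q0 hq0 (fun q hq hqq => by rw [hother q hq hqq, zero_smul]), hw,
        one_smul]
    obtain ⟨j, hj, hj'⟩ := Finset.mem_image.1 hq0
    have := hn j hj
    rw [hj', hyq, hy] at this
    exact lt_irrefl _ this
  · intro θ _ _ i hi j hj h1 h2
    by_contra hij
    rw [harc i hi] at h1
    rw [harc j hj] at h2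
    have key : ∀ k ∈ s, r < inner ℝ (c1_e θ) (p k) → ‖p k - r • c1_e θ‖ < t k := by
      intro k hk h
      have h3 : ‖p k - r • c1_e θ‖ ^ 2 < t k ^ 2 := by
        rw [norm_sub_sq_real, inner_smul_right, real_inner_comm, norm_smul, c1_norm, Real.norm_eq_abs, abs_of_pos hr,
          hp k hk]
        nlinarith
      exact lt_of_pow_lt_pow_left₀ 2 (ht k hk).le h3
    have h3 := key i hi h1
    have h4 := key j hj h2
    have h5 : ‖p i - p j‖ ≤ ‖p i - r • c1_e θ‖ + ‖p j - r • c1_e θ‖ := by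
      have : p i - p j = (p i - r • c1_e θ) - (p j - r • c1_e θ) := by abel
      rw [this]
      exact norm_sub_le _ _
    linarith [hd i hi j hj hij]

end Pool.Agent.Lib.MP_af06f6_co
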