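import Mathlib
import Pool.Agent.Lib.MP_af06f6_co.G.Stm2

/-!
# MP_af06f6_co, geometry part, piece C1a (measure of an arc)
-/

open Set Metric MeasureTheory

namespace Pool.Agent.Lib.MP_af06f6_co

theorem pf_C1a : Stm_C1a := by
  intro γ μ h0 hπ
  have hpi := Real.pi_pos
  -- the periodic set
  let A : Set ℝ := {θ : ℝ | Real.cos γ < Real.cos (θ - μ)}
  have hAo : IsOpen A := isOpen_lt continuous_const (by fun_prop)
  have hAm : MeasurableSet A := hAo.measurableSet
  have hper : ∀ a : ℝ, volume (A ∩ Ioc a (a + 2 * Real.pi)) =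
      volume (A ∩ Ioc (-Real.pi) (-Real.pi + 2 * Real.pi)) := by
    intro a
    refine (isAddFundamentalDomain_Ioc Real.two_pi_pos a).measure_set_eq
      (isAddFundamentalDomain_Ioc Real.two_pi_pos (-Real.pi)) hAm ?_
    rintro ⟨g, hg⟩
    obtain ⟨k, rfl⟩ := AddSubgroup.mem_zmultiples_iff.1 hg
    ext θ
    show Real.cos γ < Real.cos (k • (2 * Real.pi) + θ - μ) ↔ Real.cos γ < Real.cos (θ - μ)
    rw [show k • (2 * Real.pi) + θ - μ = (θ - μ) + (k : ℝ) * (2 * Real.pi) by
      rw [zsmul_eq_mul]; ring, Real.cos_add_int_mul_two_pi]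
  have h1 : {θ : ℝ | θ ∈ Ioc (-Real.pi) Real.pi ∧ Real.cos γ < Real.cos (θ - μ)} =
      A ∩ Ioc (-Real.pi) (-Real.pi + 2 * Real.pi) := by
    ext θ
    simp only [mem_ofPred_eq, mem_inter_iff, A, mem_Ioc]
    constructor
    · rintro ⟨⟨a, b⟩, c⟩
      exact ⟨c, a, by linarith⟩
    · rintro ⟨c, a, b⟩
      exact ⟨⟨a, by linarith⟩, c⟩
  rw [h1, ← hper (μ - Real.pi)]
  have h2 : A ∩ Ioc (μ - Real.pi) (μ - Real.pi + 2 * Real.pi) = Ioo (μ - γ) (μ + γ) := by
    ext θ
    simp only [mem_ofPred_eq, mem_inter_iff, A, mem_Ioc, mem_Ioo]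
    constructor
    · rintro ⟨c, a, b⟩
      have hc : |θ - μ| < γ := by
        by_contra hcon
        have := Real.cos_le_cos_of_nonneg_of_le_pi h0 (x := γ) (y := |θ - μ|)
          (by rw [abs_le]; constructor <;> linarith) (not_lt.1 hcon)
        rw [Real.cos_abs] at this
        linarith
      rw [abs_lt] at hc
      constructor <;> linarith [hc.1, hc.2]
    · rintro ⟨a, b⟩
      have hc : |θ - μ| < γ := by
        rw [abs_lt]
        constructor <;> linarith
      refine ⟨?_, by linarith, by linarith⟩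
      have := Real.cos_lt_cos_of_nonneg_of_le_pi (abs_nonneg (θ - μ)) hπ hc
      rw [Real.cos_abs] at this
      exact this
  rw [h2, Real.volume_Ioo]
  congr 1
  ring

end Pool.Agent.Lib.MP_af06f6_co
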