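import Mathlib
import Pool.Agent.Lib.MP_af06f6_co.G.Stm2

/-!
# MP_af06f6_co, geometry part, piece C1b
-/

open Set Metric MeasureTheory

namespace Pool.Agent.Lib.MP_af06f6_co

theorem pf_C1b (hC1a : Stm_C1a) : Stm_C1b := by
  intro ι s γ μ N hN hγ hcov hdis
  set A : ι → Set ℝ := fun i => {θ : ℝ | θ ∈ Ioc (-Real.pi) Real.pi ∧ Real.cos (γ i) < Real.cos (θ - μ i)} with hA
  have hm : ∀ i, MeasurableSet (A i) := by
    intro i
    refine measurableSet_Ioc.inter ?_
    have hc : Continuous (fun θ : ℝ => Real.cos (θ - μ i)) := by fun_prop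
    exact (isOpen_lt (continuous_const (y := Real.cos (γ i))) hc).measurableSet
  have hN0 : volume N = 0 := hN.measure_zero volume
  have h1 : volume (⋃ i ∈ s, A i) = ∑ i ∈ s, volume (A i) := by
    refine measure_biUnion_finset₀ ?_ (fun i _ => (hm i).nullMeasurableSet)
    intro i hi j hj hij
    have : A i ∩ A j ⊆ N := by
      rintro θ ⟨⟨hθ, h1⟩, ⟨_, h2⟩⟩
      by_contra hθN
      exact hij (hdis θ hθ hθN i hi j hj h1 h2)
    exact measure_mono_null this hN0
  have h2 : volume (⋃ i ∈ s, A i) = ENNReal.ofReal (2 * Real.pi) := by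
    have hI : volume (Ioc (-Real.pi) Real.pi) = ENNReal.ofReal (2 * Real.pi) := by
      rw [Real.volume_Ioc]
      congr 1
      ring
    apply le_antisymm
    · rw [← hI]
      apply measure_mono
      intro θ hθ
      simp only [mem_iUnion] at hθ
      obtain ⟨i, _, h⟩ := hθ
      exact h.1
    · rw [← hI]
      calc volume (Ioc (-Real.pi) Real.pi) ≤ volume ((⋃ i ∈ s, A i) ∪ N) := by
            apply measure_mono
            intro θ hθ
            by_cases hθN : θ ∈ N
            · exact Or.inr hθN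
            · obtain ⟨i, hi, h⟩ := hcov θ hθ hθN
              exact Or.inl (mem_biUnion (show i ∈ (s : Set ι) from hi) ⟨hθ, h⟩)
        _ ≤ volume (⋃ i ∈ s, A i) + volume N := measure_union_le _ _
        _ = volume (⋃ i ∈ s, A i) := by rw [hN0, add_zero]
  have h3 : ∑ i ∈ s, volume (A i) = ENNReal.ofReal (∑ i ∈ s, 2 * γ i) := by
    rw [ENNReal.ofReal_sum_of_nonneg (fun i hi => by linarith [(hγ i hi).1])]
    exact Finset.sum_congr rfl (fun i hi => hC1a (γ i) (μ i) (hγ i hi).1 (hγ i hi).2)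
  rw [h1, h3] at h2
  have h4 : ∑ i ∈ s, 2 * γ i = 2 * Real.pi := by
    refine (ENNReal.ofReal_eq_ofReal_iff (Finset.sum_nonneg fun i hi => by linarith [(hγ i hi).1])
      (by positivity)).1 h2
  rw [← Finset.mul_sum] at h4
  linarith

end Pool.Agent.Lib.MP_af06f6_co
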