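import Mathlib
import Pool.Agent.Lib.MP_af06f6_co.G.Stm2

/-!
# MP_af06f6_co, geometry part, piece C2 (face closure)
-/

open Set Metric

namespace Pool.Agent.Lib.MP_af06f6_co

theorem pf_C2 (hA1 : Stm_A1) (hB7 : Stm_B7) (hC1 : Stm_C1) (hC2a : Stm_C2a) (hC2b : Stm_C2b) :
    Stm_C2 := by
  intro V F hM f hf
  have hHT : HT V F := by
    intro v w f g hE
    obtain ⟨u, h1, -, h2, h3, h4, -, -⟩ := hM.touch v w f g hE
    exact ⟨u, h1, h2, h3, h4⟩
  have hf1 : 1 < ‖f‖ := hM.one_lt_F f hf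
  have hf0 : 0 < ‖f‖ := by linarith
  have hfne : f ≠ 0 := norm_pos_iff.1 hf0
  obtain ⟨φ, hφn, hφf, hφs⟩ := hC2a f hfne
  -- the centre of the face
  set q : E3 := (‖f‖ ^ 2)⁻¹ • f with hq
  have hqf : inner ℝ q f = (1 : ℝ) := by
    rw [hq, real_inner_smul_left, real_inner_self_eq_norm_sq]
    field_simp
  have hφq : φ q = 0 := by rw [hq, map_smul, hφf, smul_zero]
  set r : ℝ := tl f / ‖f‖ with hr
  have hr0 : 0 < r := div_pos (tl_pos hf1) hf0
  have hr2 : r ^ 2 = 1 - 1 / ‖f‖ ^ 2 := by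
    rw [hr, div_pow, tl_sq hf1]
    field_simp
  have hstar : ∀ v, v ∈ star V f → v ∈ V ∧ inner ℝ v f = (1 : ℝ) := fun v hv => mem_star.1 hv
  have key := hC1 E3 (star V f) (fun v => φ v) (fun v => tl v) r hr0 ?_ ?_ ?_ ?_
  · rw [← key]
    apply Finset.sum_congr rfl
    intro v hv
    rw [← hC2b v f (hM.one_lt_V v (hstar v hv).1) hf1]
  · intro v hv
    exact tl_pos (hM.one_lt_V v (hstar v hv).1)
  · intro v hv
    obtain ⟨hvV, hvf⟩ := hstar v hv
    have hv1 := hM.one_lt_V v hvV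
    have e1 : φ v = φ (v - q) := by rw [map_sub, hφq, sub_zero]
    have e2 : inner ℝ (v - q) f = (0 : ℝ) := by
      rw [inner_sub_left, hvf, hqf, sub_self]
    show ‖φ v‖ ^ 2 = r ^ 2 + tl v ^ 2
    rw [e1, hφn _ e2, norm_sub_sq_real, hr2, tl_sq hv1, hq, real_inner_smul_right, hvf, norm_smul,
      norm_inv, norm_pow, norm_norm]
    field_simp
    ring
  · intro v hv w hw hvw
    obtain ⟨hvV, hvf⟩ := hstar v hv
    obtain ⟨hwV, hwf⟩ := hstar w hw
    have hv1 := hM.one_lt_V v hvV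
    have hw1 := hM.one_lt_V w hwV
    have e2 : inner ℝ (v - w) f = (0 : ℝ) := by
      rw [inner_sub_left, hvf, hwf, sub_self]
    show tl v + tl w ≤ ‖φ v - φ w‖
    rw [← map_sub, hφn _ e2]
    have h3 := hM.inner_V v hvV w hwV hvw
    have h4 : (tl v + tl w) ^ 2 ≤ ‖v - w‖ ^ 2 := by
      rw [norm_sub_sq_real]
      have h5 := tl_sq hv1
      have h6 := tl_sq hw1
      nlinarith
    have h7 := tl_pos hv1
    have h8 := tl_pos hw1
    exact le_of_sq_le_sq h4 (norm_nonneg _)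
  · intro y hy
    obtain ⟨y', hy'f, rfl⟩ := hφs y
    rw [hφn _ hy'f] at hy
    have hx := (hB7 V F hM.toDP hHT f hf).2 y' hy'f (by rw [hy, hr2])
    have hxf : inner ℝ (q + y') f = (1 : ℝ) := by
      rw [inner_add_left, hqf, hy'f, add_zero]
    have hle : ∀ v ∈ V, inner ℝ v f ≤ (1 : ℝ) := fun v hv =>
      (hM.polV v).1 (subset_convexHull ℝ _ hv) f hf
    have hx' := hA1 V f 1 (q + y') hx hle hxf
    have hset : {v : E3 | v ∈ V ∧ inner ℝ v f = (1 : ℝ)} = (star V f : Set E3) := by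
      ext v
      rw [Finset.mem_coe, mem_star]
      rfl
    rw [hset] at hx'
    have himg : φ (q + y') ∈ φ '' convexHull ℝ (star V f : Set E3) := mem_image_of_mem _ hx'
    rw [LinearMap.image_convexHull, map_add, hφq, zero_add] at himg
    exact himg

end Pool.Agent.Lib.MP_af06f6_co
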