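import Mathlib
import Pool.Agent.Lib.MP_af06f6_co.G.Stm2

open Set Metric

namespace Pool.Agent.Lib.MP_af06f6_co

theorem pf_C2a : Stm_C2a := by
  intro f hf
  have _inst : Fact (Module.finrank ℝ E3 = 2 + 1) := ⟨by simp [E3]⟩
  let B := OrthonormalBasis.fromOrthogonalSpanSingleton (𝕜 := ℝ) (E := E3) 2 hf
  let P := ((ℝ ∙ f)ᗮ : Submodule ℝ E3).orthogonalProjectionOnto
  have hP : ∀ (y : E3) (hy : y ∈ ((ℝ ∙ f)ᗮ : Submodule ℝ E3)), P y = ⟨y, hy⟩ := by
    intro y hy
    exact Submodule.orthogonalProjectionOnto_mem_subspace_eq_self (⟨y, hy⟩ : ((ℝ ∙ f)ᗮ : Submodule ℝ E3))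
  refine ⟨B.repr.toLinearEquiv.toLinearMap ∘ₗ P.toLinearMap, ?_, ?_, ?_⟩
  · intro y hy
    have hy' : y ∈ ((ℝ ∙ f)ᗮ : Submodule ℝ E3) :=
      Submodule.mem_orthogonal_singleton_iff_inner_left.2 hy
    change ‖B.repr (P y)‖ = ‖y‖
    rw [LinearIsometryEquiv.norm_map, hP y hy']
    rfl
  · change B.repr (P f) = 0
    have : P f = 0 := Submodule.orthogonalProjectionOnto_eq_zero_iff.2
      (Submodule.le_orthogonal_orthogonal _ (Submodule.mem_span_singleton_self f))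
    rw [this, map_zero]
  · intro z
    refine ⟨(B.repr.symm z : E3), Submodule.mem_orthogonal_singleton_iff_inner_left.1
      (B.repr.symm z).2, ?_⟩
    change B.repr (P (B.repr.symm z : E3)) = z
    rw [hP _ (B.repr.symm z).2]
    exact B.repr.apply_symm_apply z

end Pool.Agent.Lib.MP_af06f6_co
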