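import Mathlib
import Pool.Agent.Lib.MP_af06f6_co.G.Stm2

/-!
# MP_af06f6_co, geometry part, piece C2b (trigonometry)
-/

open Set Metric

namespace Pool.Agent.Lib.MP_af06f6_co

theorem pf_C2b : Stm_C2b := by
  intro v f hv hf
  have hx0 := hx_pos hv
  have hx1 := hx_lt_one hv
  have hz0 := hx_pos hf
  have hz1 := hx_lt_one hf
  rw [tl_eq_hx hv, tl_div_norm hf]
  set x := hx v with hxdef
  set z := hx f with hzdef
  have h1 : 0 < 1 - x ^ 2 := by nlinarith
  have h2 : 0 < 1 + z ^ 2 := by positivity
  have e1 : 2 * x / (1 - x ^ 2) / (2 * z / (1 + z ^ 2)) =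
      ((z / x + -(x * z)) / (1 - z / x * (-(x * z))))⁻¹ := by
    have h3 : 1 - z / x * (-(x * z)) = 1 + z ^ 2 := by
      field_simp
      ring
    rw [h3]
    have h4 : z / x + -(x * z) = z * (1 - x ^ 2) / x := by
      field_simp
      ring
    rw [h4]
    field_simp
  have hpos : 0 < (z / x + -(x * z)) / (1 - z / x * (-(x * z))) := by
    have h3 : 1 - z / x * (-(x * z)) = 1 + z ^ 2 := by
      field_simp
      ring
    have h4 : z / x + -(x * z) = z * (1 - x ^ 2) / x := by
      field_simp
      ring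
    rw [h3, h4]
    positivity
  have hlt : z / x * (-(x * z)) < 1 := by
    have : z / x * (-(x * z)) = - z ^ 2 := by
      field_simp
    rw [this]
    nlinarith
  rw [e1, Real.arctan_inv_of_pos hpos, ← Real.arctan_add hlt, Real.arctan_neg]
  unfold ph th om
  ring

end Pool.Agent.Lib.MP_af06f6_co
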