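import Mathlib
import Pool.Agent.Lib.MP_af06f6_co.G.Swap

open Set Metric

namespace Pool.Agent.Lib.MP_af06f6_co

theorem pf_C3 (hC2 : Stm_C2) : Stm_C3 := by
  intro V F h v hv
  rw [← hC2 F V h.swap v hv]
  apply Finset.sum_congr rfl
  intro f hf
  have hfF := (mem_star.1 hf).1
  have hxp := hx_pos (h.one_lt_V v hv)
  have hzp := hx_pos (h.one_lt_F f hfF)
  unfold ps ph th om
  have h1 : Real.arctan (hx v / hx f) = Real.pi / 2 - Real.arctan (hx f / hx v) := by
    rw [← Real.arctan_inv_of_pos (div_pos hzp hxp), inv_div]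
  rw [h1, mul_comm (hx f) (hx v)]
  ring

end Pool.Agent.Lib.MP_af06f6_co
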