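import Mathlib
import Pool.Agent.Lib.MP_af06f6_co.G.Swap

open Set Metric

namespace Pool.Agent.Lib.MP_af06f6_co

theorem c4_comm (V F : Finset E3) (T : E3 → E3 → ℝ) :
    ∑ f ∈ F, ∑ v ∈ star V f, T v f = ∑ v ∈ V, ∑ f ∈ star F v, T v f := by
  apply Finset.sum_comm'
  intro f v
  rw [mem_star, mem_star']
  tauto

theorem pf_C4 (hA11 : Stm_A11) (hC2 : Stm_C2) (hC3 : Stm_C3) : Stm_C4 := by
  intro V F h
  have hE := hA11 V F h.toDP
  have h1 : ∑ f ∈ F, ∑ v ∈ star V f, ph (hx v) (hx f) = F.card * Real.pi := by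
    rw [Finset.sum_congr rfl (fun f hf => hC2 V F h f hf)]
    simp
  have h2 : ∑ f ∈ F, ∑ v ∈ star V f, ps (hx v) (hx f) = V.card * Real.pi := by
    rw [c4_comm V F (fun v f => ps (hx v) (hx f)), Finset.sum_congr rfl (fun v hv => hC3 V F h v hv)]
    simp
  have h3 : ∑ f ∈ F, ∑ v ∈ star V f, (ph (hx v) (hx f) + ps (hx v) (hx f)) =
      (nflags V F : ℝ) * (Real.pi / 2) + 2 * ∑ f ∈ F, ∑ v ∈ star V f, om (hx v) (hx f) := by
    have h4 : ∀ f ∈ F, ∑ v ∈ star V f, (ph (hx v) (hx f) + ps (hx v) (hx f)) =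
        ((star V f).card : ℝ) * (Real.pi / 2) + 2 * ∑ v ∈ star V f, om (hx v) (hx f) := by
      intro f _
      rw [Finset.mul_sum, ← nsmul_eq_mul, ← Finset.sum_const, ← Finset.sum_add_distrib]
      apply Finset.sum_congr rfl
      intro v _
      unfold ph ps
      ring
    rw [Finset.sum_congr rfl h4, Finset.sum_add_distrib, ← Finset.mul_sum, ← Finset.sum_mul,
      nflags_eq_sum_star]
    push_cast
    ring
  have h5 : ∑ f ∈ F, ∑ v ∈ star V f, (ph (hx v) (hx f) + ps (hx v) (hx f)) =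
      F.card * Real.pi + V.card * Real.pi := by
    rw [← h1, ← h2, ← Finset.sum_add_distrib]
    apply Finset.sum_congr rfl
    intro f _
    rw [Finset.sum_add_distrib]
  rw [h5] at h3
  have h6 : 2 * (V.card : ℝ) + 2 * F.card = nflags V F + 4 := by exact_mod_cast hE
  have h7 : (nflags V F : ℝ) = 2 * (V.card : ℝ) + 2 * F.card - 4 := by linarith
  rw [h7] at h3
  linarith

end Pool.Agent.Lib.MP_af06f6_co
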