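import Mathlib
import Pool.Agent.Lib.MP_af06f6_co.G.Swap

/-!
# MP_af06f6_co, geometry part, piece D1: coordinates exist
-/

open Set Metric

namespace Pool.Agent.Lib.MP_af06f6_co

/-- Two vectors of the three-dimensional space have a common orthogonal unit vector. -/
private theorem d1_unit (x y : E3) : ∃ d : E3, ‖d‖ = 1 ∧ inner ℝ x d = (0 : ℝ) ∧
    inner ℝ y d = (0 : ℝ) := by
  classical
  obtain ⟨U, hU⟩ : ∃ U : Submodule ℝ E3, U = Submodule.span ℝ ({x, y} : Set E3) := ⟨_, rfl⟩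
  have h1 : Module.finrank ℝ U ≤ 2 := by
    have h := finrank_span_finset_le_card (R := ℝ) ({x, y} : Finset E3)
    have h' : ({x, y} : Finset E3).card ≤ 2 := Finset.card_le_two
    rw [hU]
    have h'' : Set.finrank ℝ (↑({x, y} : Finset E3) : Set E3) ≤ 2 := h.trans h'
    rw [Finset.coe_pair] at h''
    exact h''
  have h3 := Submodule.finrank_add_finrank_orthogonal U
  have h4 : Module.finrank ℝ E3 = 3 := by simp [E3]
  have h5 : Uᗮ ≠ ⊥ := by
    intro h
    rw [h, finrank_bot] at h3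
    omega
  obtain ⟨z, hz, hz0⟩ := Submodule.exists_mem_ne_zero_of_ne_bot h5
  have hx : inner ℝ x z = (0 : ℝ) :=
    (Submodule.mem_orthogonal _ _).1 hz x (by rw [hU]; exact Submodule.subset_span (by simp))
  have hy : inner ℝ y z = (0 : ℝ) :=
    (Submodule.mem_orthogonal _ _).1 hz y (by rw [hU]; exact Submodule.subset_span (by simp))
  refine ⟨‖z‖⁻¹ • z, ?_, ?_, ?_⟩
  · rw [norm_smul, norm_inv, norm_norm]
    exact inv_mul_cancel₀ (norm_ne_zero_iff.2 hz0)
  · rw [real_inner_smul_right, hx, mul_zero]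
  · rw [real_inner_smul_right, hy, mul_zero]

theorem pf_D1 : Stm_D1 := by
  intro V F hM f₀ f₁ hA
  obtain ⟨v, w, hE⟩ := hA.exE4F
  obtain ⟨u, -, ⟨α, β, hα, hβ, hαβ, hu'⟩, hu1, -, -, huf, hug⟩ := hM.touch v w f₀ f₁ hE
  have hf1 := hM.one_lt_F f₀ hE.hf
  have hg1 := hM.one_lt_F f₁ hE.hg
  have hs := tl_pos hf1
  have hs' := tl_pos hg1
  have hs2 := tl_sq hf1
  have hs2' := tl_sq hg1
  have huu : inner ℝ u u = (1 : ℝ) := by rw [real_inner_self_eq_norm_sq, hu1]; norm_num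
  have hff : inner ℝ f₀ f₀ = 1 + tl f₀ ^ 2 := by rw [real_inner_self_eq_norm_sq, hs2]; ring
  have hgg : inner ℝ f₁ f₁ = 1 + tl f₁ ^ 2 := by rw [real_inner_self_eq_norm_sq, hs2']; ring
  have hfn : ‖f₀ - u‖ = tl f₀ := by
    have h1 : ‖f₀ - u‖ ^ 2 = tl f₀ ^ 2 := by
      rw [← real_inner_self_eq_norm_sq, inner_sub_left, inner_sub_right, inner_sub_right, hff, huf,
        real_inner_comm, huf, huu]
      ring
    exact (pow_left_inj₀ (norm_nonneg _) hs.le (by norm_num)).1 h1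
  have hgn : ‖f₁ - u‖ = tl f₁ := by
    have h1 : ‖f₁ - u‖ ^ 2 = tl f₁ ^ 2 := by
      rw [← real_inner_self_eq_norm_sq, inner_sub_left, inner_sub_right, inner_sub_right, hgg, hug,
        real_inner_comm, hug, huu]
      ring
    exact (pow_left_inj₀ (norm_nonneg _) hs'.le (by norm_num)).1 h1
  have h0 : α • (f₀ - u) + β • (f₁ - u) = 0 := by
    have h1 : α • (f₀ - u) + β • (f₁ - u) = (α • f₀ + β • f₁) - (α + β) • u := by module
    rw [h1, hu', hαβ, one_smul, sub_self]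
  have h2 : β • (f₁ - u) = - (α • (f₀ - u)) := by
    rw [eq_neg_iff_add_eq_zero, add_comm]
    exact h0
  have h3 : β * tl f₁ = α * tl f₀ := by
    have h4 := congrArg norm h2
    rw [norm_neg, norm_smul, norm_smul, hfn, hgn, Real.norm_of_nonneg hα.le,
      Real.norm_of_nonneg hβ.le] at h4
    exact h4
  have h5 : f₁ - u = - ((tl f₁ / tl f₀) • (f₀ - u)) := by
    have h6 : f₁ - u = β⁻¹ • (β • (f₁ - u)) := by
      rw [smul_smul, inv_mul_cancel₀ hβ.ne', one_smul]
    have h7 : tl f₁ / tl f₀ = β⁻¹ * α := by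
      field_simp
      linarith
    rw [h6, h2, smul_neg, smul_smul, h7]
  obtain ⟨d, hd1, hd2, hd3⟩ := d1_unit u ((tl f₀)⁻¹ • (f₀ - u))
  refine ⟨u, (tl f₀)⁻¹ • (f₀ - u), d, ?_⟩
  refine
    { nT := hu1
      ne := ?_
      nd := hd1
      Te := ?_
      Td := hd2
      ed := hd3
      h₀ := ?_
      h₁ := ?_ }
  · rw [norm_smul, hfn, Real.norm_of_nonneg (by positivity)]
    exact inv_mul_cancel₀ hs.ne'
  · rw [real_inner_smul_right, inner_sub_right, huf, huu, sub_self, mul_zero]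
  · rw [smul_smul, mul_inv_cancel₀ hs.ne', one_smul]
    abel
  · rw [smul_smul, ← div_eq_mul_inv]
    rw [sub_eq_iff_eq_add] at h5
    rw [sub_eq_add_neg, add_comm]
    exact h5

end Pool.Agent.Lib.MP_af06f6_co
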