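import Mathlib
import Pool.Agent.Lib.MP_af06f6_co.G.Swap

/-!
# MP_af06f6_co, piece D2: coordinates of a face adjacent to two adjacent faces
-/

open Set Metric

namespace Pool.Agent.Lib.MP_af06f6_co

/-- Parseval for three orthonormal vectors of `E3`. -/
theorem d2_parseval (T e d g : E3) (nT : ‖T‖ = 1) (ne : ‖e‖ = 1) (nd : ‖d‖ = 1)
    (Te : inner ℝ T e = (0 : ℝ)) (Td : inner ℝ T d = (0 : ℝ)) (ed : inner ℝ e d = (0 : ℝ)) :
    ‖g‖ ^ 2 = (inner ℝ g T : ℝ) ^ 2 + (inner ℝ g e : ℝ) ^ 2 + (inner ℝ g d : ℝ) ^ 2 := by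
  have eT : inner ℝ e T = (0 : ℝ) := by rw [real_inner_comm]; exact Te
  have dT : inner ℝ d T = (0 : ℝ) := by rw [real_inner_comm]; exact Td
  have de : inner ℝ d e = (0 : ℝ) := by rw [real_inner_comm]; exact ed
  have hon : Orthonormal ℝ (![T, e, d] : Fin 3 → E3) := by
    constructor
    · intro i
      fin_cases i <;> simp [nT, ne, nd]
    · intro i j hij
      fin_cases i <;> fin_cases j <;> simp_all
  have hcard : Fintype.card (Fin 3) = Module.finrank ℝ E3 := by
    simp [E3]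
  let b0 : Module.Basis (Fin 3) ℝ E3 := basisOfOrthonormalOfCardEqFinrank hon hcard
  have hb0 : (b0 : Fin 3 → E3) = ![T, e, d] :=
    coe_basisOfOrthonormalOfCardEqFinrank hon hcard
  let b : OrthonormalBasis (Fin 3) ℝ E3 := b0.toOrthonormalBasis (by rw [hb0]; exact hon)
  have hb : (b : Fin 3 → E3) = ![T, e, d] := by
    rw [Module.Basis.coe_toOrthonormalBasis]
    exact hb0
  have h := b.sum_sq_inner_left g
  rw [← h]
  simp only [Fin.sum_univ_three, hb]
  simp

theorem pf_D2 : Stm_D2 := by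
  intro V F hM f₀ f₁ T e d hC g hg0 hg1
  have hf0 : f₀ ∈ F := hg0.2.1
  have hf1 : f₁ ∈ F := hg1.2.1
  have hgF : g ∈ F := hg0.1
  have s0 : 0 < tl f₀ := tl_pos (hM.one_lt_F _ hf0)
  have s1 : 0 < tl f₁ := tl_pos (hM.one_lt_F _ hf1)
  have s : 0 < tl g := tl_pos (hM.one_lt_F _ hgF)
  have hsq := tl_sq (hM.one_lt_F _ hgF)
  have e0 := hM.adj_F _ _ hg0
  have e1 := hM.adj_F _ _ hg1
  have hP := d2_parseval T e d g hC.nT hC.ne hC.nd hC.Te hC.Td hC.ed
  have i0 : inner ℝ g f₀ = inner ℝ g T + tl f₀ * inner ℝ g e := by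
    conv_lhs => rw [hC.h₀]
    rw [inner_add_right, inner_smul_right]
  have i1 : inner ℝ g f₁ = inner ℝ g T - tl f₁ * inner ℝ g e := by
    conv_lhs => rw [hC.h₁]
    rw [inner_sub_right, inner_smul_right]
  rw [i0] at e0
  rw [i1] at e1
  generalize (inner ℝ g T : ℝ) = p at *
  generalize (inner ℝ g e : ℝ) = q at *
  generalize (inner ℝ g d : ℝ) = r at *
  generalize tl f₀ = a at *
  generalize tl f₁ = b at *
  generalize tl g = c at *
  have hab : 0 < a + b := by linarith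
  have hq : q = - c * ((a - b) / (a + b)) := by
    field_simp
    linarith
  have hp : p = 1 - 2 * (a * b / (a + b)) * c := by
    have : p = 1 - c * a - a * q := by linarith
    rw [this, hq]
    field_simp
    ring
  refine ⟨hp, hq, ?_⟩
  have hr : r ^ 2 = 1 + c ^ 2 - p ^ 2 - q ^ 2 := by linarith
  have : (r / (2 * c)) ^ 2 = (1 + c ^ 2 - p ^ 2 - q ^ 2) / (4 * c ^ 2) := by
    rw [div_pow, hr]
    ring
  rw [this, hp, hq]
  field_simp
  ring

end Pool.Agent.Lib.MP_af06f6_co
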