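import Mathlib
import Pool.Agent.Lib.MP_af06f6_co.G.Swap

/-!
# MP_af06f6_co, geometry part, piece D3
-/

open Set Metric

namespace Pool.Agent.Lib.MP_af06f6_co

theorem d3_inner {T e d : E3} (nT : ‖T‖ = 1) (ne : ‖e‖ = 1) (nd : ‖d‖ = 1)
    (Te : inner ℝ T e = (0 : ℝ)) (Td : inner ℝ T d = (0 : ℝ)) (ed : inner ℝ e d = (0 : ℝ))
    (x y : E3) : inner ℝ x y = inner ℝ x T * inner ℝ y T + inner ℝ x e * inner ℝ y e +
      inner ℝ x d * inner ℝ y d := by
  have hv : Orthonormal ℝ (![T, e, d] : Fin 3 → E3) := by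
    constructor
    · intro i
      fin_cases i <;> simpa
    · intro i j hij
      fin_cases i <;> fin_cases j <;> simp_all [real_inner_comm]
  have hc : Fintype.card (Fin 3) = Module.finrank ℝ E3 := by simp
  set b := basisOfOrthonormalOfCardEqFinrank hv hc with hb
  have hb' : (b : Fin 3 → E3) = ![T, e, d] := coe_basisOfOrthonormalOfCardEqFinrank hv hc
  have ho : Orthonormal ℝ b := by rw [hb']; exact hv
  have h := (b.toOrthonormalBasis ho).sum_inner_mul_inner x y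
  rw [Fin.sum_univ_three] at h
  simp only [Module.Basis.coe_toOrthonormalBasis, hb'] at h
  simp only [Matrix.cons_val_zero, Matrix.cons_val_one, Matrix.cons_val] at h
  rw [← h, real_inner_comm T y, real_inner_comm e y, real_inner_comm d y]

theorem pf_D3 (hD2 : Stm_D2) : Stm_D3 := by
  intro V F hM f₀ f₁ T e d hC g g' hg0 hg1 hg0' hg1' hne
  obtain ⟨a1, a2, a3⟩ := hD2 V F hM f₀ f₁ T e d hC g hg0 hg1
  obtain ⟨b1, b2, b3⟩ := hD2 V F hM f₀ f₁ T e d hC g' hg0' hg1'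
  have hs := tl_pos (hM.one_lt_F g hg0.1)
  have hs' := tl_pos (hM.one_lt_F g' hg0'.1)
  have hs0 := tl_pos (hM.one_lt_F f₀ hg0.2.1)
  have hs1 := tl_pos (hM.one_lt_F f₁ hg1.2.1)
  have hin := d3_inner hC.nT hC.ne hC.nd hC.Te hC.Td hC.ed g g'
  have hk : ((tl f₀ - tl f₁) / (tl f₀ + tl f₁)) ^ 2 = 1 - 4 * (tl f₁ * tl f₀ / (tl f₀ + tl f₁) ^ 2) := by
    have : tl f₀ + tl f₁ ≠ 0 := by positivity
    field_simp
    ring
  set h := tl f₀ * tl f₁ / (tl f₀ + tl f₁) with hh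
  set q := tl f₁ * tl f₀ / (tl f₀ + tl f₁) ^ 2 with hq
  set k := (tl f₀ - tl f₁) / (tl f₀ + tl f₁) with hk0
  set s := tl g
  set s' := tl g'
  set ξ := inner ℝ g d / (2 * s) with hξ
  set ξ' := inner ℝ g' d / (2 * s') with hξ'
  have c1 : inner ℝ g d = 2 * s * ξ := by rw [hξ]; field_simp
  have c2 : inner ℝ g' d = 2 * s' * ξ' := by rw [hξ']; field_simp
  rw [a1, a2, b1, b2, c1, c2] at hin
  have e1 : h = s * (ξ ^ 2 + h ^ 2 - q) := by
    rw [← a3]; field_simp
  have e2 : h = s' * (ξ' ^ 2 + h ^ 2 - q) := by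
    rw [← b3]; field_simp
  have key : inner ℝ g g' - (1 - s * s') = 2 * (s * s') * (1 - (ξ - ξ') ^ 2) := by
    rw [hin]
    linear_combination s * s' * hk - 2 * s * e2 - 2 * s' * e1
  have hss : 0 < 2 * (s * s') := by positivity
  refine ⟨?_, fun had => ?_⟩
  · have h1 := hM.inner_F g hg0.1 g' hg0'.1 hne
    have h2 : 2 * (s * s') * (1 - (ξ - ξ') ^ 2) ≤ 0 := by
      rw [← key]; linarith
    by_contra hcon
    push Not at hcon
    have := mul_pos hss (show 0 < 1 - (ξ - ξ') ^ 2 by linarith)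
    linarith
  · have h1 := hM.adj_F g g' had
    have h2 : 2 * (s * s') * (1 - (ξ - ξ') ^ 2) = 0 := by
      rw [← key]; linarith
    rcases mul_eq_zero.1 h2 with h3 | h3
    · exact absurd h3 hss.ne'
    · linarith

end Pool.Agent.Lib.MP_af06f6_co
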