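import Mathlib
import Pool.Agent.Lib.MP_af06f6_co.G.Swap

/-!
# MP_af06f6_co, geometry part, piece D4: the two common vertices
-/

open Set Metric

namespace Pool.Agent.Lib.MP_af06f6_co

private theorem d4_decomp {T e d : E3} (nT : ‖T‖ = 1) (ne : ‖e‖ = 1) (nd : ‖d‖ = 1)
    (Te : inner ℝ T e = (0 : ℝ)) (Td : inner ℝ T d = (0 : ℝ)) (ed : inner ℝ e d = (0 : ℝ)) (x : E3) :
    x = (inner ℝ x T : ℝ) • T + (inner ℝ x e : ℝ) • e + (inner ℝ x d : ℝ) • d := by
  have hon : Orthonormal ℝ ![T, e, d] := by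
    constructor
    · intro i
      fin_cases i
      · exact nT
      · exact ne
      · exact nd
    · intro i j hij
      fin_cases i <;> fin_cases j
      · exact absurd rfl hij
      · exact Te
      · exact Td
      · show inner ℝ e T = (0 : ℝ)
        rw [real_inner_comm]
        exact Te
      · exact absurd rfl hij
      · exact ed
      · show inner ℝ d T = (0 : ℝ)
        rw [real_inner_comm]
        exact Td
      · show inner ℝ d e = (0 : ℝ)
        rw [real_inner_comm]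
        exact ed
      · exact absurd rfl hij
  have hcard : Fintype.card (Fin 3) = Module.finrank ℝ E3 := by simp
  have hsp : (⊤ : Submodule ℝ E3) ≤ Submodule.span ℝ (Set.range ![T, e, d]) :=
    (hon.linearIndependent.span_eq_top_of_card_eq_finrank hcard).ge
  let b : OrthonormalBasis (Fin 3) ℝ E3 := OrthonormalBasis.mk hon hsp
  have h := b.sum_repr' x
  have hb : (b : Fin 3 → E3) = ![T, e, d] := OrthonormalBasis.coe_mk hon hsp
  rw [hb, Fin.sum_univ_three] at h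
  have h2 : (inner ℝ T x : ℝ) • T + (inner ℝ e x : ℝ) • e + (inner ℝ d x : ℝ) • d = x := h
  rw [real_inner_comm T x, real_inner_comm e x, real_inner_comm d x]
  exact h2.symm

private theorem d4_vertex {V F : Finset E3} (hM : Mid V F) {f₀ f₁ T e d : E3}
    (hC : Coord V F f₀ f₁ T e d) (h0 : f₀ ∈ F) (h1 : f₁ ∈ F) {C : E3} (hCV : C ∈ V)
    (g0 : inner ℝ C f₀ = (1 : ℝ)) (g1 : inner ℝ C f₁ = (1 : ℝ)) :
    C = T + (inner ℝ C d : ℝ) • d ∧ tl C = |(inner ℝ C d : ℝ)| := by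
  have s0 := tl_pos (hM.one_lt_F f₀ h0)
  have s1 := tl_pos (hM.one_lt_F f₁ h1)
  rw [hC.h₀, inner_add_right, inner_smul_right] at g0
  rw [hC.h₁, inner_sub_right, inner_smul_right] at g1
  have e1 : (inner ℝ C e : ℝ) = 0 := by
    have h : (tl f₀ + tl f₁) * (inner ℝ C e : ℝ) = 0 := by linarith
    rcases mul_eq_zero.1 h with h | h
    · linarith
    · exact h
  have e2 : (inner ℝ C T : ℝ) = 1 := by
    rw [e1, mul_zero, add_zero] at g0
    exact g0
  have e3 := d4_decomp hC.nT hC.ne hC.nd hC.Te hC.Td hC.ed C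
  rw [e1, e2, one_smul, zero_smul, add_zero] at e3
  refine ⟨e3, ?_⟩
  have e4 : ‖C‖ ^ 2 = 1 + (inner ℝ C d : ℝ) ^ 2 := by
    have h : (inner ℝ C C : ℝ) = inner ℝ C (T + (inner ℝ C d : ℝ) • d) := by rw [← e3]
    rw [real_inner_self_eq_norm_sq, inner_add_right, inner_smul_right, e2] at h
    rw [h]
    ring
  have e5 := tl_sq (hM.one_lt_V C hCV)
  have e6 := tl_pos (hM.one_lt_V C hCV)
  rw [e4] at e5
  have e7 : tl C ^ 2 = (inner ℝ C d : ℝ) ^ 2 := by linarith
  rw [← abs_of_pos e6]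
  exact (sq_eq_sq_iff_abs_eq_abs _ _).1 e7

theorem pf_D4 (hD2 : Stm_D2) : Stm_D4 := by
  intro V F hM f₀ f₁ T e d hC hA
  have h0 : f₀ ∈ F := hA.1
  have h1 : f₁ ∈ F := hA.2.1
  have s0 := tl_pos (hM.one_lt_F f₀ h0)
  have s1 := tl_pos (hM.one_lt_F f₁ h1)
  obtain ⟨v, w, hE⟩ := hA.exE4F
  obtain ⟨u, hu1, hu2, hun, -, -, -, -⟩ := hM.touch v w f₀ f₁ hE
  -- the touching point is `T`
  have huT : u = T := by
    obtain ⟨a, b, ha, hb, hab, hu⟩ := hu2
    rw [hC.h₀, hC.h₁] at hu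
    have e1 : u = T + (a * tl f₀ - b * tl f₁) • e := by
      rw [← hu]
      have hb' : b = 1 - a := by linarith
      rw [hb']
      module
    have e2 : ‖u‖ ^ 2 = 1 + (a * tl f₀ - b * tl f₁) ^ 2 := by
      rw [← real_inner_self_eq_norm_sq, e1, inner_add_left, inner_add_right, inner_add_right,
        inner_smul_right, inner_smul_left, inner_smul_left, inner_smul_right, hC.Te,
        real_inner_comm T e, hC.Te, real_inner_self_eq_norm_sq, real_inner_self_eq_norm_sq, hC.nT,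
        hC.ne]
      simp
      ring
    rw [hun] at e2
    have e3 : a * tl f₀ - b * tl f₁ = 0 := by
      have : (a * tl f₀ - b * tl f₁) ^ 2 = 0 := by linarith
      exact pow_eq_zero_iff (two_ne_zero) |>.1 this
    rw [e1, e3, zero_smul, add_zero]
  rw [huT] at hu1
  obtain ⟨v1, v2⟩ := d4_vertex hM hC h0 h1 hE.hv hE.vf hE.vg
  obtain ⟨w1, w2⟩ := d4_vertex hM hC h0 h1 hE.hw hE.wf hE.wg
  have tv := tl_pos (hM.one_lt_V v hE.hv)
  have tw := tl_pos (hM.one_lt_V w hE.hw)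
  obtain ⟨a, b, ha, hb, hab, hT⟩ := hu1
  have hd : a * (inner ℝ v d : ℝ) + b * (inner ℝ w d : ℝ) = 0 := by
    have := hC.Td
    rw [← hT, inner_add_left, inner_smul_left, inner_smul_left] at this
    simpa using this
  -- the main part for a given order
  have main : ∀ C ∈ V, ∀ C' ∈ V, C ≠ C' → inner ℝ C f₀ = (1 : ℝ) → inner ℝ C f₁ = (1 : ℝ) →
      inner ℝ C' f₀ = (1 : ℝ) → inner ℝ C' f₁ = (1 : ℝ) → 0 < (inner ℝ C d : ℝ) →
      (inner ℝ C' d : ℝ) < 0 →
      ∃ C ∈ V, ∃ C' ∈ V, C ≠ C' ∧ C = T + tl C • d ∧ C' = T - tl C' • d ∧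
    inner ℝ C f₀ = (1 : ℝ) ∧ inner ℝ C f₁ = (1 : ℝ) ∧ inner ℝ C' f₀ = (1 : ℝ) ∧ inner ℝ C' f₁ = (1 : ℝ) ∧
    (∀ g, Adj F V g f₀ → Adj F V g f₁ →
      inner ℝ g d / (2 * tl g) ≤ (tl f₀ * tl f₁ / (tl f₀ + tl f₁)) / tl C ∧
      - ((tl f₀ * tl f₁ / (tl f₀ + tl f₁)) / tl C') ≤ inner ℝ g d / (2 * tl g) ∧
      (inner ℝ C g = (1 : ℝ) → inner ℝ g d / (2 * tl g) = (tl f₀ * tl f₁ / (tl f₀ + tl f₁)) / tl C) ∧
      (inner ℝ C' g = (1 : ℝ) → inner ℝ g d / (2 * tl g) = - ((tl f₀ * tl f₁ / (tl f₀ + tl f₁)) / tl C'))) := by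
    intro C hCV C' hCV' hne c0 c1 c0' c1' hpos hneg
    obtain ⟨x1, x2⟩ := d4_vertex hM hC h0 h1 hCV c0 c1
    obtain ⟨y1, y2⟩ := d4_vertex hM hC h0 h1 hCV' c0' c1'
    have tC := tl_pos (hM.one_lt_V C hCV)
    have tC' := tl_pos (hM.one_lt_V C' hCV')
    rw [abs_of_pos hpos] at x2
    rw [abs_of_neg hneg] at y2
    have X : C = T + tl C • d := by rw [x2]; exact x1
    have Y : C' = T - tl C' • d := by
      rw [y2, neg_smul, sub_neg_eq_add]
      exact y1
    refine ⟨C, hCV, C', hCV', hne, X, Y, c0, c1, c0', c1', ?_⟩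
    intro g hg0 hg1
    have hgF : g ∈ F := hg0.1
    have tg := tl_pos (hM.one_lt_F g hgF)
    obtain ⟨z1, -, -⟩ := hD2 V F hM f₀ f₁ T e d hC g hg0 hg1
    set h : ℝ := tl f₀ * tl f₁ / (tl f₀ + tl f₁) with hh
    have i1 : (inner ℝ C g : ℝ) ≤ 1 := (hM.polV C).1 (subset_convexHull ℝ _ hCV) g hgF
    have i2 : (inner ℝ C' g : ℝ) ≤ 1 := (hM.polV C').1 (subset_convexHull ℝ _ hCV') g hgF
    have j1 : (inner ℝ C g : ℝ) = 1 - 2 * h * tl g + tl C * inner ℝ g d := by
      rw [X, inner_add_left, inner_smul_left, ← X, real_inner_comm g T, z1, real_inner_comm g d]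
      simp
    have j2 : (inner ℝ C' g : ℝ) = 1 - 2 * h * tl g - tl C' * inner ℝ g d := by
      rw [Y, inner_sub_left, inner_smul_left, ← Y, real_inner_comm g T, z1, real_inner_comm g d]
      simp
    refine ⟨?_, ?_, ?_, ?_⟩
    · rw [div_le_div_iff₀ (by positivity) tC]
      nlinarith
    · rw [← neg_div, div_le_div_iff₀ tC' (by positivity)]
      nlinarith
    · intro hi
      rw [div_eq_div_iff (by positivity) tC.ne']
      nlinarith
    · intro hi
      rw [← neg_div, div_eq_div_iff (by positivity) tC'.ne']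
      nlinarith
  have hvd : (inner ℝ v d : ℝ) ≠ 0 := by
    intro h
    rw [h, abs_zero] at v2
    linarith
  rcases lt_or_gt_of_ne hvd with hlt | hgt
  · -- `w` is the positive one
    have : 0 < (inner ℝ w d : ℝ) := by
      by_contra hcon
      push Not at hcon
      nlinarith [mul_neg_of_pos_of_neg ha hlt, mul_nonpos_of_nonneg_of_nonpos hb.le hcon]
    exact main w hE.hw v hE.hv hE.hvw.symm hE.wf hE.wg hE.vf hE.vg this hlt
  · have : (inner ℝ w d : ℝ) < 0 := by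
      by_contra hcon
      push Not at hcon
      nlinarith [mul_pos ha hgt, mul_nonneg hb.le hcon]
    exact main v hE.hv w hE.hw hE.hvw hE.vf hE.vg hE.wf hE.wg hgt this

end Pool.Agent.Lib.MP_af06f6_co
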