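import Mathlib
import Pool.Agent.Lib.MP_af06f6_co.G.Swap

/-!
# MP_af06f6_co, piece A8: a generic functional
-/

open Set Metric

namespace Pool.Agent.Lib.MP_af06f6_co

private theorem a8_orth_ne_top {d : E3} (hd : d ≠ 0) : (Submodule.span ℝ {d})ᗮ ≠ ⊤ := by
  intro h
  rw [Submodule.orthogonal_eq_top_iff, Submodule.span_singleton_eq_bot] at h
  exact hd h

private theorem a8_span_ne_top (f g : E3) : Submodule.span ℝ {f, g} ≠ (⊤ : Submodule ℝ E3) := by
  classical
  intro h
  have h1 : Module.finrank ℝ (Submodule.span ℝ {f, g} : Submodule ℝ E3) ≤ 2 := by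
    have h2 := finrank_span_finset_le_card (R := ℝ) ({f, g} : Finset E3)
    rw [Finset.coe_insert, Finset.coe_singleton] at h2
    exact h2.trans Finset.card_le_two
  rw [h, finrank_top, finrank_euclideanSpace, Fintype.card_fin] at h1
  omega

theorem pf_A8 : Stm_A8 := by
  classical
  intro V F
  set s : Finset (Submodule ℝ E3) :=
    ((V ×ˢ V).filter (fun p => p.1 ≠ p.2)).image (fun p => (Submodule.span ℝ {p.1 - p.2})ᗮ) ∪
      (F ×ˢ F).image (fun p => Submodule.span ℝ {p.1, p.2}) with hs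
  have htop : (⊤ : Submodule ℝ E3) ∉ s := by
    rw [hs, Finset.mem_union, Finset.mem_image, Finset.mem_image]
    rintro (⟨p, hp, h⟩ | ⟨p, hp, h⟩)
    · exact a8_orth_ne_top (sub_ne_zero.2 (Finset.mem_filter.1 hp).2) h
    · exact a8_span_ne_top _ _ h
  have hne := Subspace.biUnion_ne_univ_of_top_notMem (s := s) htop
  obtain ⟨l, hl⟩ := (Set.ne_univ_iff_exists_notMem _).1 hne
  simp only [Set.mem_iUnion, not_exists] at hl
  refine ⟨l, ?_, ?_⟩
  · intro v hv w hw hvw h
    refine hl (Submodule.span ℝ {v - w})ᗮ ?_ ?_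
    · rw [hs, Finset.mem_union]
      left
      rw [Finset.mem_image]
      exact ⟨(v, w), Finset.mem_filter.2 ⟨Finset.mk_mem_product hv hw, hvw⟩, rfl⟩
    · show l ∈ (Submodule.span ℝ {v - w})ᗮ
      rw [Submodule.mem_orthogonal_singleton_iff_inner_right, inner_sub_left, h, sub_self]
  · intro f hf g hg h
    refine hl (Submodule.span ℝ {f, g}) ?_ h
    rw [hs, Finset.mem_union]
    right
    rw [Finset.mem_image]
    exact ⟨(f, g), Finset.mk_mem_product hf hg, rfl⟩

end Pool.Agent.Lib.MP_af06f6_co
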