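import Mathlib
import Pool.Agent.Lib.MP_af06f6_co.G.Swap

/-!
# MP_af06f6_co, piece B4: the vertices of an edge-tangent polytope have norm > 1
-/

open Set Metric Filter Topology

namespace Pool.Agent.Lib.MP_af06f6_co

private theorem b4_le_one {V F : Finset E3} (h : DP V F) {w f : E3} (hw : w ∈ V) (hf : f ∈ F) :
    inner ℝ w f ≤ (1 : ℝ) :=
  (h.polV w).1 (subset_convexHull ℝ _ hw) f hf

/-- first order condition along a segment outside the unit ball -/
private theorem b4_edge {v w : E3} (hv : ‖v‖ = 1)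
    (hd : Disjoint (segment ℝ v w) (ball (0 : E3) 1)) : 1 ≤ inner ℝ v w := by
  have key : ∀ t : ℝ, 0 ≤ t → t ≤ 1 → 1 ≤ ‖v + t • (w - v)‖ := by
    intro t h0 h1
    have hmem : v + t • (w - v) ∈ segment ℝ v w := by
      rw [segment_eq_image']
      exact ⟨t, ⟨h0, h1⟩, rfl⟩
    by_contra hlt
    exact Set.disjoint_left.1 hd hmem (by rw [mem_ball_zero_iff]; exact not_le.1 hlt)
  have key2 : ∀ t : ℝ, 0 ≤ t → t ≤ 1 → 0 ≤ 2 * t * inner ℝ v (w - v) + t ^ 2 * ‖w - v‖ ^ 2 := by
    intro t h0 h1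
    have h2 := key t h0 h1
    have h3 : ‖v + t • (w - v)‖ ^ 2 = 1 + 2 * t * inner ℝ v (w - v) + t ^ 2 * ‖w - v‖ ^ 2 := by
      rw [norm_add_sq_real, hv, inner_smul_right, norm_smul, mul_pow, Real.norm_eq_abs, sq_abs]
      ring
    nlinarith [norm_nonneg (v + t • (w - v))]
  have h4 : 0 ≤ inner ℝ v (w - v) := by
    by_contra hneg
    have hneg' := not_le.1 hneg
    set x : ℝ := inner ℝ v (w - v) with hx
    set n : ℝ := ‖w - v‖ ^ 2 with hn
    have hn0 : 0 ≤ n := by positivity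
    set t : ℝ := min 1 (-x / (n + 1)) with ht
    have ht0 : 0 < t := lt_min one_pos (div_pos (by linarith) (by linarith))
    have ht1 : t ≤ 1 := min_le_left _ _
    have ht2 : t * (n + 1) ≤ -x := by
      have := min_le_right (1 : ℝ) (-x / (n + 1))
      rw [← ht] at this
      rwa [le_div_iff₀ (by linarith)] at this
    have h5 := key2 t ht0.le ht1
    have h6 : t * (2 * x + t * n) < 0 := by
      apply mul_neg_of_pos_of_neg ht0
      nlinarith
    nlinarith
  rw [inner_sub_right, real_inner_self_eq_norm_sq, hv] at h4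
  linarith

theorem pf_B4 (hA1 : Stm_A1) (hA4 : Stm_A4) (hA5 : Stm_A5) (hA6 : Stm_A6) (hB3 : Stm_B3) :
    Stm_B4 := by
  classical
  intro V F hDP hET v hv
  have hcard := hA4 V F hDP v hv
  have hdisj : ∀ w f g, E4 V F v w f g → Disjoint (segment ℝ v w) (ball (0 : E3) 1) :=
    fun w f g hE => (hET _ (hB3 V F hDP v w f g hE)).2
  -- norm at least one
  obtain ⟨f₀, hf₀⟩ : (star F v).Nonempty := Finset.card_pos.1 (by omega)
  have hf₀' := mem_star'.1 hf₀
  obtain ⟨w₁, w₂, g₁, g₂, hfl⟩ := hA5 V F hDP v hv f₀ hf₀'.1 hf₀'.2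
  have hge : 1 ≤ ‖v‖ := by
    by_contra hlt
    exact Set.disjoint_left.1 (hdisj _ _ _ hfl.e₁) (left_mem_segment ℝ v w₁)
      (by rw [mem_ball_zero_iff]; exact not_le.1 hlt)
  by_contra hle
  have hv1 : ‖v‖ = 1 := le_antisymm (not_lt.1 hle) hge
  have hvv : inner ℝ v v = (1 : ℝ) := by rw [real_inner_self_eq_norm_sq, hv1]; norm_num
  -- all vertices of faces through v
  have hface : ∀ f ∈ F, inner ℝ v f = (1 : ℝ) → ∀ w ∈ V, inner ℝ w f = (1 : ℝ) →
      1 ≤ inner ℝ v w := by
    intro f hf hvf w hw hwf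
    obtain ⟨a₁, a₂, b₁, b₂, hF⟩ := hA5 V F hDP v hv f hf hvf
    have h1 := b4_edge hv1 (hdisj _ _ _ hF.e₁)
    have h2 := b4_edge hv1 (hdisj _ _ _ hF.e₂)
    have h3 := hA6 V F hDP v f a₁ a₂ b₁ b₂ hF (-v)
      (by rw [inner_neg_right, inner_neg_right, hvv, real_inner_comm]; linarith)
      (by rw [inner_neg_right, inner_neg_right, hvv, real_inner_comm]; linarith) w hw hwf
    rw [inner_neg_right, inner_neg_right, hvv, real_inner_comm] at h3
    linarith
  have hhull : ∀ f ∈ F, inner ℝ v f = (1 : ℝ) → ∀ x ∈ convexHull ℝ (V : Set E3),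
      inner ℝ x f = (1 : ℝ) → 1 ≤ inner ℝ v x := by
    intro f hf hvf x hx hxf
    have h1 := hA1 V f 1 x hx (fun w hw => b4_le_one hDP hw hf) hxf
    have h2 : convexHull ℝ {w : E3 | w ∈ V ∧ inner ℝ w f = (1 : ℝ)} ⊆ {y : E3 | 1 ≤ inner ℝ v y} := by
      apply convexHull_min
      · intro w hw
        exact hface f hf hvf w hw.1 hw.2
      · intro a ha b hb s t hs ht hst
        show 1 ≤ inner ℝ v (s • a + t • b)
        rw [inner_add_right, inner_smul_right, inner_smul_right]
        have ha' : 1 ≤ inner ℝ v a := ha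
        have hb' : 1 ≤ inner ℝ v b := hb
        nlinarith
    exact h2 h1
  -- admissible directions
  have hdir : ∀ d : E3, (∀ f ∈ F, inner ℝ v f = (1 : ℝ) → inner ℝ d f ≤ (0 : ℝ)) →
      (∃ f ∈ F, inner ℝ v f = (1 : ℝ) ∧ inner ℝ d f = (0 : ℝ)) → 0 ≤ inner ℝ v d := by
    intro d hd hex
    obtain ⟨f, hf, hvf, hdf⟩ := hex
    have hev : ∀ᶠ ε : ℝ in 𝓝[>] 0, ∀ f' ∈ F, inner ℝ (v + ε • d) f' ≤ (1 : ℝ) := by
      rw [Finset.eventually_all]
      intro f' hf'
      rcases eq_or_lt_of_le (b4_le_one hDP hv hf') with he | hlt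
      · filter_upwards [self_mem_nhdsWithin] with ε hε
        rw [inner_add_left, inner_smul_left, he]
        have h1 := hd f' hf' he
        have h2 : (0 : ℝ) < ε := hε
        simp only [conj_trivial]
        nlinarith
      · have hcont : Tendsto (fun ε : ℝ => inner ℝ v f' + ε * inner ℝ d f') (𝓝[>] 0)
            (𝓝 (inner ℝ v f' + 0 * inner ℝ d f')) := by
          apply Tendsto.mono_left _ nhdsWithin_le_nhds
          exact (continuous_const.add (continuous_id.mul continuous_const)).tendsto 0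
        rw [zero_mul, add_zero] at hcont
        filter_upwards [hcont.eventually (gt_mem_nhds hlt)] with ε hε
        rw [inner_add_left, inner_smul_left]
        simp only [conj_trivial]
        exact hε.le
    obtain ⟨ε, hε1, hε2⟩ := (hev.and self_mem_nhdsWithin).exists
    have hε0 : (0 : ℝ) < ε := hε2
    have h3 : v + ε • d ∈ convexHull ℝ (V : Set E3) := (hDP.polV _).2 hε1
    have h4 : inner ℝ (v + ε • d) f = (1 : ℝ) := by
      rw [inner_add_left, inner_smul_left, hvf, hdf]; simp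
    have h5 := hhull f hf hvf _ h3 h4
    rw [inner_add_right, inner_smul_right, hvv] at h5
    by_contra hneg
    have : ε * inner ℝ v d < 0 := mul_neg_of_pos_of_neg hε0 (not_le.1 hneg)
    linarith
  -- the key consequence
  have hpos : ∀ e : E3, (∃ f ∈ F, inner ℝ v f = (1 : ℝ) ∧ (0 : ℝ) < inner ℝ e f) →
      0 < inner ℝ v e := by
    intro e hex
    obtain ⟨f, hf, hvf, hef⟩ := hex
    have hne : ((star F v).filter (fun f => (0 : ℝ) < inner ℝ e f)).Nonempty :=
      ⟨f, Finset.mem_filter.2 ⟨mem_star'.2 ⟨hf, hvf⟩, hef⟩⟩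
    obtain ⟨m, hm, hmax⟩ := Finset.exists_max_image _ (fun f => (inner ℝ e f : ℝ)) hne
    rw [Finset.mem_filter, mem_star'] at hm
    obtain ⟨⟨hmF, hvm⟩, hem⟩ := hm
    have h1 := hdir (-v + (inner ℝ e m : ℝ)⁻¹ • e) ?_ ?_
    · rw [inner_add_right, inner_neg_right, hvv, inner_smul_right] at h1
      have h2 : 0 < (inner ℝ e m : ℝ)⁻¹ := inv_pos.2 hem
      by_contra hneg
      have := mul_nonpos_of_nonneg_of_nonpos h2.le (not_lt.1 hneg)
      linarith
    · intro f' hf' hvf'
      rw [inner_add_left, inner_neg_left, hvf', inner_smul_left]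
      simp only [conj_trivial]
      by_cases hef' : (0 : ℝ) < inner ℝ e f'
      · have h3 := hmax f' (Finset.mem_filter.2 ⟨mem_star'.2 ⟨hf', hvf'⟩, hef'⟩)
        have h4 : (inner ℝ e m : ℝ)⁻¹ * inner ℝ e f' ≤ 1 := by
          rw [inv_mul_le_iff₀ hem, mul_one]
          exact h3
        linarith
      · have h3 := mul_nonpos_of_nonneg_of_nonpos (inv_pos.2 hem).le (not_lt.1 hef')
        linarith
    · refine ⟨m, hmF, hvm, ?_⟩
      rw [inner_add_left, inner_neg_left, hvm, inner_smul_left]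
      simp only [conj_trivial]
      rw [inv_mul_cancel₀ hem.ne']
      norm_num
  -- two different faces
  obtain ⟨g, hg, g', hg', hgg⟩ := Finset.one_lt_card.1 (by omega : 1 < (star F v).card)
  rw [mem_star'] at hg hg'
  set c : ℝ := (inner ℝ (g - g') g + inner ℝ (g - g') g') / 2 with hc
  have hdiff : inner ℝ (g - g') g - inner ℝ (g - g') g' = ‖g - g'‖ ^ 2 := by
    rw [← inner_sub_right, real_inner_self_eq_norm_sq]
  have hn : 0 < ‖g - g'‖ ^ 2 := by
    have : 0 < ‖g - g'‖ := norm_pos_iff.2 (sub_ne_zero.2 hgg)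
    positivity
  have h1 := hpos (g - g' - c • v) ⟨g, hg.1, hg.2, by
    rw [inner_sub_left, inner_smul_left, hg.2]
    simp only [conj_trivial, mul_one]
    rw [hc]
    linarith⟩
  have h2 := hpos (-(g - g' - c • v)) ⟨g', hg'.1, hg'.2, by
    rw [inner_neg_left, inner_sub_left, inner_smul_left, hg'.2]
    simp only [conj_trivial, mul_one]
    rw [hc]
    linarith⟩
  rw [inner_neg_right] at h2
  linarith

end Pool.Agent.Lib.MP_af06f6_co
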