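import Mathlib
import Pool.Agent.Lib.MP_af06f6_co.G.Swap

/-!
# MP_af06f6_co, geometry part, piece B9: adjacent faces
-/

open Set Metric

namespace Pool.Agent.Lib.MP_af06f6_co

/-- In the three-dimensional space two vectors orthogonal to two orthogonal nonzero vectors are
parallel. -/
private theorem b9_parallel (u d x y : E3) (hu : u ≠ 0) (hd : d ≠ 0) (hud : inner ℝ u d = (0 : ℝ))
    (hxu : inner ℝ x u = (0 : ℝ)) (hxd : inner ℝ x d = (0 : ℝ))
    (hyu : inner ℝ y u = (0 : ℝ)) (hyd : inner ℝ y d = (0 : ℝ)) (hx : x ≠ 0) :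
    ∃ c : ℝ, y = c • x := by
  classical
  by_contra hcon
  have hli : LinearIndependent ℝ ![x, y] := by
    rw [LinearIndependent.pair_iff' hx]
    intro c hc
    exact hcon ⟨c, hc.symm⟩
  have hudli : LinearIndependent ℝ ![u, d] := by
    rw [LinearIndependent.pair_iff' hu]
    intro c hc
    rw [← hc, real_inner_smul_right] at hud
    have huu : inner ℝ u u ≠ (0 : ℝ) := by
      rw [real_inner_self_eq_norm_sq]
      exact pow_ne_zero _ (norm_ne_zero_iff.2 hu)
    have hc0 : c = 0 := by
      rcases mul_eq_zero.1 hud with h | h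
      · exact h
      · exact absurd h huu
    rw [hc0, zero_smul] at hc
    exact hd hc.symm
  obtain ⟨U, hU⟩ : ∃ U : Submodule ℝ E3, U = Submodule.span ℝ (Set.range ![u, d]) := ⟨_, rfl⟩
  have hUr : Module.finrank ℝ U = 2 := by
    rw [hU, finrank_span_eq_card hudli]
    simp
  have hle : Submodule.span ℝ (Set.range ![x, y]) ≤ Uᗮ := by
    rw [Submodule.span_le]
    rintro z ⟨i, rfl⟩
    rw [SetLike.mem_coe, Submodule.mem_orthogonal]
    intro w hw
    rw [hU] at hw
    have hspan : ∀ z : E3, inner ℝ z u = (0 : ℝ) → inner ℝ z d = (0 : ℝ) →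
        ∀ w ∈ Submodule.span ℝ (Set.range ![u, d]), inner ℝ w z = (0 : ℝ) := by
      intro z h1 h2 w hw
      induction hw using Submodule.span_induction with
      | mem w hw =>
        obtain ⟨j, rfl⟩ := hw
        fin_cases j
        · simpa [real_inner_comm] using h1
        · simpa [real_inner_comm] using h2
      | zero => simp
      | add a b _ _ ha hb => rw [inner_add_left, ha, hb, add_zero]
      | smul c a _ ha => rw [real_inner_smul_left, ha, mul_zero]
    fin_cases i
    · exact hspan x hxu hxd w hw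
    · exact hspan y hyu hyd w hw
  have h1 : Module.finrank ℝ (Submodule.span ℝ (Set.range ![x, y])) = 2 := by
    rw [finrank_span_eq_card hli]
    simp
  have h2 := Submodule.finrank_mono hle
  have h3 := Submodule.finrank_add_finrank_orthogonal U
  have h4 : Module.finrank ℝ E3 = 3 := by simp [E3]
  omega

private theorem b9_comb (f g u : E3) (s s' c : ℝ) (hs : 0 < s) (hs' : 0 < s') (hc : s' = - c * s)
    (hg : g - u = c • (f - u)) : (s' / (s + s')) • f + (s / (s + s')) • g = u := by
  have hg' : g = c • f + (1 - c) • u := by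
    have h1 : g = u + c • (f - u) := by rw [← hg]; abel
    rw [h1]
    module
  have hc1 : c < 0 := by
    by_contra h
    push Not at h
    nlinarith
  have h1 : (1 : ℝ) - c ≠ 0 := by linarith
  have e1 : s' / (s + s') = - c / (1 - c) := by
    have h2 : s + s' ≠ 0 := by positivity
    rw [div_eq_div_iff h2 h1, hc]
    ring
  have e2 : s / (s + s') = 1 / (1 - c) := by
    have h2 : s + s' ≠ 0 := by positivity
    rw [div_eq_div_iff h2 h1, hc]
    ring
  have h3 : 1 / (1 - c) * (1 - c) = 1 := by field_simp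
  have h4 : - c / (1 - c) + 1 / (1 - c) * c = 0 := by field_simp; ring
  rw [e1, e2, hg', smul_add, smul_smul, smul_smul, ← add_assoc, ← add_smul, h3, h4, zero_smul,
    one_smul, zero_add]

theorem pf_B9 (hB7 : Stm_B7) (hB8 : Stm_B8) : Stm_B9 := by
  intro V F hDP hHT
  have key : ∀ v w f g : E3, E4 V F v w f g → inner ℝ f g = 1 - tl f * tl g ∧
      ∃ u ∈ openSegment ℝ v w, u ∈ openSegment ℝ f g ∧ ‖u‖ = 1 ∧
      inner ℝ u v = (1 : ℝ) ∧ inner ℝ u w = (1 : ℝ) ∧ inner ℝ u f = (1 : ℝ) ∧
      inner ℝ u g = (1 : ℝ) := by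
    intro v w f g hE
    obtain ⟨u, hu, hu1, huv, huw⟩ := hHT v w f g hE
    have hf1 := (hB7 V F hDP hHT f hE.hf).1
    have hg1 := (hB7 V F hDP hHT g hE.hg).1
    have hs := tl_pos hf1
    have hs' := tl_pos hg1
    have hs2 := tl_sq hf1
    have hs2' := tl_sq hg1
    obtain ⟨α, β, hα, hβ, hαβ, hu'⟩ := hu
    have huf : inner ℝ u f = (1 : ℝ) := by
      rw [← hu', inner_add_left, real_inner_smul_left, real_inner_smul_left, hE.vf, hE.wf]
      linarith
    have hug : inner ℝ u g = (1 : ℝ) := by
      rw [← hu', inner_add_left, real_inner_smul_left, real_inner_smul_left, hE.vg, hE.wg]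
      linarith
    have huu : inner ℝ u u = (1 : ℝ) := by rw [real_inner_self_eq_norm_sq, hu1]; norm_num
    have hu0 : u ≠ 0 := by
      intro h
      rw [h, norm_zero] at hu1
      exact zero_ne_one hu1
    have hff : inner ℝ f f = 1 + tl f ^ 2 := by rw [real_inner_self_eq_norm_sq, hs2]; ring
    have hgg : inner ℝ g g = 1 + tl g ^ 2 := by rw [real_inner_self_eq_norm_sq, hs2']; ring
    have hd0 : w - v ≠ 0 := sub_ne_zero.2 hE.hvw.symm
    have hx0 : f - u ≠ 0 := by
      intro h
      have : f = u := sub_eq_zero.1 h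
      rw [this, hu1] at hf1
      exact lt_irrefl _ hf1
    obtain ⟨c, hc⟩ := b9_parallel u (w - v) (f - u) (g - u) hu0 hd0
      (by rw [inner_sub_right, huv, huw]; ring)
      (by rw [inner_sub_left, real_inner_comm, huf, huu]; ring)
      (by
        rw [inner_sub_left, inner_sub_right, inner_sub_right, huv, huw, real_inner_comm,
          real_inner_comm v f, hE.vf, hE.wf]; ring)
      (by rw [inner_sub_left, real_inner_comm, hug, huu]; ring)
      (by
        rw [inner_sub_left, inner_sub_right, inner_sub_right, huv, huw, real_inner_comm,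
          real_inner_comm v g, hE.vg, hE.wg]; ring)
      hx0
    have hfuu : inner ℝ (f - u) (f - u) = tl f ^ 2 := by
      rw [inner_sub_left, inner_sub_right, inner_sub_right, hff, huf, real_inner_comm, huf, huu]
      ring
    have hguu : inner ℝ (g - u) (g - u) = tl g ^ 2 := by
      rw [inner_sub_left, inner_sub_right, inner_sub_right, hgg, hug, real_inner_comm, hug, huu]
      ring
    have hfg : inner ℝ (f - u) (g - u) = inner ℝ f g - 1 := by
      rw [inner_sub_left, inner_sub_right, inner_sub_right, real_inner_comm u f, huf, hug, huu]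
      ring
    have hc1 : inner ℝ f g - 1 = c * tl f ^ 2 := by
      rw [← hfg, hc, real_inner_smul_right, hfuu]
    have hc2 : tl g ^ 2 = c ^ 2 * tl f ^ 2 := by
      rw [← hguu, hc, real_inner_smul_left, real_inner_smul_right, hfuu]
      ring
    have hle := hB8 V F hDP hHT f hE.hf g hE.hg hE.hfg
    have hcneg : c < 0 := by
      by_contra hcn
      push Not at hcn
      nlinarith [mul_pos hs hs', mul_nonneg hcn (sq_nonneg (tl f))]
    have hc3 : tl g = - c * tl f := by
      have h1 : (tl g) ^ 2 = (- c * tl f) ^ 2 := by rw [hc2]; ring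
      exact (pow_left_inj₀ hs'.le (by nlinarith) (by norm_num)).1 h1
    refine ⟨by rw [hc3]; linarith, u, ⟨α, β, hα, hβ, hαβ, hu'⟩, ?_, hu1, huv, huw, huf, hug⟩
    -- u = (tl g f + tl f g)/(tl f + tl g)
    refine ⟨tl g / (tl f + tl g), tl f / (tl f + tl g), by positivity, by positivity, ?_, ?_⟩
    · field_simp
      ring
    · exact b9_comb f g u (tl f) (tl g) c hs hs' hc3 hc
  refine ⟨?_, ?_, ?_⟩
  · intro f g v w hE
    obtain ⟨_, u, _, h2, h3, _, _, h6, h7⟩ := key v w f g hE.swap
    exact ⟨u, h2, h3, h6, h7⟩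
  · intro f g hA
    obtain ⟨v, w, hE⟩ := hA.exE4F
    exact (key v w f g hE).1
  · intro v w f g hE
    exact (key v w f g hE).2

end Pool.Agent.Lib.MP_af06f6_co
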