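import Mathlib
import Pool.Agent.Lib.MP_af06f6_co.G.Swap

open Set Metric

namespace Pool.Agent.Lib.MP_af06f6_co

/-- the double of `arctan (hx f)` has cosine `1/‖f‖` and sine `tl f/‖f‖` -/
theorem c5_cs {f : E3} (hf : 1 < ‖f‖) :
    Real.cos (2 * Real.arctan (hx f)) = 1 / ‖f‖ ∧ Real.sin (2 * Real.arctan (hx f)) = tl f / ‖f‖ := by
  have h0 : 0 < ‖f‖ := by linarith
  have hs : Real.sin (Real.arctan (hx f)) = hx f * Real.cos (Real.arctan (hx f)) := by
    rw [Real.sin_arctan, Real.cos_arctan]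
    ring
  have hc : Real.cos (Real.arctan (hx f)) ^ 2 = 1 / (1 + hx f ^ 2) := Real.cos_sq_arctan _
  have h1 := one_add_hx_sq hf
  have h2 : (0 : ℝ) < 1 + hx f ^ 2 := by positivity
  constructor
  · rw [Real.cos_two_mul, hc, h1]
    field_simp
    ring
  · rw [Real.sin_two_mul, hs, tl_div_norm hf]
    have : 2 * (hx f * Real.cos (Real.arctan (hx f))) * Real.cos (Real.arctan (hx f)) =
        2 * hx f * Real.cos (Real.arctan (hx f)) ^ 2 := by ring
    rw [this, hc]
    ring

theorem c5_arc {f : E3} (hf : 1 < ‖f‖) :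
    0 < Real.arctan (hx f) ∧ 2 * Real.arctan (hx f) < Real.pi / 2 := by
  have h0 := hx_pos hf
  have h1 := hx_lt_one hf
  constructor
  · exact Real.arctan_pos.2 h0
  · have : Real.arctan (hx f) < Real.arctan 1 := Real.arctan_strictMono h1
    rw [Real.arctan_one] at this
    linarith

theorem c5_angle {f g : E3} (hf : 1 < ‖f‖) (hg : 1 < ‖g‖) (h : inner ℝ f g ≤ 1 - tl f * tl g) :
    2 * Real.arctan (hx f) + 2 * Real.arctan (hx g) ≤ InnerProductGeometry.angle f g := by
  have hf0 : 0 < ‖f‖ := by linarith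
  have hg0 : 0 < ‖g‖ := by linarith
  have h1 := c5_arc hf
  have h2 := c5_arc hg
  by_contra hc
  push Not at hc
  have h3 : Real.cos (2 * Real.arctan (hx f) + 2 * Real.arctan (hx g)) <
      Real.cos (InnerProductGeometry.angle f g) :=
    Real.cos_lt_cos_of_nonneg_of_le_pi (InnerProductGeometry.angle_nonneg f g) (by linarith) hc
  rw [InnerProductGeometry.cos_angle, Real.cos_add, (c5_cs hf).1, (c5_cs hg).1, (c5_cs hf).2,
    (c5_cs hg).2, lt_div_iff₀ (by positivity)] at h3
  have h4 : (1 / ‖f‖ * (1 / ‖g‖) - tl f / ‖f‖ * (tl g / ‖g‖)) * (‖f‖ * ‖g‖) =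
      1 - tl f * tl g := by
    field_simp
  linarith

theorem pf_C5 : Stm_C5 := by
  intro V F hM f hf g hg h hh hfg hgh hfh
  have nf := hM.one_lt_F f hf
  have ng := hM.one_lt_F g hg
  have nh := hM.one_lt_F h hh
  have a1 := c5_angle nf ng (hM.inner_F f hf g hg hfg)
  have a2 := c5_angle ng nh (hM.inner_F g hg h hh hgh)
  have a3 := c5_angle nf nh (hM.inner_F f hf h hh hfh)
  have tri := InnerProductGeometry.angle_le_angle_add_angle f (-h) g
  rw [InnerProductGeometry.angle_neg_right, InnerProductGeometry.angle_neg_left,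
    InnerProductGeometry.angle_comm h g] at tri
  have hsum : Real.arctan (hx f) + Real.arctan (hx g) + Real.arctan (hx h) ≤ Real.pi / 2 := by
    linarith
  have b1 := c5_arc nf
  have b2 := c5_arc ng
  have b3 := c5_arc nh
  have hcos : 0 ≤ Real.cos (Real.arctan (hx f) + Real.arctan (hx g) + Real.arctan (hx h)) :=
    Real.cos_nonneg_of_mem_Icc ⟨by linarith, hsum⟩
  have hs : ∀ x : ℝ, Real.sin (Real.arctan x) = x * Real.cos (Real.arctan x) := by
    intro x
    rw [Real.sin_arctan, Real.cos_arctan]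
    ring
  rw [Real.cos_add, Real.cos_add, Real.sin_add, hs, hs, hs] at hcos
  have c1 : 0 < Real.cos (Real.arctan (hx f)) := Real.cos_arctan_pos _
  have c2 : 0 < Real.cos (Real.arctan (hx g)) := Real.cos_arctan_pos _
  have c3 : 0 < Real.cos (Real.arctan (hx h)) := Real.cos_arctan_pos _
  have c4 : 0 < Real.cos (Real.arctan (hx f)) * Real.cos (Real.arctan (hx g)) *
      Real.cos (Real.arctan (hx h)) := by positivity
  by_contra hcon
  push Not at hcon
  nlinarith [mul_pos c4 (sub_pos.2 hcon)]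

end Pool.Agent.Lib.MP_af06f6_co
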